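import Pool.Agent.H83.PT6.Def
import Pool.Agent.H83.PT.Main

/-!
Two triangles with `c = a + 2 b` (first part of the second = last part of the first), at most six
primes.

PROOF. g := c = a+2b, v := c+2d > g. Cancel g: a b (a+b) = d (c+d) (c+2d). With 2b = g-a,
2(a+b) = g+a, 2d = v-g, 2(c+d) = v+g: a (g^2-a^2) = v (v^2-g^2), so
(v+a)(g^2 - v^2 + v a - a^2) = 0, so (*) g^2 = v^2 - v a + a^2.
omega(v) >= 2: otherwise v divides (key) a part of (a,b), all are <= g < v. omega(c+d) >= 2 for the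
same reason (c+d > c = g; all parts of (a,b) are <= g). omega(g) >= 1 (g > 1). So omega(d) <= 1.
d = 1: v = g+2 and (*): g (a-4) = a^2-2a+4, a odd: a-4 | 12 (a^2-2a+4 = (a-4)(a+2)+12), a > 4:
a = 5, g = 19, A = 7980 or a = 7, g = 13, A = 2730.
Otherwise q := d has omega(q) = 1 and omega(g) = 1, omega(v) = 2, omega(c+d) = 2. q divides (key) one
part of (a,b); not g = c (coprime). v = g+2q.
 * q | a, a = k q: (k-4) g = (k^2-2k+4) q, k odd (a odd), so k > 4; q | k-4: k-4 = q t, q, t odd,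
   g t = k^2-2k+4 = (k-4)(k+2)+12: t | 12: t = 1 or 3.
   t = 1: k = q+4: g = q^2+6q+12, a = q(q+4), b = q+6, a+b = (q+3)(q+2), v = (q+2)(q+6),
     c+d = (q+3)(q+4). A = g q (q+4)(q+6)(q+3)(q+2). omega(v)=2: q+2, q+6 prime powers (coprime:
     q odd), omega(c+d)=2: q+3, q+4 prime powers. Eis6 (g; q, q+2, q+3, q+4, q+6), q >= 3.
   t = 3: k = 3q+4: g = 3q^2+6q+4, a = q(3q+4), b = q+2, a+b = (3q+2)(q+1), v = (3q+2)(q+2),
     c+d = (3q+4)(q+1). Eis6 (g; q, q+1, q+2, 3q+2, 3q+4), q >= 3.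
 * q | b, b = k q, a = g-2kq: (k-1) g = 2(k^2+k+1) q. q | k-1 (gcd(g,q)=1), k > 1, k-1 = q t,
   g t = 2(k^2+k+1), k^2+k+1 = (k-1)(k+2)+3 odd: t | 6, t even (g odd): t = 2 or 6.
   t = 2: k = 2q+1: g = 4q^2+6q+3, b = q(2q+1), a = 4q+3, a+b = (2q+3)(q+1), v = (2q+1)(2q+3),
     c+d = (4q+3)(q+1). Eis6 (g; q, q+1, 2q+1, 2q+3, 4q+3), q >= 3; q = 2 gives A = 71610.
   t = 6: k = 6q+1: g = 12q^2+6q+1, b = q(6q+1), a = 4q+1, a+b = (3q+1)(2q+1),
     v = (6q+1)(2q+1), c+d = (4q+1)(3q+1). Eis6 (g; q, 2q+1, 3q+1, 4q+1, 6q+1), q >= 3; q = 2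
    gives A = 499590.
 * q | a+b = k q, a = 2kq-g: g^2-3(k-1) g q+2(k^2-k+1) q^2 = 0: q | g^2, q = 1: contradiction.
(If omega(x y) = 2 with x, y > 1 coprime, both are prime powers. All Eis6 inequalities were checked
by computer for the ranges given.)
-/

namespace Pool.Agent.H83.PT

/-- two coprime factors with one prime each -/
private lemma two_pp {x y : ℕ} (hx : 1 < x) (hy : 1 < y) (hc : x.Coprime y)
    (h : (x * y).primeFactors.card = 2) : IsPrimePow x ∧ IsPrimePow y := by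
  rw [hc.primeFactors_mul, Finset.card_union_of_disjoint hc.disjoint_primeFactors] at h
  have h1 := card_pos hx
  have h2 := card_pos hy
  exact ⟨isPrimePow_iff_card_primeFactors_eq_one.mpr (by omega),
    isPrimePow_iff_card_primeFactors_eq_one.mpr (by omega)⟩

private lemma mono {A x y : ℕ} (hx : 1 ≤ x) (hxy : x ≤ y) (h : 4 * A + x < x ^ 3) :
    4 * A + y < y ^ 3 := by
  obtain ⟨e, rfl⟩ := Nat.exists_eq_add_of_le hxy
  have h1 : (x + e) ^ 3 = x ^ 3 + (3 * (x * x) * e + 3 * x * e ^ 2 + e ^ 3) := by ring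
  have h2 : e ≤ 3 * (x * x) * e := by
    have : 1 ≤ 3 * (x * x) := by nlinarith
    nlinarith
  rw [h1]
  have h3 : 0 ≤ 3 * x * e ^ 2 + e ^ 3 := Nat.zero_le _
  omega

private lemma eis {g q1 q2 q3 q4 q5 A : ℕ} (hg : IsPrimePow g) (h1 : IsPrimePow q1)
    (h2 : IsPrimePow q2) (h3 : IsPrimePow q3) (h4 : IsPrimePow q4) (h5 : IsPrimePow q5)
    (hA : A = g * q1 * q2 * q3 * q4 * q5) (h : 4 * (q2 * q3 * q4 * q5) + 1 < (g * q1) ^ 2)
    (l2 : q1 ≤ q2) (l3 : q1 ≤ q3) (l4 : q1 ≤ q4) (l5 : q1 ≤ q5) : Eis6 A := by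
  have hg0 := hg.pos
  have h10 := h1.pos
  have h0 : 0 < g * q1 := Nat.mul_pos hg0 h10
  have base : 4 * A + g * q1 < (g * q1) ^ 3 := by
    calc 4 * A + g * q1 = (g * q1) * (4 * (q2 * q3 * q4 * q5) + 1) := by rw [hA]; ring
      _ < (g * q1) * (g * q1) ^ 2 := Nat.mul_lt_mul_of_pos_left h h0
      _ = (g * q1) ^ 3 := by ring
  exact ⟨g, q1, q2, q3, q4, q5, hg, h1, h2, h3, h4, h5, hA, base,
    mono h0 (Nat.mul_le_mul_left g l2) base, mono h0 (Nat.mul_le_mul_left g l3) base,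
    mono h0 (Nat.mul_le_mul_left g l4) base, mono h0 (Nat.mul_le_mul_left g l5) base⟩

/-- `a | 4` and odd numbers -/
private lemma cop4 {x y : ℕ} (hx : x % 2 = 1) (h : y = x + 4) : x.Coprime y := by
  subst h
  have h1 : x.Coprime 4 := by
    have : x.Coprime 2 := by rw [Nat.coprime_two_right, Nat.odd_iff]; exact hx
    exact this.mul_right this
  simpa [Nat.coprime_self_add_right] using h1

/-- coprime from a linear relation `r x = s y + 1` -/
private lemma cop_lin {x y r s : ℕ} (h : r * x = s * y + 1) : x.Coprime y := by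
  have h1 : x.gcd y ∣ 1 := by
    have ha : x.gcd y ∣ r * x := (Nat.gcd_dvd_left x y).mul_left r
    have hb : x.gcd y ∣ s * y := (Nat.gcd_dvd_right x y).mul_left s
    rw [h] at ha
    exact (Nat.dvd_add_right hb).mp ha
  exact Nat.dvd_one.mp h1

/-- coprime from `r x = s y + 2`, `y` odd -/
private lemma cop_lin2 {x y r s : ℕ} (hy : y % 2 = 1) (h : r * x = s * y + 2) : x.Coprime y := by
  have h1 : x.gcd y ∣ 2 := by
    have ha : x.gcd y ∣ r * x := (Nat.gcd_dvd_left x y).mul_left r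
    have hb : x.gcd y ∣ s * y := (Nat.gcd_dvd_right x y).mul_left s
    rw [h] at ha
    exact (Nat.dvd_add_right hb).mp ha
  rcases (Nat.dvd_prime Nat.prime_two).mp h1 with k | k
  · exact k
  · exfalso
    have h2 : 2 ∣ y := by
      rw [← k]
      exact Nat.gcd_dvd_right x y
    omega

/-- coprime from `r x = s y + 4`, `y` odd -/
private lemma cop_lin4 {x y r s : ℕ} (hy : y % 2 = 1) (h : r * x = s * y + 4) : x.Coprime y := by
  have h1 : x.gcd y ∣ 4 := by
    have ha : x.gcd y ∣ r * x := (Nat.gcd_dvd_left x y).mul_left r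
    have hb : x.gcd y ∣ s * y := (Nat.gcd_dvd_right x y).mul_left s
    rw [h] at ha
    exact (Nat.dvd_add_right hb).mp ha
  have h2 : x.gcd y ∣ y := Nat.gcd_dvd_right x y
  have h3 : y.Coprime 4 := by
    have : y.Coprime 2 := by rw [Nat.coprime_two_right, Nat.odd_iff]; exact hy
    exact this.mul_right this
  exact Nat.eq_one_of_dvd_coprimes h3 h2 h1

/-- family `q | a`, `t = 1` -/
private lemma fA1 {c d : ℕ} (hd : 3 ≤ d) (ho : d % 2 = 1) (hc : c = d ^ 2 + 6 * d + 12)
    (gp : IsPrimePow c) (dp : IsPrimePow d) (k3 : (c + d).primeFactors.card = 2)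
    (k4 : (c + 2 * d).primeFactors.card = 2) : Eis6 (ar c d) := by
  have e3 : c + d = (d + 3) * (d + 4) := by rw [hc]; ring
  have e4 : c + 2 * d = (d + 2) * (d + 6) := by rw [hc]; ring
  rw [e3] at k3
  rw [e4] at k4
  obtain ⟨p1, p2⟩ := two_pp (by omega) (by omega) (cop_lin (r := 1) (s := 1) (by omega)).symm k3
  obtain ⟨p3, p4⟩ := two_pp (by omega) (by omega) (cop4 (by omega) (by omega)) k4
  refine eis gp dp p3 p1 p2 p4 ?_ ?_ (by omega) (by omega) (by omega) (by omega)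
  · unfold ar
    rw [e3, e4]
    ring
  · obtain ⟨e, rfl⟩ := Nat.exists_eq_add_of_le' hd
    have : (c * (e + 3)) ^ 2 = 4 * ((e + 3 + 2) * (e + 3 + 3) * (e + 3 + 4) * (e + 3 + 6)) + 1 +
        (6128 + 12858 * e + 8059 * e ^ 2 + 2376 * e ^ 3 + 371 * e ^ 4 + 30 * e ^ 5 + e ^ 6) := by
      rw [hc]; ring
    rw [this]
    omega

/-- family `q | a`, `t = 3` -/
private lemma fA3 {c d : ℕ} (hd : 3 ≤ d) (ho : d % 2 = 1) (hc : c = 3 * d ^ 2 + 6 * d + 4)
    (gp : IsPrimePow c) (dp : IsPrimePow d) (k3 : (c + d).primeFactors.card = 2)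
    (k4 : (c + 2 * d).primeFactors.card = 2) : Eis6 (ar c d) := by
  have e3 : c + d = (3 * d + 4) * (d + 1) := by rw [hc]; ring
  have e4 : c + 2 * d = (d + 2) * (3 * d + 2) := by rw [hc]; ring
  rw [e3] at k3
  rw [e4] at k4
  obtain ⟨p1, p2⟩ := two_pp (by omega) (by omega) (cop_lin (r := 1) (s := 3) (by omega)) k3
  obtain ⟨p3, p4⟩ := two_pp (by omega) (by omega)
    (cop_lin4 (r := 3) (s := 1) (by omega) (by omega)) k4
  refine eis gp dp p2 p3 p4 p1 ?_ ?_ (by omega) (by omega) (by omega) (by omega)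
  · unfold ar
    rw [e3, e4]
    ring
  · obtain ⟨e, rfl⟩ := Nat.exists_eq_add_of_le' hd
    have : (c * (e + 3)) ^ 2 = 4 * ((e + 3 + 1) * (e + 3 + 2) * (3 * (e + 3) + 2) * (3 * (e + 3) + 4)) + 1 +
        (10168 + 24666 * e + 20459 * e ^ 2 + 8256 * e ^ 3 + 1779 * e ^ 4 + 198 * e ^ 5 + 9 * e ^ 6) := by
      rw [hc]; ring
    rw [this]
    omega

/-- family `q | b`, `t = 2` -/
private lemma fB2 {c d : ℕ} (hd : 3 ≤ d) (hc : c = 4 * d ^ 2 + 6 * d + 3)
    (gp : IsPrimePow c) (dp : IsPrimePow d) (k3 : (c + d).primeFactors.card = 2)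
    (k4 : (c + 2 * d).primeFactors.card = 2) : Eis6 (ar c d) := by
  have e3 : c + d = (d + 1) * (4 * d + 3) := by rw [hc]; ring
  have e4 : c + 2 * d = (2 * d + 3) * (2 * d + 1) := by rw [hc]; ring
  rw [e3] at k3
  rw [e4] at k4
  obtain ⟨p1, p2⟩ := two_pp (by omega) (by omega) (cop_lin (r := 4) (s := 1) (by omega)) k3
  obtain ⟨p3, p4⟩ := two_pp (by omega) (by omega)
    (cop_lin2 (r := 1) (s := 1) (by omega) (by omega)) k4
  refine eis gp dp p1 p4 p3 p2 ?_ ?_ (by omega) (by omega) (by omega) (by omega)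
  · unfold ar
    rw [e3, e4]
    ring
  · obtain ⟨e, rfl⟩ := Nat.exists_eq_add_of_le' hd
    have : (c * (e + 3)) ^ 2 = 4 * ((e + 3 + 1) * (2 * (e + 3) + 1) * (2 * (e + 3) + 3) * (4 * (e + 3) + 3)) + 1 +
        (14120 + 34782 * e + 30037 * e ^ 2 + 12708 * e ^ 3 + 2876 * e ^ 4 + 336 * e ^ 5 + 16 * e ^ 6) := by
      rw [hc]; ring
    rw [this]
    omega

/-- family `q | b`, `t = 6` -/
private lemma fB6 {c d : ℕ} (hd : 3 ≤ d) (hc : c = 12 * d ^ 2 + 6 * d + 1)
    (gp : IsPrimePow c) (dp : IsPrimePow d) (k3 : (c + d).primeFactors.card = 2)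
    (k4 : (c + 2 * d).primeFactors.card = 2) : Eis6 (ar c d) := by
  have e3 : c + d = (3 * d + 1) * (4 * d + 1) := by rw [hc]; ring
  have e4 : c + 2 * d = (2 * d + 1) * (6 * d + 1) := by rw [hc]; ring
  rw [e3] at k3
  rw [e4] at k4
  obtain ⟨p1, p2⟩ := two_pp (by omega) (by omega) (cop_lin (r := 4) (s := 3) (by omega)) k3
  obtain ⟨p3, p4⟩ := two_pp (by omega) (by omega)
    (cop_lin2 (r := 3) (s := 1) (by omega) (by omega)) k4
  refine eis gp dp p3 p1 p2 p4 ?_ ?_ (by omega) (by omega) (by omega) (by omega)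
  · unfold ar
    rw [e3, e4]
    ring
  · obtain ⟨e, rfl⟩ := Nat.exists_eq_add_of_le' hd
    have : (c * (e + 3)) ^ 2 = 4 * ((2 * (e + 3) + 1) * (3 * (e + 3) + 1) * (4 * (e + 3) + 1) * (6 * (e + 3) + 1)) + 1 +
        (76000 + 191454 * e + 179285 * e ^ 2 + 83820 * e ^ 3 + 21084 * e ^ 4 + 2736 * e ^ 5 + 144 * e ^ 6) := by
      rw [hc]; ring
    rw [this]
    omega

/-- the quadratic relation -/
private lemma starL {a b c d : ℕ} (hc : 0 < c) (he : ar a b = ar c d) (hs : a + 2 * b = c) :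
    (c : ℤ) * (a - 4 * d) = 4 * d ^ 2 - 2 * d * a + a ^ 2 := by
  have e1 : a * b * (a + b) = d * (c + d) * (c + 2 * d) := by
    apply Nat.eq_of_mul_eq_mul_left hc
    calc c * (a * b * (a + b)) = (a + 2 * b) * (a * b * (a + b)) := by rw [hs]
      _ = ar a b := by unfold ar; ring
      _ = ar c d := he
      _ = c * (d * (c + d) * (c + 2 * d)) := by unfold ar; ring
  have e2 : (a : ℤ) * b * (a + b) = d * (c + d) * (c + 2 * d) := by exact_mod_cast e1
  have hb2 : 2 * (b : ℤ) = c - a := by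
    have : (a : ℤ) + 2 * b = c := by exact_mod_cast hs
    linarith
  have e3 : (a : ℤ) * (2 * b) * (2 * a + 2 * b) = 4 * (d * (c + d) * (c + 2 * d)) := by
    linear_combination 4 * e2
  rw [hb2] at e3
  have hz : ((a : ℤ) + (c + 2 * d)) * (c * (a - 4 * d) - (4 * d ^ 2 - 2 * d * a + a ^ 2)) = 0 := by
    linear_combination e3
  have hc' : (0 : ℤ) < c := by exact_mod_cast hc
  rcases mul_eq_zero.mp hz with k | k
  · exfalso
    omega
  · linarith

/-- `d | a` -/
private lemma caseA {a c d : ℕ} (ho : a % 2 = 1) (hc : 0 < c) (hd1 : 1 < d) (hcd : c.Coprime d)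
    (star : (c : ℤ) * (a - 4 * d) = 4 * d ^ 2 - 2 * d * a + a ^ 2) (k : d ∣ a) :
    3 ≤ d ∧ d % 2 = 1 ∧ (c = d ^ 2 + 6 * d + 12 ∨ c = 3 * d ^ 2 + 6 * d + 4) := by
  have hc' : (0 : ℤ) < c := by exact_mod_cast hc
  have hd : 0 < d := by omega
  have hd' : (0 : ℤ) < d := by exact_mod_cast hd
  obtain ⟨k, hk⟩ := k
  have hk' : (a : ℤ) = d * k := by exact_mod_cast hk
  have s1 : (c : ℤ) * (k - 4) = d * (4 - 2 * k + k ^ 2) := by
    rw [hk'] at star
    have : (d : ℤ) * ((c : ℤ) * (k - 4) - d * (4 - 2 * k + k ^ 2)) = 0 := by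
      linear_combination star
    rcases mul_eq_zero.mp this with z | z
    · omega
    · linarith
  have hk4 : 4 < k := by
    by_contra hcon
    have h1 : (k : ℤ) - 4 ≤ 0 := by
      have : (k : ℤ) ≤ 4 := by exact_mod_cast (not_lt.mp hcon)
      linarith
    have h2 : (c : ℤ) * (k - 4) ≤ 0 := mul_nonpos_of_nonneg_of_nonpos hc'.le h1
    have h3 : (0 : ℤ) < d * (4 - 2 * k + k ^ 2) := by
      apply mul_pos hd'
      nlinarith [sq_nonneg ((k : ℤ) - 1)]
    linarith
  obtain ⟨u, rfl⟩ := Nat.exists_eq_add_of_le' hk4.le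
  have hu : 0 < u := by omega
  have s2 : c * u = d * (u ^ 2 + 6 * u + 12) := by
    push_cast at s1
    have : (c : ℤ) * u = d * (u ^ 2 + 6 * u + 12) := by linear_combination s1
    exact_mod_cast this
  have hdu : d ∣ u := hcd.symm.dvd_of_dvd_mul_left (Dvd.intro _ s2.symm)
  obtain ⟨t, rfl⟩ := hdu
  have s3 : c * t = d ^ 2 * t ^ 2 + 6 * d * t + 12 := by
    apply Nat.eq_of_mul_eq_mul_left hd
    calc d * (c * t) = c * (d * t) := by ring
      _ = d * ((d * t) ^ 2 + 6 * (d * t) + 12) := s2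
      _ = _ := by ring
  have hodd : (d * (d * t + 4)) % 2 = 1 := by rw [← hk]; exact ho
  have hdo : d % 2 = 1 := by
    rcases Nat.mod_two_eq_zero_or_one d with z | z
    · exfalso
      rw [Nat.mul_mod, z] at hodd
      simp at hodd
    · exact z
  have hto : t % 2 = 1 := by
    rcases Nat.mod_two_eq_zero_or_one t with z | z
    · exfalso
      have h1 : (d * t + 4) % 2 = 0 := by
        rw [Nat.add_mod, Nat.mul_mod, z]
        simp
      rw [Nat.mul_mod, h1] at hodd
      simp at hodd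
    · exact z
  have ht12 : t ∣ 12 := by
    have h1 : t ∣ d ^ 2 * t ^ 2 + 6 * d * t := ⟨d ^ 2 * t + 6 * d, by ring⟩
    have h2 : t ∣ d ^ 2 * t ^ 2 + 6 * d * t + 12 := by
      rw [← s3]; exact Dvd.intro_left c rfl
    exact (Nat.dvd_add_right h1).mp h2
  have ht : t ≤ 12 := Nat.le_of_dvd (by norm_num) ht12
  refine ⟨by omega, hdo, ?_⟩
  have ht' : t = 1 ∨ t = 3 := by
    clear s1 s2 s3 hodd hk hk' hk4 hu
    interval_cases t <;> revert ht12 hto <;> decide
  rcases ht' with rfl | rfl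
  · left
    omega
  · right
    omega

/-- `d | b` -/
private lemma caseB {a b c d : ℕ} (ho' : c % 2 = 1) (hc : 0 < c) (hd1 : 1 < d)
    (hcd : c.Coprime d) (hs : a + 2 * b = c)
    (star : (c : ℤ) * (a - 4 * d) = 4 * d ^ 2 - 2 * d * a + a ^ 2) (k : d ∣ b) :
    c = 4 * d ^ 2 + 6 * d + 3 ∨ c = 12 * d ^ 2 + 6 * d + 1 := by
  have hc' : (0 : ℤ) < c := by exact_mod_cast hc
  have hd : 0 < d := by omega
  have hd' : (0 : ℤ) < d := by exact_mod_cast hd
  obtain ⟨k, hk⟩ := k
  have hk' : (a : ℤ) = c - 2 * d * k := by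
    have : (a : ℤ) + 2 * b = c := by exact_mod_cast hs
    rw [hk] at this
    push_cast at this
    linarith
  have s1 : (c : ℤ) * (k - 1) = 2 * d * (k ^ 2 + k + 1) := by
    rw [hk'] at star
    have : (2 * d : ℤ) * ((c : ℤ) * (k - 1) - 2 * d * (k ^ 2 + k + 1)) = 0 := by
      linear_combination star
    rcases mul_eq_zero.mp this with z | z
    · omega
    · linarith
  have hk1 : 1 < k := by
    by_contra hcon
    have h1 : (k : ℤ) - 1 ≤ 0 := by
      have : (k : ℤ) ≤ 1 := by exact_mod_cast (not_lt.mp hcon)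
      linarith
    have h2 : (c : ℤ) * (k - 1) ≤ 0 := mul_nonpos_of_nonneg_of_nonpos hc'.le h1
    have h3 : (0 : ℤ) < 2 * d * (k ^ 2 + k + 1) := by positivity
    linarith
  obtain ⟨u, rfl⟩ := Nat.exists_eq_add_of_le' hk1.le
  have hu : 0 < u := by omega
  have s2 : c * u = d * (2 * (u ^ 2 + 3 * u + 3)) := by
    push_cast at s1
    have : (c : ℤ) * u = d * (2 * (u ^ 2 + 3 * u + 3)) := by linear_combination s1
    exact_mod_cast this
  have hdu : d ∣ u := hcd.symm.dvd_of_dvd_mul_left (Dvd.intro _ s2.symm)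
  obtain ⟨t, rfl⟩ := hdu
  have s3 : c * t = 2 * (d ^ 2 * t ^ 2) + 6 * d * t + 6 := by
    apply Nat.eq_of_mul_eq_mul_left hd
    calc d * (c * t) = c * (d * t) := by ring
      _ = d * (2 * ((d * t) ^ 2 + 3 * (d * t) + 3)) := s2
      _ = _ := by ring
  have ht6 : t ∣ 6 := by
    have h1 : t ∣ 2 * (d ^ 2 * t ^ 2) + 6 * d * t := ⟨2 * (d ^ 2 * t) + 6 * d, by ring⟩
    have h2 : t ∣ 2 * (d ^ 2 * t ^ 2) + 6 * d * t + 6 := by
      rw [← s3]; exact Dvd.intro_left c rfl
    exact (Nat.dvd_add_right h1).mp h2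
  have ht : t ≤ 6 := Nat.le_of_dvd (by norm_num) ht6
  have ht0 : 0 < t := Nat.pos_of_dvd_of_pos ht6 (by norm_num)
  clear s1 s2 hk hk' hk1 hu star
  obtain ⟨X, hX⟩ : ∃ X, X = d ^ 2 := ⟨_, rfl⟩
  rw [← hX] at s3 ⊢
  interval_cases t <;> omega

/-- `d | a + b` -/
private lemma caseC {a b c d : ℕ} (hd1 : 1 < d) (hcd : c.Coprime d) (hs : a + 2 * b = c)
    (star : (c : ℤ) * (a - 4 * d) = 4 * d ^ 2 - 2 * d * a + a ^ 2) (k : d ∣ a + b) : False := by
  obtain ⟨k, hk⟩ := k
  have hk' : (a : ℤ) = 2 * d * k - c := by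
    have h1 : (a : ℤ) + 2 * b = c := by exact_mod_cast hs
    have h2 : (a : ℤ) + b = d * k := by exact_mod_cast hk
    linarith
  rw [hk'] at star
  have s0 : 2 * (c : ℤ) ^ 2 = 2 * (d * (3 * (k - 1) * c - 2 * d * (k ^ 2 - k + 1))) := by
    linear_combination -star
  have s1 : (c : ℤ) ^ 2 = d * (3 * (k - 1) * c - 2 * d * (k ^ 2 - k + 1)) := by linarith
  have h1 : (d : ℤ) ∣ (c : ℤ) ^ 2 := Dvd.intro _ s1.symm
  have h2 : d ∣ c ^ 2 := by exact_mod_cast h1
  have h3 : (c ^ 2).Coprime d := hcd.pow_left 2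
  have := Nat.eq_one_of_dvd_coprimes h3 h2 (dvd_refl d)
  omega

/-- `d = 1` -/
private lemma case1 {a c : ℕ} (ho : a % 2 = 1) (hc : 0 < c)
    (star : (c : ℤ) * (a - 4) = 4 - 2 * a + a ^ 2) : c = 19 ∨ c = 13 := by
  have hc' : (0 : ℤ) < c := by exact_mod_cast hc
  have ha4 : 4 < a := by
    by_contra hcon
    have h1 : (a : ℤ) - 4 ≤ 0 := by
      have : (a : ℤ) ≤ 4 := by exact_mod_cast (not_lt.mp hcon)
      linarith
    have h2 : (c : ℤ) * (a - 4) ≤ 0 := mul_nonpos_of_nonneg_of_nonpos hc'.le h1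
    nlinarith [sq_nonneg ((a : ℤ) - 1)]
  obtain ⟨u, rfl⟩ := Nat.exists_eq_add_of_le' ha4.le
  have s2 : c * u = u * (u + 6) + 12 := by
    push_cast at star
    have : (c : ℤ) * u = u * (u + 6) + 12 := by linear_combination star
    exact_mod_cast this
  have hu12 : u ∣ 12 := by
    have h1 : u ∣ u * (u + 6) := Dvd.intro _ rfl
    have h2 : u ∣ u * (u + 6) + 12 := by
      rw [← s2]; exact Dvd.intro_left c rfl
    exact (Nat.dvd_add_right h1).mp h2
  have hu : u ≤ 12 := Nat.le_of_dvd (by norm_num) hu12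
  clear star
  interval_cases u <;> omega

theorem aM {a b c d : ℕ} (h : Tri a b) (h' : Tri c d) (he : ar a b = ar c d)
    (hs : a + 2 * b = c) (h6 : (ar c d).primeFactors.card ≤ 6) :
    ar c d = 2730 ∨ ar c d = 7980 ∨ ar c d = 71610 ∨ ar c d = 499590 ∨ Eis6 (ar c d) := by
  have hb := h.hb
  have ha := h.ha
  have hc := h'.ha
  have hd := h'.hb
  have ho := h.odd
  have ho' := h'.odd
  have hsum := card_ar h'
  have c2 : d ∣ ar a b := by
    rw [he]; unfold ar
    exact Dvd.intro (c * (c + d) * (c + 2 * d)) (by ring)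
  have c3 : (c + d) ∣ ar a b := by
    rw [he]; unfold ar
    exact Dvd.intro (c * d * (c + 2 * d)) (by ring)
  have c4 : (c + 2 * d) ∣ ar a b := by
    rw [he]; unfold ar
    exact Dvd.intro (c * d * (c + d)) (by ring)
  have w4 : 2 ≤ (c + 2 * d).primeFactors.card := by
    by_contra hw
    rcases key h (by omega) (by omega) c4 with k | k | k | k
    · have := Nat.le_of_dvd ha k
      omega
    · have := Nat.le_of_dvd hb k
      omega
    · have := Nat.le_of_dvd (by omega) k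
      omega
    · have := Nat.le_of_dvd (by omega) k
      omega
  have w3 : 2 ≤ (c + d).primeFactors.card := by
    by_contra hw
    rcases key h (by omega) (by omega) c3 with k | k | k | k
    · have := Nat.le_of_dvd ha k
      omega
    · have := Nat.le_of_dvd hb k
      omega
    · have := Nat.le_of_dvd (by omega) k
      omega
    · have := Nat.le_of_dvd (by omega) k
      omega
  have w1 : 1 ≤ c.primeFactors.card := card_pos (by omega)
  have star := starL (a := a) (b := b) (c := c) (d := d) hc he hs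
  rcases Nat.lt_or_ge 1 d with hd1 | hd1
  · have w2 : 1 ≤ d.primeFactors.card := card_pos hd1
    have k1 : c.primeFactors.card = 1 := by omega
    have k2 : d.primeFactors.card = 1 := by omega
    have k3 : (c + d).primeFactors.card = 2 := by omega
    have k4 : (c + 2 * d).primeFactors.card = 2 := by omega
    have gp : IsPrimePow c := isPrimePow_iff_card_primeFactors_eq_one.mpr k1
    have dp : IsPrimePow d := isPrimePow_iff_card_primeFactors_eq_one.mpr k2
    have hcd := h'.cop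
    rcases key h hd k2.le c2 with k | k | k | k
    · right; right; right; right
      obtain ⟨d3, dodd, z | z⟩ := caseA ho hc hd1 hcd star k
      · exact fA1 d3 dodd z gp dp k3 k4
      · exact fA3 d3 dodd z gp dp k3 k4
    · rcases caseB ho' hc hd1 hcd hs star k with z | z
      · rcases Nat.lt_or_ge d 3 with d3 | d3
        · have : d = 2 := by omega
          subst this
          right; right; left
          rw [z]
          rfl
        · right; right; right; right
          exact fB2 d3 z gp dp k3 k4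
      · rcases Nat.lt_or_ge d 3 with d3 | d3
        · have : d = 2 := by omega
          subst this
          right; right; right; left
          rw [z]
          rfl
        · right; right; right; right
          exact fB6 d3 z gp dp k3 k4
    · exact (caseC hd1 hcd hs star k).elim
    · exfalso
      rw [hs] at k
      have := Nat.eq_one_of_dvd_coprimes hcd k (dvd_refl d)
      omega
  · have hd2 : d = 1 := by omega
    subst hd2
    have star' : (c : ℤ) * (a - 4) = 4 - 2 * a + a ^ 2 := by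
      push_cast at star
      linear_combination star
    rcases case1 ho hc star' with z | z
    · right; left
      rw [z]
      rfl
    · left
      rw [z]
      rfl

end Pool.Agent.H83.PT
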