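import Pool.Agent.H83.PT.Basic

/-!
Three primitive Pythagorean triangles of one area with at most six prime factors: definitions.
-/

namespace Pool.Agent.H83.PT

/-- unit triangle whose three other parts have exactly two primes each -/
def U (c d : ℕ) : Prop :=
  (d = 1 ∧ c.primeFactors.card = 2 ∧ (c + 1).primeFactors.card = 2 ∧
    (c + 2).primeFactors.card = 2) ∨
  (c = 1 ∧ d.primeFactors.card = 2 ∧ (d + 1).primeFactors.card = 2 ∧
    (2 * d + 1).primeFactors.card = 2)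

/-- `A` is a product of six prime powers, one of which is large against the others -/
def Eis6 (A : ℕ) : Prop :=
  ∃ g q1 q2 q3 q4 q5 : ℕ, IsPrimePow g ∧ IsPrimePow q1 ∧ IsPrimePow q2 ∧ IsPrimePow q3 ∧
    IsPrimePow q4 ∧ IsPrimePow q5 ∧ A = g * q1 * q2 * q3 * q4 * q5 ∧
    4 * A + g * q1 < (g * q1) ^ 3 ∧ 4 * A + g * q2 < (g * q2) ^ 3 ∧
    4 * A + g * q3 < (g * q3) ^ 3 ∧ 4 * A + g * q4 < (g * q4) ^ 3 ∧
    4 * A + g * q5 < (g * q5) ^ 3

end Pool.Agent.H83.PT
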