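import Pool.Agent.H83.PT6.Def

/-!
A unit triangle of type `U` cannot have an area of the kind `Eis6`.

PROOF. Parts of the triangle: e, e+1, e+2 (c = e odd, d = 1) or e, e+1, 2e+1 (c = 1, d = e), the
product is A, pairwise coprime. g is a prime power dividing A, so by `key` it divides one part P
(not the part 1: g > 1). P has exactly two primes, g only one, so there is a prime p | P with
p not dividing g (g.primeFactors ⊂ P.primeFactors, cards 1 and 2). p | A = g q1..q5, so p | q_i for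
some i; q_i is a prime power with prime p, q_i | A, so by `key` q_i divides a part, and that part is
P (parts are coprime and p | P). g and q_i are coprime (different primes), so g q_i | P, so
g q_i <= P. But P^3 <= 4 A + P for every part P of both shapes (P <= e+2 resp. 2e+1:
P (P^2-1) <= 4 A: for e+2: (e+1)(e+2)(e+3) <= 4 e(e+1)(e+2), e >= 1; for 2e+1:
(2e)(2e+1)(2e+2) = 4 A; e, e+1: smaller). With P >= G = g q_i >= 1:
G^3 - G <= P^3 - P <= 4 A, contradiction with 4 A + G < G^3.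
-/

namespace Pool.Agent.H83.PT

/-- a prime power `q` with prime `p`, dividing `P M` with `P`, `M` coprime and `p ∣ P`, `p ∤ g` -/
private lemma one_step {P M g q p : ℕ} (hcop : P.Coprime M) (hq : IsPrimePow q) (hqA : q ∣ P * M)
    (hp : p.Prime) (hpP : p ∣ P) (hpg : ¬ p ∣ g) (hgP : g ∣ P) (hpq : p ∣ q) : g * q ∣ P := by
  have h1 : q ∣ P := by
    rcases (hcop.isPrimePow_dvd_mul hq).mp hqA with h | h
    · exact h
    · exact absurd (Nat.eq_one_of_dvd_coprimes hcop hpP (hpq.trans h)) hp.one_lt.ne'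
  obtain ⟨r, k, hr, hk, rfl⟩ := (isPrimePow_nat_iff q).mp hq
  have hpr : p = r := (Nat.prime_dvd_prime_iff_eq hp hr).mp (hp.dvd_of_dvd_pow hpq)
  subst hpr
  have h2 : g.Coprime (p ^ k) := by
    apply Nat.Coprime.pow_right
    exact ((Nat.Prime.coprime_iff_not_dvd hp).mpr hpg).symm
  exact h2.mul_dvd_of_dvd_of_dvd hgP h1

/-- the part `P` which `g` divides is large -/
private lemma step {A P M g q1 q2 q3 q4 q5 : ℕ} (hA : A = P * M) (hcop : P.Coprime M)
    (hP : P.primeFactors.card = 2) (hg : IsPrimePow g) (hgP : g ∣ P)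
    (h1 : IsPrimePow q1) (h2 : IsPrimePow q2) (h3 : IsPrimePow q3) (h4 : IsPrimePow q4)
    (h5 : IsPrimePow q5) (hE : A = g * q1 * q2 * q3 * q4 * q5) :
    g * q1 ∣ P ∨ g * q2 ∣ P ∨ g * q3 ∣ P ∨ g * q4 ∣ P ∨ g * q5 ∣ P := by
  have hc : g.primeFactors.card = 1 := isPrimePow_iff_card_primeFactors_eq_one.mp hg
  obtain ⟨p, hp1, hp2⟩ : ∃ p ∈ P.primeFactors, p ∉ g.primeFactors := by
    by_contra hcon
    push Not at hcon
    have := Finset.card_le_card hcon
    omega
  have hp : p.Prime := Nat.prime_of_mem_primeFactors hp1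
  have hpP : p ∣ P := Nat.dvd_of_mem_primeFactors hp1
  have hpg : ¬ p ∣ g := fun h => hp2 (Nat.mem_primeFactors.mpr ⟨hp, h, hg.pos.ne'⟩)
  have hpA : p ∣ g * q1 * q2 * q3 * q4 * q5 := by
    rw [← hE, hA]
    exact hpP.mul_right M
  have e1 : q1 ∣ P * M := by rw [← hA, hE]; exact ⟨g * q2 * q3 * q4 * q5, by ring⟩
  have e2 : q2 ∣ P * M := by rw [← hA, hE]; exact ⟨g * q1 * q3 * q4 * q5, by ring⟩
  have e3 : q3 ∣ P * M := by rw [← hA, hE]; exact ⟨g * q1 * q2 * q4 * q5, by ring⟩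
  have e4 : q4 ∣ P * M := by rw [← hA, hE]; exact ⟨g * q1 * q2 * q3 * q5, by ring⟩
  have e5 : q5 ∣ P * M := by rw [← hA, hE]; exact ⟨g * q1 * q2 * q3 * q4, by ring⟩
  rcases (Nat.Prime.dvd_mul hp).mp hpA with k | k
  · rcases (Nat.Prime.dvd_mul hp).mp k with k | k
    · rcases (Nat.Prime.dvd_mul hp).mp k with k | k
      · rcases (Nat.Prime.dvd_mul hp).mp k with k | k
        · rcases (Nat.Prime.dvd_mul hp).mp k with k | k
          · exact absurd k hpg
          · exact Or.inl (one_step hcop h1 e1 hp hpP hpg hgP k)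
        · exact Or.inr (Or.inl (one_step hcop h2 e2 hp hpP hpg hgP k))
      · exact Or.inr (Or.inr (Or.inl (one_step hcop h3 e3 hp hpP hpg hgP k)))
    · exact Or.inr (Or.inr (Or.inr (Or.inl (one_step hcop h4 e4 hp hpP hpg hgP k))))
  · exact Or.inr (Or.inr (Or.inr (Or.inr (one_step hcop h5 e5 hp hpP hpg hgP k))))

/-- `G ∣ P` is too small -/
private lemma small {A P G : ℕ} (hP0 : 0 < P) (hP : P ^ 3 ≤ 4 * A + P) (hG : 4 * A + G < G ^ 3)
    (hd : G ∣ P) : False := by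
  have h1 : G ≤ P := Nat.le_of_dvd hP0 hd
  obtain ⟨u, rfl⟩ := Nat.exists_eq_add_of_le h1
  have h2 : G ^ 3 + u ≤ (G + u) ^ 3 := by
    have e : (G + u) ^ 3 = G ^ 3 + (3 * G ^ 2 * u + 3 * G * u ^ 2 + u ^ 3) := by ring
    rw [e]
    have h3 : u ≤ u ^ 3 := Nat.le_self_pow (by norm_num) u
    have h4 : 0 ≤ 3 * G ^ 2 * u + 3 * G * u ^ 2 := Nat.zero_le _
    omega
  omega

/-- the step for one part -/
private lemma part {A P M : ℕ} (hA : A = P * M) (hcop : P.Coprime M)
    (hP : P.primeFactors.card = 2) (hP3 : P ^ 3 ≤ 4 * A + P) (g q1 q2 q3 q4 q5 : ℕ)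
    (hg : IsPrimePow g) (hgP : g ∣ P)
    (h1 : IsPrimePow q1) (h2 : IsPrimePow q2) (h3 : IsPrimePow q3) (h4 : IsPrimePow q4)
    (h5 : IsPrimePow q5) (hE : A = g * q1 * q2 * q3 * q4 * q5)
    (f1 : 4 * A + g * q1 < (g * q1) ^ 3) (f2 : 4 * A + g * q2 < (g * q2) ^ 3)
    (f3 : 4 * A + g * q3 < (g * q3) ^ 3) (f4 : 4 * A + g * q4 < (g * q4) ^ 3)
    (f5 : 4 * A + g * q5 < (g * q5) ^ 3) : False := by
  have hP0 : 0 < P := by
    rcases Nat.eq_zero_or_pos P with h | h
    · rw [h] at hP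
      simp at hP
    · exact h
  rcases step hA hcop hP hg hgP h1 h2 h3 h4 h5 hE with k | k | k | k | k
  · exact small hP0 hP3 f1 k
  · exact small hP0 hP3 f2 k
  · exact small hP0 hP3 f3 k
  · exact small hP0 hP3 f4 k
  · exact small hP0 hP3 f5 k

theorem eu {c d : ℕ} (h : Tri c d) (hu : U c d) (hE : Eis6 (ar c d)) : False := by
  obtain ⟨g, q1, q2, q3, q4, q5, hg, h1, h2, h3, h4, h5, hA, f1, f2, f3, f4, f5⟩ := hE
  have hgA : g ∣ ar c d := by rw [hA]; exact ⟨q1 * q2 * q3 * q4 * q5, by ring⟩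
  have hgc : g.primeFactors.card ≤ 1 := (isPrimePow_iff_card_primeFactors_eq_one.mp hg).le
  have hg1 : 1 < g := hg.one_lt
  have hk := key h hg.pos hgc hgA
  have hc := h.ha
  have hd := h.hb
  have cc := cop_ac h
  have cd' := cop_ad h
  have bc := cop_bc h
  have bd := cop_bd h
  have cdd := cop_cd h
  rcases hu with ⟨rfl, u1, u2, u3⟩ | ⟨rfl, u1, u2, u3⟩
  · -- d = 1
    have eA : ar c 1 = c * (c + 1) * (c + 2) := by unfold ar; ring
    rcases hk with k | k | k | k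
    · refine part (P := c) (M := (c + 1) * (c + 2)) (by rw [eA]; ring) (cc.mul_right (by
        have := cd'; rwa [mul_one] at this)) u1 ?_ g q1 q2 q3 q4 q5 hg k h1 h2 h3 h4 h5 hA f1 f2 f3 f4 f5
      rw [eA]
      nlinarith [Nat.zero_le (c ^ 3), Nat.zero_le (c ^ 2)]
    · have := Nat.le_of_dvd (by norm_num) k
      omega
    · refine part (P := c + 1) (M := c * (c + 2)) (by rw [eA]; ring) (cc.symm.mul_right (by
        have := cdd; rwa [mul_one] at this)) u2 ?_ g q1 q2 q3 q4 q5 hg k h1 h2 h3 h4 h5 hA f1 f2 f3 f4 f5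
      rw [eA]
      nlinarith [Nat.zero_le (c ^ 3), Nat.zero_le (c ^ 2)]
    · rw [mul_one] at k cd' cdd
      refine part (P := c + 2) (M := c * (c + 1)) (by rw [eA]; ring) (cd'.symm.mul_right cdd.symm)
        u3 ?_ g q1 q2 q3 q4 q5 hg k h1 h2 h3 h4 h5 hA f1 f2 f3 f4 f5
      rw [eA]
      nlinarith [Nat.zero_le (c ^ 3), Nat.zero_le (c ^ 2)]
  · -- c = 1
    have eA : ar 1 d = d * (d + 1) * (2 * d + 1) := by unfold ar; ring
    have s1 : 1 + d = d + 1 := by ring
    have s2 : 1 + 2 * d = 2 * d + 1 := by ring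
    rw [s1, s2] at hk
    rw [s1] at bc
    rw [s2] at bd
    rw [s1, s2] at cdd
    rcases hk with k | k | k | k
    · have := Nat.le_of_dvd (by norm_num) k
      omega
    · refine part (P := d) (M := (d + 1) * (2 * d + 1)) (by rw [eA]; ring) (bc.mul_right bd)
        u1 ?_ g q1 q2 q3 q4 q5 hg k h1 h2 h3 h4 h5 hA f1 f2 f3 f4 f5
      rw [eA]
      nlinarith [Nat.zero_le (d ^ 3), Nat.zero_le (d ^ 2)]
    · refine part (P := d + 1) (M := d * (2 * d + 1)) (by rw [eA]; ring) (bc.symm.mul_right cdd)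
        u2 ?_ g q1 q2 q3 q4 q5 hg k h1 h2 h3 h4 h5 hA f1 f2 f3 f4 f5
      rw [eA]
      nlinarith [Nat.zero_le (d ^ 3), Nat.zero_le (d ^ 2)]
    · refine part (P := 2 * d + 1) (M := d * (d + 1)) (by rw [eA]; ring) (bd.symm.mul_right cdd.symm)
        u3 ?_ g q1 q2 q3 q4 q5 hg k h1 h2 h3 h4 h5 hA f1 f2 f3 f4 f5
      rw [eA]
      nlinarith [Nat.zero_le (d ^ 3), Nat.zero_le (d ^ 2)]

end Pool.Agent.H83.PT
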