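import Pool.Agent.H83.PT6.Def
import Pool.Agent.H83.PT.Main

/-!
Two triangles with the same last part `a + 2 b = c + 2 d` and at most six primes.

PROOF (a < c; M = a+2b = c+2d, c1 = a+b, c2 = c+d). As in `eq_case` of PT/Main.lean (copy it):
M^2 = a^2 + a c + c^2, omega(c2) >= 2 (w3 there), and: if omega(c) <= 1 then (as in eq_case) the
key lemma gives a + b = c, hence a = 3d, c = 5d, d = 1, A = 210 [or impossible]. So omega(c) >= 2
(c > 1 as a < c) unless A = 210. omega(M) >= 1. Sum omega <= 6.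
So omega(d) <= 1. If d = 1: A = 210 (end of eq_case). Otherwise omega(d) = 1, and then
omega(M) = 1, omega(c) = 2, omega(c2) = 2. This proves omega(M) = 1 or A = 210.
d =: q is a prime power dividing ar a b, so (key) q | a, q | b, q | a+b or q | M. Last: q coprime to
M (cop_bd). Write s = M = c + 2q, so c = s - 2q, gcd(s,q) = 1, s odd.
 * q | a: a = k q: s^2-c^2 = a(a+c): 2q(2c+2q) = kq(kq+c) => (4-k) c = (k^2-4) q: k = 3, c = 5q,
   q = 1: contradiction (q prime power); k <= 2: left >= 2c > 0 >= right; k >= 4: left <= 0 < right.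
 * q | b: b = k q: s^2 - 3(k+1) s q + 2(k^2+k+1) q^2 = 0 (from M^2=a^2+ac+c^2, a = s-2kq, c = s-2q)
   so q | s^2, q = 1: contradiction.
 * q | a+b: a+b = k q, a = 2kq - s: (k+1) s = 2(k^2-k+1) q. gcd(s,q)=1: q | k+1, k+1 = q t,
   s t = 2(k^2-k+1); t | 2(k^2-k+1) and t | k+1 and k^2-k+1 = (k+1)(k-2)+3: t | 6; s odd and
   2(k^2-k+1) = 2 mod 4: t even: t = 2 or 6.
   t = 2: k odd, q = (k+1)/2, s = k^2-k+1, c = s-2q = k(k-2), a = 2k-1, b = (k-1)(k-2)/2,
     c2 = c+q = (k-1)(2k-1)/2. Write k = 2 j + 1: q = j+1, s = 4j^2+2j+1, c = (2j+1)(2j-1),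
     a = 4j+1, b = j(2j-1), a+b = (2j+1)(j+1), c2 = j(4j+1). A = s (2j+1)(2j-1)(j+1) j (4j+1).
     omega(c)=2, c = (2j+1)(2j-1) coprime, both > 1 (j > 1; j = 1: c = 3 omega 1; j = 0 no): both
     prime powers; omega(c2) = 2: j, 4j+1 prime powers (j > 1). q = j+1, s prime powers.
     Eis6 with g = s, q's = 2j+1, 2j-1, j+1, j, 4j+1; the inequalities 4A + g q_i < (g q_i)^3 hold
     for j >= 2 (smallest q_i is j).
   t = 6: k = 6q-1, s = 12q^2-6q+1, c = s-2q = (6q-1)(2q-1), a = 4q-1, b = (3q-1)(2q-1),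
     a+b = q(6q-1), c2 = (4q-1)(3q-1). q >= 2. Eis6 with g = s, q, 2q-1, 3q-1, 4q-1, 6q-1:
     A = s (6q-1)(2q-1) q (4q-1)(3q-1); inequalities hold for q >= 2.
-/

namespace Pool.Agent.H83.PT

/-- the inequality of `Eis6` is monotone in the second factor -/
private lemma mono_q {A g q q' : ℕ} (hq : q ≤ q') (h : 4 * A + g * q < (g * q) ^ 3) :
    4 * A + g * q' < (g * q') ^ 3 := by
  have hle : g * q ≤ g * q' := Nat.mul_le_mul_left g hq
  generalize g * q = x at *
  generalize g * q' = y at *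
  obtain ⟨z, rfl⟩ := Nat.exists_eq_add_of_le hle
  have hx : 1 ≤ x := by
    rcases Nat.eq_zero_or_pos x with h0 | h0
    · subst h0
      simp at h
    · exact h0
  have h1 : z ≤ x ^ 2 * z := Nat.le_mul_of_pos_left z (by positivity)
  have h2 : (x + z) ^ 3 = x ^ 3 + x ^ 2 * z + (2 * x ^ 2 * z + 3 * x * z ^ 2 + z ^ 3) := by ring
  rw [h2]
  have h3 : 0 ≤ 2 * x ^ 2 * z + 3 * x * z ^ 2 + z ^ 3 := Nat.zero_le _
  omega

/-- two coprime factors of a number with two primes are prime powers -/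
private lemma two_pp {x y : ℕ} (hx : 1 < x) (hy : 1 < y) (hc : x.Coprime y)
    (h : (x * y).primeFactors.card = 2) : IsPrimePow x ∧ IsPrimePow y := by
  rw [hc.primeFactors_mul, Finset.card_union_of_disjoint hc.disjoint_primeFactors] at h
  have h1 := card_pos hx
  have h2 := card_pos hy
  exact ⟨isPrimePow_iff_card_primeFactors_eq_one.mpr (by omega),
    isPrimePow_iff_card_primeFactors_eq_one.mpr (by omega)⟩

/-- the family `t = 2` -/
private lemma fam2 {i c d : ℕ} (hd : d = i + 2) (hc : c = (2 * i + 1) * (2 * i + 3))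
    (wd : d.primeFactors.card = 1) (ws : (c + 2 * d).primeFactors.card = 1)
    (wc : c.primeFactors.card = 2) (wcd : (c + d).primeFactors.card = 2) : Eis6 (ar c d) := by
  have hs : c + 2 * d = 4 * i ^ 2 + 10 * i + 7 := by rw [hc, hd]; ring
  have hcd : c + d = (i + 1) * (4 * i + 5) := by rw [hc, hd]; ring
  rcases Nat.eq_zero_or_pos i with h0 | h0
  · exfalso
    subst h0
    have : c = 3 := by omega
    rw [this, Nat.prime_three.primeFactors] at wc
    simp at wc
  obtain ⟨m, rfl⟩ : ∃ m, i = m + 1 := ⟨i - 1, by omega⟩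
  have cop1 : (2 * (m + 1) + 1).Coprime (2 * (m + 1) + 3) := by
    have h1 : 2 * (m + 1) + 3 = (2 * (m + 1) + 1) + 2 := by ring
    rw [h1, Nat.coprime_self_add_right, Nat.coprime_two_right, Nat.odd_iff]
    omega
  have cop2 : (m + 1 + 1).Coprime (4 * (m + 1) + 5) := by
    have h1 : 4 * (m + 1) + 5 = 1 + 4 * (m + 1 + 1) := by ring
    rw [h1, Nat.coprime_add_mul_right_right]
    exact Nat.coprime_one_right _
  have e1 := two_pp (by omega) (by omega) cop1 (by rw [← hc]; exact wc)
  have e2 := two_pp (by omega) (by omega) cop2 (by rw [← hcd]; exact wcd)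
  have es : IsPrimePow (4 * (m + 1) ^ 2 + 10 * (m + 1) + 7) :=
    isPrimePow_iff_card_primeFactors_eq_one.mpr (by rw [← hs]; exact ws)
  have ed : IsPrimePow (m + 1 + 2) :=
    isPrimePow_iff_card_primeFactors_eq_one.mpr (by rw [← hd]; exact wd)
  have hA : ar c d = (4 * (m + 1) ^ 2 + 10 * (m + 1) + 7) * (m + 1 + 1) * (2 * (m + 1) + 1)
      * (2 * (m + 1) + 3) * (m + 1 + 2) * (4 * (m + 1) + 5) := by
    unfold ar
    rw [hs, hcd, hd, hc]
    ring
  have base : 4 * ar c d + (4 * (m + 1) ^ 2 + 10 * (m + 1) + 7) * (m + 1 + 1) <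
      ((4 * (m + 1) ^ 2 + 10 * (m + 1) + 7) * (m + 1 + 1)) ^ 3 := by
    have hpos : 0 < (4 * (m + 1) ^ 2 + 10 * (m + 1) + 7) * (m + 1 + 1) := by positivity
    have key1 : 4 * ((2 * (m + 1) + 1) * (2 * (m + 1) + 3) * (m + 1 + 2) * (4 * (m + 1) + 5)) + 1 <
        ((4 * (m + 1) ^ 2 + 10 * (m + 1) + 7) * (m + 1 + 1)) ^ 2 := by
      zify
      rw [← sub_pos]
      have : (((4 * ((m : ℤ) + 1) ^ 2 + 10 * (m + 1) + 7) * (m + 1 + 1)) ^ 2 -
          (4 * ((2 * (m + 1) + 1) * (2 * (m + 1) + 3) * (m + 1 + 2) * (4 * (m + 1) + 5)) + 1)) =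
          16 * m ^ 6 + 208 * m ^ 5 + 1068 * m ^ 4 + 2708 * m ^ 3 + 3417 * m ^ 2 + 1800 * m + 143 := by
        ring
      rw [this]
      positivity
    calc 4 * ar c d + (4 * (m + 1) ^ 2 + 10 * (m + 1) + 7) * (m + 1 + 1)
        = ((4 * (m + 1) ^ 2 + 10 * (m + 1) + 7) * (m + 1 + 1)) *
          (4 * ((2 * (m + 1) + 1) * (2 * (m + 1) + 3) * (m + 1 + 2) * (4 * (m + 1) + 5)) + 1) := by
          rw [hA]; ring
      _ < ((4 * (m + 1) ^ 2 + 10 * (m + 1) + 7) * (m + 1 + 1)) *
          ((4 * (m + 1) ^ 2 + 10 * (m + 1) + 7) * (m + 1 + 1)) ^ 2 :=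
          Nat.mul_lt_mul_of_pos_left key1 hpos
      _ = ((4 * (m + 1) ^ 2 + 10 * (m + 1) + 7) * (m + 1 + 1)) ^ 3 := by ring
  exact ⟨4 * (m + 1) ^ 2 + 10 * (m + 1) + 7, m + 1 + 1, 2 * (m + 1) + 1, 2 * (m + 1) + 3,
    m + 1 + 2, 4 * (m + 1) + 5, es, e2.1, e1.1, e1.2, ed, e2.2, hA, base,
    mono_q (by omega) base, mono_q (by omega) base, mono_q (by omega) base,
    mono_q (by omega) base⟩

/-- the family `t = 6` -/
private lemma fam6 {i c d : ℕ} (hd : d = i + 2) (hc : c = (6 * i + 11) * (2 * i + 3))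
    (wd : d.primeFactors.card = 1) (ws : (c + 2 * d).primeFactors.card = 1)
    (wc : c.primeFactors.card = 2) (wcd : (c + d).primeFactors.card = 2) : Eis6 (ar c d) := by
  have hs : c + 2 * d = 12 * i ^ 2 + 42 * i + 37 := by rw [hc, hd]; ring
  have hcd : c + d = (4 * i + 7) * (3 * i + 5) := by rw [hc, hd]; ring
  have cop1 : (6 * i + 11).Coprime (2 * i + 3) := by
    have h1 : 6 * i + 11 = 2 + 3 * (2 * i + 3) := by ring
    rw [h1, Nat.coprime_add_mul_right_left, Nat.coprime_comm, Nat.coprime_two_right, Nat.odd_iff]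
    omega
  have cop2 : (4 * i + 7).Coprime (3 * i + 5) := by
    have h1 : 4 * i + 7 = (i + 2) + (3 * i + 5) := by ring
    rw [h1, Nat.coprime_add_self_left]
    have h2 : (i + 2).Coprime (3 * (i + 2) - 1) := by
      have h3 : (3 * (i + 2) - 1) = (3 * i + 5) := by omega
      rw [h3]
      have h4 : 3 * (i + 2) = (3 * i + 5) + 1 := by ring
      rw [Nat.coprime_comm]
      have h5 : (3 * i + 5).Coprime (3 * (i + 2)) := by
        rw [h4, Nat.coprime_self_add_right]
        exact Nat.coprime_one_right _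
      exact Nat.Coprime.coprime_mul_left_right h5
    have h3 : (3 * (i + 2) - 1) = (3 * i + 5) := by omega
    rw [h3] at h2
    exact h2
  have e1 := two_pp (by omega) (by omega) cop1 (by rw [← hc]; exact wc)
  have e2 := two_pp (by omega) (by omega) cop2 (by rw [← hcd]; exact wcd)
  have es : IsPrimePow (12 * i ^ 2 + 42 * i + 37) :=
    isPrimePow_iff_card_primeFactors_eq_one.mpr (by rw [← hs]; exact ws)
  have ed : IsPrimePow (i + 2) :=
    isPrimePow_iff_card_primeFactors_eq_one.mpr (by rw [← hd]; exact wd)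
  have hA : ar c d = (12 * i ^ 2 + 42 * i + 37) * (i + 2) * (2 * i + 3) * (3 * i + 5)
      * (4 * i + 7) * (6 * i + 11) := by
    unfold ar
    rw [hs, hcd, hd, hc]
    ring
  have base : 4 * ar c d + (12 * i ^ 2 + 42 * i + 37) * (i + 2) <
      ((12 * i ^ 2 + 42 * i + 37) * (i + 2)) ^ 3 := by
    have hpos : 0 < (12 * i ^ 2 + 42 * i + 37) * (i + 2) := by positivity
    have key1 : 4 * ((2 * i + 3) * (3 * i + 5) * (4 * i + 7) * (6 * i + 11)) + 1 <
        ((12 * i ^ 2 + 42 * i + 37) * (i + 2)) ^ 2 := by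
      zify
      rw [← sub_pos]
      have : (((12 * (i : ℤ) ^ 2 + 42 * i + 37) * (i + 2)) ^ 2 -
          (4 * ((2 * i + 3) * (3 * i + 5) * (4 * i + 7) * (6 * i + 11)) + 1)) =
          144 * i ^ 6 + 1584 * i ^ 5 + 6684 * i ^ 4 + 13860 * i ^ 3 + 14585 * i ^ 2 + 6896 * i + 855 := by
        ring
      rw [this]
      positivity
    calc 4 * ar c d + (12 * i ^ 2 + 42 * i + 37) * (i + 2)
        = ((12 * i ^ 2 + 42 * i + 37) * (i + 2)) *
          (4 * ((2 * i + 3) * (3 * i + 5) * (4 * i + 7) * (6 * i + 11)) + 1) := by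
          rw [hA]; ring
      _ < ((12 * i ^ 2 + 42 * i + 37) * (i + 2)) * ((12 * i ^ 2 + 42 * i + 37) * (i + 2)) ^ 2 :=
          Nat.mul_lt_mul_of_pos_left key1 hpos
      _ = ((12 * i ^ 2 + 42 * i + 37) * (i + 2)) ^ 3 := by ring
  exact ⟨12 * i ^ 2 + 42 * i + 37, i + 2, 2 * i + 3, 3 * i + 5, 4 * i + 7, 6 * i + 11,
    es, ed, e1.2, e2.2, e2.1, e1.1, hA, base,
    mono_q (by omega) base, mono_q (by omega) base, mono_q (by omega) base,
    mono_q (by omega) base⟩

/-- `d ∣ a` is impossible -/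
private lemma case1 {c d k : ℤ} (hdp : 0 < d) (hcp : 0 < c) (hk : 0 < k)
    (h1 : (c + 2 * d) ^ 2 = (d * k) ^ 2 + (d * k) * c + c ^ 2) : c = 5 * d := by
  have e : d * ((4 - k) * c - (k ^ 2 - 4) * d) = 0 := by linear_combination h1
  have e2 : (4 - k) * c - (k ^ 2 - 4) * d = 0 := by
    rcases mul_eq_zero.mp e with z | z
    · exact absurd z hdp.ne'
    · exact z
  clear h1 e
  rcases lt_or_ge k 4 with k4 | k4
  · have : k = 1 ∨ k = 2 ∨ k = 3 := by omega
    rcases this with rfl | rfl | rfl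
    · norm_num at e2
      linarith
    · norm_num at e2
      omega
    · norm_num at e2
      linarith
  · exfalso
    have h1 : 0 ≤ (k - 4) * c := mul_nonneg (by linarith) hcp.le
    have h2 : 0 < (k ^ 2 - 4) * d := by
      apply mul_pos _ hdp
      nlinarith
    linarith

/-- `d ∣ b` is impossible -/
private lemma case2 {s d k : ℤ}
    (h1 : s ^ 2 = (s - 2 * (d * k)) ^ 2 + (s - 2 * (d * k)) * (s - 2 * d) + (s - 2 * d) ^ 2) :
    d ∣ s ^ 2 := by
  have e : 2 * s ^ 2 = 2 * (d * (3 * (k + 1) * s - 2 * (k ^ 2 + k + 1) * d)) := by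
    linear_combination -h1
  have e' := mul_left_cancel₀ two_ne_zero e
  exact Dvd.intro _ e'.symm

/-- `d ∣ a + b` -/
private lemma case3 {s d k : ℤ} (hd : d ≠ 0)
    (h1 : s ^ 2 = (2 * (d * k) - s) ^ 2 + (2 * (d * k) - s) * (s - 2 * d) + (s - 2 * d) ^ 2) :
    (k + 1) * s = 2 * (k ^ 2 - k + 1) * d := by
  have e : 2 * d * ((k + 1) * s) = 2 * d * (2 * (k ^ 2 - k + 1) * d) := by
    linear_combination h1
  exact mul_left_cancel₀ (mul_ne_zero two_ne_zero hd) e

private lemma case3b {s d k t : ℤ} (hd : d ≠ 0) (ht : k + 1 = d * t)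
    (e2 : (k + 1) * s = 2 * (k ^ 2 - k + 1) * d) : t * s = 2 * (k ^ 2 - k + 1) := by
  rw [ht] at e2
  have : d * (t * s) = d * (2 * (k ^ 2 - k + 1)) := by linear_combination e2
  exact mul_left_cancel₀ hd this

private lemma case3c {s d k t : ℤ} (ht : k + 1 = d * t)
    (e3 : t * s = 2 * (k ^ 2 - k + 1)) : t ∣ 6 := by
  refine Dvd.intro (s - 2 * d * (k - 2)) ?_
  have : t * (s - 2 * d * (k - 2)) = t * s - 2 * (d * t) * (k - 2) := by ring
  rw [this, e3, ← ht]
  ring

private lemma case3t {t : ℕ} (h : t ∣ 6) (h2 : t % 2 = 0) : t = 2 ∨ t = 6 := by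
  have h1 : t ≤ 6 := Nat.le_of_dvd (by norm_num) h
  have : t = 0 ∨ t = 2 ∨ t = 4 ∨ t = 6 := by omega
  rcases this with rfl | rfl | rfl | rfl
  · norm_num at h
  · exact Or.inl rfl
  · norm_num at h
  · exact Or.inr rfl

private lemma even_t {t s : ℕ} {z : ℤ} (hs : s % 2 = 1) (h : (t : ℤ) * s = 2 * z) :
    t % 2 = 0 := by
  by_contra hcon
  have h1 : t % 2 = 1 := by omega
  have h2 : (t * s) % 2 = 1 := by rw [Nat.mul_mod, h1, hs]
  have h3 : ((t * s : ℕ) : ℤ) = 2 * z := by push_cast; exact h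
  omega

private lemma par2 {s c d k i : ℤ} (hi : d = i + 2) (ht : k + 1 = d * 2)
    (e3 : 2 * s = 2 * (k ^ 2 - k + 1)) (hc : c = s - 2 * d) :
    c = (2 * i + 1) * (2 * i + 3) := by
  have hk : k = 2 * i + 3 := by rw [hi] at ht; linarith
  have hs : s = k ^ 2 - k + 1 := mul_left_cancel₀ two_ne_zero e3
  rw [hc, hs, hk, hi]
  ring

private lemma par6 {s c d k i : ℤ} (hi : d = i + 2) (ht : k + 1 = d * 6)
    (e3 : 6 * s = 2 * (k ^ 2 - k + 1)) (hc : c = s - 2 * d) :
    c = (6 * i + 11) * (2 * i + 3) := by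
  have hk : k = 6 * i + 11 := by rw [hi] at ht; linarith
  have hs : s = 12 * i ^ 2 + 42 * i + 37 := by
    have : 6 * s = 6 * (12 * i ^ 2 + 42 * i + 37) := by rw [e3, hk]; ring
    exact mul_left_cancel₀ (by norm_num) this
  rw [hc, hs, hi]
  ring

/-- the quadratic relation of two triangles with the same last part -/
private lemma quad {a b c d : ℕ} (h : Tri a b) (he : ar a b = ar c d)
    (hs : a + 2 * b = c + 2 * d) (hlt : a < c) :
    ((a + 2 * b : ℕ) : ℤ) ^ 2 = a ^ 2 + a * c + c ^ 2 := by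
  have ha := h.ha
  have hb := h.hb
  obtain ⟨s, hss⟩ : ∃ s, s = a + 2 * b := ⟨_, rfl⟩
  rw [← hss]
  have hz : ((a : ℤ) - c) * ((s : ℤ) ^ 2 - a ^ 2 - a * c - c ^ 2) = 0 := by
    have hb2 : 2 * (b : ℤ) = s - a := by push_cast [hss]; ring
    have hd2 : 2 * (d : ℤ) = s - c := by
      have : s = c + 2 * d := by rw [hss, hs]
      push_cast [this]; ring
    have e1 : (a * b * (a + b) : ℕ) = c * d * (c + d) := by
      have hp : 0 < a + 2 * b := by omega
      apply Nat.eq_of_mul_eq_mul_left hp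
      calc (a + 2 * b) * (a * b * (a + b)) = ar a b := by unfold ar; ring
        _ = ar c d := he
        _ = (c + 2 * d) * (c * d * (c + d)) := by unfold ar; ring
        _ = (a + 2 * b) * (c * d * (c + d)) := by rw [hs]
    have e2 : (a : ℤ) * b * (a + b) = c * d * (c + d) := by exact_mod_cast e1
    have e3 : (a : ℤ) * (2 * b) * (2 * a + 2 * b) = c * (2 * d) * (2 * c + 2 * d) := by
      linear_combination 4 * e2
    rw [hb2, hd2] at e3
    linear_combination e3
  rcases mul_eq_zero.mp hz with k | k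
  · exfalso
    have : (a : ℤ) = c := by linarith
    have : a = c := by exact_mod_cast this
    omega
  · linarith

/-- the case `d = 1` -/
private lemma unit {a c : ℕ} (ho : a % 2 = 1)
    (hq : (c + 2) ^ 2 = a ^ 2 + a * c + c ^ 2) : ar c 1 = 210 := by
  have ha4 : a < 4 := by
    by_contra hcon
    have : 4 ≤ a := by omega
    have h1 : 4 * c ≤ a * c := Nat.mul_le_mul_right c this
    have h2 : 4 * 4 ≤ a * a := Nat.mul_le_mul this this
    nlinarith
  have ha3 : a = 1 ∨ a = 3 := by omega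
  rcases ha3 with rfl | rfl
  · nlinarith
  · have : c = 5 := by nlinarith
    subst this
    rfl

private lemma fin {a b c d s : ℕ} (h : Tri a b) (h' : Tri c d) (he : ar a b = ar c d)
    (hss : s = a + 2 * b) (hss' : s = c + 2 * d)
    (hqz : (s : ℤ) ^ 2 = a ^ 2 + a * c + c ^ 2) (hd1 : 1 < d)
    (wd : d.primeFactors.card = 1) (ws : (c + 2 * d).primeFactors.card = 1)
    (wc : c.primeFactors.card = 2) (wcd : (c + d).primeFactors.card = 2) :
    Eis6 (ar c d) := by
  have ha := h.ha
  have hc := h'.ha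
  have hd := h'.hb
  have ho' := h'.odd
  have c2 : d ∣ ar a b := by
    rw [he]; unfold ar
    exact Dvd.intro (c * (c + d) * (c + 2 * d)) (by ring)
  have hsz : (s : ℤ) = c + 2 * d := by exact_mod_cast hss'
  have hbz : (s : ℤ) = a + 2 * b := by exact_mod_cast hss
  have hcz : (c : ℤ) = s - 2 * d := by linarith
  have hdz : (d : ℤ) ≠ 0 := by exact_mod_cast hd.ne'
  have cds : d.Coprime s := by
    rw [hss']
    exact cop_bd h'
  rcases key h hd (by omega) c2 with k | k | k | k
  · -- d ∣ a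
    exfalso
    obtain ⟨k, hk⟩ := k
    have hkz : (a : ℤ) = d * k := by exact_mod_cast hk
    have hk0 : 0 < k := by
      rcases Nat.eq_zero_or_pos k with h0 | h0
      · subst h0
        simp at hk
        omega
      · exact h0
    rw [hsz, hkz] at hqz
    have h3 := case1 (by exact_mod_cast hd) (by exact_mod_cast hc) (by exact_mod_cast hk0) hqz
    have h3n : c = 5 * d := by exact_mod_cast h3
    have h4 : d ∣ c := Dvd.intro_left 5 h3n.symm
    have := Nat.eq_one_of_dvd_coprimes h'.cop h4 (dvd_refl d)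
    omega
  · -- d ∣ b
    exfalso
    obtain ⟨k, hk⟩ := k
    have hkz : (b : ℤ) = d * k := by exact_mod_cast hk
    have haz : (a : ℤ) = s - 2 * (d * k) := by rw [← hkz]; linarith
    rw [haz, hcz] at hqz
    have h1 := case2 hqz
    have h2 : d ∣ s ^ 2 := by exact_mod_cast h1
    have h3 : d.Coprime (s ^ 2) := cds.pow_right 2
    have := Nat.eq_one_of_dvd_coprimes h3 (dvd_refl d) h2
    omega
  · -- d ∣ a + b
    obtain ⟨k, hk⟩ := k
    have hkz : (a : ℤ) + b = d * k := by exact_mod_cast hk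
    have haz : (a : ℤ) = 2 * (d * k) - s := by rw [← hkz]; linarith
    rw [haz, hcz] at hqz
    have e2 := case3 hdz hqz
    have h1 : (d : ℤ) ∣ ((k : ℤ) + 1) * s := Dvd.intro_left _ e2.symm
    have h2 : d ∣ (k + 1) * s := by exact_mod_cast h1
    have h3 : d ∣ k + 1 := cds.dvd_of_dvd_mul_right h2
    obtain ⟨t, ht⟩ := h3
    have htz : (k : ℤ) + 1 = d * t := by exact_mod_cast ht
    have e3 := case3b hdz htz e2
    have h6n : t ∣ 6 := by exact_mod_cast case3c htz e3
    have hsodd : s % 2 = 1 := by omega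
    obtain ⟨i, hi⟩ : ∃ i, d = i + 2 := ⟨d - 2, by omega⟩
    have hiz : (d : ℤ) = i + 2 := by exact_mod_cast hi
    rcases case3t h6n (even_t hsodd e3) with rfl | rfl
    · have hc2 : c = (2 * i + 1) * (2 * i + 3) := by
        exact_mod_cast par2 (k := k) hiz (by push_cast at htz; exact htz) (by push_cast at e3; exact e3) hcz
      exact fam2 hi hc2 wd ws wc wcd
    · have hc2 : c = (6 * i + 11) * (2 * i + 3) := by
        exact_mod_cast par6 (k := k) hiz (by push_cast at htz; exact htz) (by push_cast at e3; exact e3) hcz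
      exact fam6 hi hc2 wd ws wc wcd
  · -- d ∣ a + 2 b
    exfalso
    have := Nat.eq_one_of_dvd_coprimes cds (dvd_refl d) (by rw [hss]; exact k)
    omega

theorem eqM {a b c d : ℕ} (h : Tri a b) (h' : Tri c d) (he : ar a b = ar c d)
    (hs : a + 2 * b = c + 2 * d) (hlt : a < c) (h6 : (ar c d).primeFactors.card ≤ 6) :
    ar c d = 210 ∨ ((c + 2 * d).primeFactors.card = 1 ∧ Eis6 (ar c d)) := by
  have hb := h.hb
  have ha := h.ha
  have hc := h'.ha
  have hd := h'.hb
  have ho := h.odd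
  have ho' := h'.odd
  have hqz := quad h he hs hlt
  obtain ⟨s, hss⟩ : ∃ s, s = a + 2 * b := ⟨_, rfl⟩
  rw [← hss] at hqz
  have hq : s ^ 2 = a ^ 2 + a * c + c ^ 2 := by exact_mod_cast hqz
  have hslt : s < a + c := by
    by_contra hcon
    have : (a + c) * (a + c) ≤ s * s := Nat.mul_le_mul (by omega) (by omega)
    nlinarith
  rcases Nat.lt_or_ge 1 d with hd1 | hd1
  · right
    have hsum := card_ar h'
    have c1 : c ∣ ar a b := by
      rw [he]; unfold ar
      exact Dvd.intro (d * (c + d) * (c + 2 * d)) (by ring)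
    have c3 : (c + d) ∣ ar a b := by
      rw [he]; unfold ar
      exact Dvd.intro (c * d * (c + 2 * d)) (by ring)
    have w3 : 2 ≤ (c + d).primeFactors.card := by
      by_contra hw
      rcases key h (by omega) (by omega) c3 with k | k | k | k
      · have := Nat.le_of_dvd ha k
        omega
      · have := Nat.le_of_dvd hb k
        omega
      · have := Nat.le_of_dvd (by omega) k
        omega
      · have h1 := eq_of_dvd (by omega) (by omega) k
        omega
    have w4 : 1 ≤ (c + 2 * d).primeFactors.card := card_pos (by omega)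
    have w2 : 1 ≤ d.primeFactors.card := card_pos hd1
    have w1 : 2 ≤ c.primeFactors.card := by
      by_contra hw
      rcases key h hc (by omega) c1 with k | k | k | k
      · have := Nat.le_of_dvd ha k
        omega
      · have := Nat.le_of_dvd hb k
        omega
      · have h1 := eq_of_dvd (by omega) (by omega) k
        -- a + b = c, s = 2 c - a
        have h2 : a = 3 * d := by
          have h3 : s + a = 2 * c := by omega
          have hz1 : (s : ℤ) = 2 * c - a := by
            have : (s : ℤ) + a = 2 * c := by exact_mod_cast h3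
            linarith
          have hq2 := hqz
          rw [hz1] at hq2
          have h4 : (c : ℤ) * (3 * c - 5 * a) = 0 := by linear_combination hq2
          have hc0 : (c : ℤ) ≠ 0 := by exact_mod_cast hc.ne'
          have h5 : (3 : ℤ) * c - 5 * a = 0 := by
            rcases mul_eq_zero.mp h4 with z | z
            · exact absurd z hc0
            · exact z
          omega
        have h3 : c = 5 * d := by omega
        have h4 : d ∣ c := Dvd.intro_left 5 h3.symm
        have := Nat.eq_one_of_dvd_coprimes h'.cop h4 (dvd_refl d)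
        omega
      · rw [hs] at k
        have k2 : c ∣ 2 * d := (Nat.dvd_add_right (dvd_refl c)).mp k
        have k3 : c.Coprime (2 * d) := by
          have h2 : c.Coprime 2 := by
            rw [Nat.coprime_two_right, Nat.odd_iff]
            exact ho'
          exact h2.mul_right h'.cop
        have := Nat.eq_one_of_dvd_coprimes k3 (dvd_refl c) k2
        omega
    have ws : (c + 2 * d).primeFactors.card = 1 := by omega
    exact ⟨ws, fin h h' he hss (by rw [hss, hs]) hqz hd1 (by omega) ws (by omega) (by omega)⟩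
  · left
    have hd2 : d = 1 := by omega
    subst hd2
    have hs2 : s = c + 2 := by omega
    rw [hs2] at hq
    exact unit ho hq

end Pool.Agent.H83.PT
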