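import Pool.Agent.H83.PT6.Quad
import Pool.Agent.H83.PT.Main

/-!
The families of the classification of pairs, for natural numbers (generated).
-/

set_option linter.unusedVariables false

namespace Pool.Agent.H83.PT

lemma ar16 {a b c d : ℕ} {A B C D : ℤ} (he : ar a b = ar c d) (hA : 2 * (a : ℤ) = A)
    (hB : 2 * (b : ℤ) = B) (hC : 2 * (c : ℤ) = C) (hD : 2 * (d : ℤ) = D) :
    A * B * (A + B) * (A + 2 * B) = C * D * (C + D) * (C + 2 * D) := by
  subst hA hB hC hD
  have h : ((ar a b : ℕ) : ℤ) = ((ar c d : ℕ) : ℤ) := by exact_mod_cast he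
  unfold ar at h
  push_cast at h
  linear_combination 16 * h

lemma rel_cop {X Y p q : ℕ} (hc : X.Coprime Y) (hpq : p.Coprime q) (h : p * X = q * Y) :
    X = q ∧ Y = p := by
  have h1 : X ∣ q := hc.dvd_of_dvd_mul_right (by rw [← h]; exact Dvd.intro_left p rfl)
  have h2 : q ∣ X := hpq.symm.dvd_of_dvd_mul_left (by rw [h]; exact Dvd.intro Y rfl)
  have h3 : X = q := Nat.dvd_antisymm h1 h2
  have h4 : Y ∣ p := hc.symm.dvd_of_dvd_mul_right (by rw [h]; exact Dvd.intro_left q rfl)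
  have h5 : p ∣ Y := hpq.dvd_of_dvd_mul_left (by rw [← h]; exact Dvd.intro X rfl)
  exact ⟨h3, Nat.dvd_antisymm h4 h5⟩

lemma n_XCab {a b c d k : ℕ} (h : Tri a b) (h' : Tri c d) (he : ar a b = ar c d)
    (hlt : a + 2 * b < c + 2 * d) (ht : a = c + d) (hk : b = c * k) (hY2 : 2 ≤ c) :
    False := by
  have a0 : (0 : ℤ) < a := by exact_mod_cast h.ha
  have b0 : (0 : ℤ) < b := by exact_mod_cast h.hb
  have c0 : (0 : ℤ) < c := by exact_mod_cast h'.ha
  have d0 : (0 : ℤ) < d := by exact_mod_cast h'.hb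
  have hao := h.odd
  have hco := h'.odd
  obtain ⟨X, hX⟩ : ∃ X : ℤ, X = ((c + d : ℕ) : ℤ) := ⟨_, rfl⟩
  obtain ⟨Y, hY⟩ : ∃ Y : ℤ, Y = ((c : ℕ) : ℤ) := ⟨_, rfl⟩
  have hX' := hX
  have hY' := hY
  push_cast at hX' hY'
  have hk' : ((b : ℕ) : ℤ) = k * Y := by rw [hk, hY]; push_cast; ring
  have ht' : ((a : ℕ) : ℤ) = ((c + d : ℕ) : ℤ) := by rw [ht]
  have hlt' : (a : ℤ) + 2 * b < c + 2 * d := by exact_mod_cast hlt
  push_cast at hk' ht'
  have hk1 : (1 : ℤ) ≤ k := by
    have : 0 < k := by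
      rcases Nat.eq_zero_or_pos k with h0 | h0
      · exfalso
        rw [h0] at hk
        have := h.ha
        have := h.hb
        omega
      · exact h0
    exact_mod_cast this
  have hX0 : 0 < X := by linarith
  have hY0 : 0 < Y := by linarith
  have hA : 2 * (a : ℤ) = 2 * X := by linarith
  have hB : 2 * (b : ℤ) = 2 * (k * Y) := by linarith
  have hC : 2 * (c : ℤ) = 2 * Y := by linarith
  have hD : 2 * (d : ℤ) = 2 * X - 2 * Y := by linarith
  have e := ar16 he hA hB hC hD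
  have e2 : (k - 2) * X ^ 2 + (3 * k ^ 2 + 3) * (X * Y) + (2 * k ^ 3 - 1) * Y ^ 2 = 0 := by
    have hXY : 16 * X * Y ≠ 0 := by positivity
    apply mul_left_cancel₀ hXY
    linear_combination e
  exact q_XCab hk1 hX0 hY0 (by linarith) (by linarith) (by linarith)
    (by linarith) (by linarith) e2

lemma n_XCac {a b c d k : ℕ} (h : Tri a b) (h' : Tri c d) (he : ar a b = ar c d)
    (hlt : a + 2 * b < c + 2 * d) (ht : a = c + d) (hk : a + b = c * k) (hY2 : 2 ≤ c) :
    False := by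
  have a0 : (0 : ℤ) < a := by exact_mod_cast h.ha
  have b0 : (0 : ℤ) < b := by exact_mod_cast h.hb
  have c0 : (0 : ℤ) < c := by exact_mod_cast h'.ha
  have d0 : (0 : ℤ) < d := by exact_mod_cast h'.hb
  have hao := h.odd
  have hco := h'.odd
  obtain ⟨X, hX⟩ : ∃ X : ℤ, X = ((c + d : ℕ) : ℤ) := ⟨_, rfl⟩
  obtain ⟨Y, hY⟩ : ∃ Y : ℤ, Y = ((c : ℕ) : ℤ) := ⟨_, rfl⟩
  have hX' := hX
  have hY' := hY
  push_cast at hX' hY'
  have hk' : ((a + b : ℕ) : ℤ) = k * Y := by rw [hk, hY]; push_cast; ring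
  have ht' : ((a : ℕ) : ℤ) = ((c + d : ℕ) : ℤ) := by rw [ht]
  have hlt' : (a : ℤ) + 2 * b < c + 2 * d := by exact_mod_cast hlt
  push_cast at hk' ht'
  have hk1 : (1 : ℤ) ≤ k := by
    have : 0 < k := by
      rcases Nat.eq_zero_or_pos k with h0 | h0
      · exfalso
        rw [h0] at hk
        have := h.ha
        have := h.hb
        omega
      · exact h0
    exact_mod_cast this
  have hX0 : 0 < X := by linarith
  have hY0 : 0 < Y := by linarith
  have hA : 2 * (a : ℤ) = 2 * X := by linarith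
  have hB : 2 * (b : ℤ) = -2 * X + 2 * (k * Y) := by linarith
  have hC : 2 * (c : ℤ) = 2 * Y := by linarith
  have hD : 2 * (d : ℤ) = 2 * X - 2 * Y := by linarith
  have e := ar16 he hA hB hC hD
  have e2 : (k - 2) * X ^ 2 + (-3 * k ^ 2 + 3) * (X * Y) + (2 * k ^ 3 - 1) * Y ^ 2 = 0 := by
    have hXY : 16 * X * Y ≠ 0 := by positivity
    apply mul_left_cancel₀ hXY
    linear_combination e
  exact q_XCac hk1 hX0 hY0 (by linarith) (by linarith) (by linarith)
    (by linarith) (by linarith) e2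

lemma n_XCaM {a b c d k : ℕ} (h : Tri a b) (h' : Tri c d) (he : ar a b = ar c d)
    (hlt : a + 2 * b < c + 2 * d) (ht : a = c + d) (hk : a + 2 * b = c * k) (hY2 : 2 ≤ c) :
    ar c d = 106260 := by
  have a0 : (0 : ℤ) < a := by exact_mod_cast h.ha
  have b0 : (0 : ℤ) < b := by exact_mod_cast h.hb
  have c0 : (0 : ℤ) < c := by exact_mod_cast h'.ha
  have d0 : (0 : ℤ) < d := by exact_mod_cast h'.hb
  have hao := h.odd
  have hco := h'.odd
  obtain ⟨X, hX⟩ : ∃ X : ℤ, X = ((c + d : ℕ) : ℤ) := ⟨_, rfl⟩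
  obtain ⟨Y, hY⟩ : ∃ Y : ℤ, Y = ((c : ℕ) : ℤ) := ⟨_, rfl⟩
  have hX' := hX
  have hY' := hY
  push_cast at hX' hY'
  have hk' : ((a + 2 * b : ℕ) : ℤ) = k * Y := by rw [hk, hY]; push_cast; ring
  have ht' : ((a : ℕ) : ℤ) = ((c + d : ℕ) : ℤ) := by rw [ht]
  have hlt' : (a : ℤ) + 2 * b < c + 2 * d := by exact_mod_cast hlt
  push_cast at hk' ht'
  have hk1 : (1 : ℤ) ≤ k := by
    have : 0 < k := by
      rcases Nat.eq_zero_or_pos k with h0 | h0
      · exfalso
        rw [h0] at hk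
        have := h.ha
        have := h.hb
        omega
      · exact h0
    exact_mod_cast this
  have hX0 : 0 < X := by linarith
  have hY0 : 0 < Y := by linarith
  have hA : 2 * (a : ℤ) = 2 * X := by linarith
  have hB : 2 * (b : ℤ) = -X + (k * Y) := by linarith
  have hC : 2 * (c : ℤ) = 2 * Y := by linarith
  have hD : 2 * (d : ℤ) = 2 * X - 2 * Y := by linarith
  have e := ar16 he hA hB hC hD
  have e2 : (-k - 8) * X ^ 2 + (12) * (X * Y) + (k ^ 3 - 4) * Y ^ 2 = 0 := by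
    have hXY : 4 * X * Y ≠ 0 := by positivity
    apply mul_left_cancel₀ hXY
    linear_combination e
  have r := q_XCaM hk1 hX0 hY0 (by linarith) (by linarith) (by linarith)
    (by linarith) (by linarith) e2
  rw [hX, hY] at r
  have r2 : 11 * (c + d) = 23 * (c) := by exact_mod_cast r
  obtain ⟨r3, r4⟩ := rel_cop (cop_ac h').symm (by norm_num) r2
  have r5 : d = 12 := by omega
  subst r5
  subst r4
  rfl

lemma n_XCMa {a b c d k : ℕ} (h : Tri a b) (h' : Tri c d) (he : ar a b = ar c d)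
    (hlt : a + 2 * b < c + 2 * d) (ht : a + 2 * b = c + d) (hk : a = c * k) (hY2 : 2 ≤ c) :
    False := by
  have a0 : (0 : ℤ) < a := by exact_mod_cast h.ha
  have b0 : (0 : ℤ) < b := by exact_mod_cast h.hb
  have c0 : (0 : ℤ) < c := by exact_mod_cast h'.ha
  have d0 : (0 : ℤ) < d := by exact_mod_cast h'.hb
  have hao := h.odd
  have hco := h'.odd
  obtain ⟨X, hX⟩ : ∃ X : ℤ, X = ((c + d : ℕ) : ℤ) := ⟨_, rfl⟩
  obtain ⟨Y, hY⟩ : ∃ Y : ℤ, Y = ((c : ℕ) : ℤ) := ⟨_, rfl⟩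
  have hX' := hX
  have hY' := hY
  push_cast at hX' hY'
  have hk' : ((a : ℕ) : ℤ) = k * Y := by rw [hk, hY]; push_cast; ring
  have ht' : ((a + 2 * b : ℕ) : ℤ) = ((c + d : ℕ) : ℤ) := by rw [ht]
  have hlt' : (a : ℤ) + 2 * b < c + 2 * d := by exact_mod_cast hlt
  push_cast at hk' ht'
  have hk1 : (1 : ℤ) ≤ k := by
    have : 0 < k := by
      rcases Nat.eq_zero_or_pos k with h0 | h0
      · exfalso
        rw [h0] at hk
        have := h.ha
        have := h.hb
        omega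
      · exact h0
    exact_mod_cast this
  have hX0 : 0 < X := by linarith
  have hY0 : 0 < Y := by linarith
  have hA : 2 * (a : ℤ) = 2 * (k * Y) := by linarith
  have hB : 2 * (b : ℤ) = X - (k * Y) := by linarith
  have hC : 2 * (c : ℤ) = 2 * Y := by linarith
  have hD : 2 * (d : ℤ) = 2 * X - 2 * Y := by linarith
  have e := ar16 he hA hB hC hD
  have e2 : (k - 8) * X ^ 2 + (12) * (X * Y) + (-k ^ 3 - 4) * Y ^ 2 = 0 := by
    have hXY : 4 * X * Y ≠ 0 := by positivity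
    apply mul_left_cancel₀ hXY
    linear_combination e
  have r := q_XCMa hk1 hX0 hY0 (by linarith) (by linarith) (by linarith)
    (by linarith) (by linarith) e2
  rw [hX, hY] at r
  have r2 : 1 * (c + d) = 43 * (c) := by exact_mod_cast r
  obtain ⟨r3, r4⟩ := rel_cop (cop_ac h').symm (by norm_num) r2
  omega

lemma n_XCMb {a b c d k : ℕ} (h : Tri a b) (h' : Tri c d) (he : ar a b = ar c d)
    (hlt : a + 2 * b < c + 2 * d) (ht : a + 2 * b = c + d) (hk : b = c * k) (hY2 : 2 ≤ c) :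
    False := by
  have a0 : (0 : ℤ) < a := by exact_mod_cast h.ha
  have b0 : (0 : ℤ) < b := by exact_mod_cast h.hb
  have c0 : (0 : ℤ) < c := by exact_mod_cast h'.ha
  have d0 : (0 : ℤ) < d := by exact_mod_cast h'.hb
  have hao := h.odd
  have hco := h'.odd
  obtain ⟨X, hX⟩ : ∃ X : ℤ, X = ((c + d : ℕ) : ℤ) := ⟨_, rfl⟩
  obtain ⟨Y, hY⟩ : ∃ Y : ℤ, Y = ((c : ℕ) : ℤ) := ⟨_, rfl⟩
  have hX' := hX
  have hY' := hY
  push_cast at hX' hY'
  have hk' : ((b : ℕ) : ℤ) = k * Y := by rw [hk, hY]; push_cast; ring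
  have ht' : ((a + 2 * b : ℕ) : ℤ) = ((c + d : ℕ) : ℤ) := by rw [ht]
  have hlt' : (a : ℤ) + 2 * b < c + 2 * d := by exact_mod_cast hlt
  push_cast at hk' ht'
  have hk1 : (1 : ℤ) ≤ k := by
    have : 0 < k := by
      rcases Nat.eq_zero_or_pos k with h0 | h0
      · exfalso
        rw [h0] at hk
        have := h.ha
        have := h.hb
        omega
      · exact h0
    exact_mod_cast this
  have hX0 : 0 < X := by linarith
  have hY0 : 0 < Y := by linarith
  have hA : 2 * (a : ℤ) = 2 * X - 4 * (k * Y) := by linarith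
  have hB : 2 * (b : ℤ) = 2 * (k * Y) := by linarith
  have hC : 2 * (c : ℤ) = 2 * Y := by linarith
  have hD : 2 * (d : ℤ) = 2 * X - 2 * Y := by linarith
  have e := ar16 he hA hB hC hD
  have e2 : (k - 2) * X ^ 2 + (-3 * k ^ 2 + 3) * (X * Y) + (2 * k ^ 3 - 1) * Y ^ 2 = 0 := by
    have hXY : 16 * X * Y ≠ 0 := by positivity
    apply mul_left_cancel₀ hXY
    linear_combination e
  exact q_XCMb hk1 hX0 hY0 (by linarith) (by linarith) (by linarith)
    (by linarith) (by linarith) e2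

lemma n_XCMc {a b c d k : ℕ} (h : Tri a b) (h' : Tri c d) (he : ar a b = ar c d)
    (hlt : a + 2 * b < c + 2 * d) (ht : a + 2 * b = c + d) (hk : a + b = c * k) (hY2 : 2 ≤ c) :
    False := by
  have a0 : (0 : ℤ) < a := by exact_mod_cast h.ha
  have b0 : (0 : ℤ) < b := by exact_mod_cast h.hb
  have c0 : (0 : ℤ) < c := by exact_mod_cast h'.ha
  have d0 : (0 : ℤ) < d := by exact_mod_cast h'.hb
  have hao := h.odd
  have hco := h'.odd
  obtain ⟨X, hX⟩ : ∃ X : ℤ, X = ((c + d : ℕ) : ℤ) := ⟨_, rfl⟩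
  obtain ⟨Y, hY⟩ : ∃ Y : ℤ, Y = ((c : ℕ) : ℤ) := ⟨_, rfl⟩
  have hX' := hX
  have hY' := hY
  push_cast at hX' hY'
  have hk' : ((a + b : ℕ) : ℤ) = k * Y := by rw [hk, hY]; push_cast; ring
  have ht' : ((a + 2 * b : ℕ) : ℤ) = ((c + d : ℕ) : ℤ) := by rw [ht]
  have hlt' : (a : ℤ) + 2 * b < c + 2 * d := by exact_mod_cast hlt
  push_cast at hk' ht'
  have hk1 : (1 : ℤ) ≤ k := by
    have : 0 < k := by
      rcases Nat.eq_zero_or_pos k with h0 | h0
      · exfalso
        rw [h0] at hk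
        have := h.ha
        have := h.hb
        omega
      · exact h0
    exact_mod_cast this
  have hX0 : 0 < X := by linarith
  have hY0 : 0 < Y := by linarith
  have hA : 2 * (a : ℤ) = -2 * X + 4 * (k * Y) := by linarith
  have hB : 2 * (b : ℤ) = 2 * X - 2 * (k * Y) := by linarith
  have hC : 2 * (c : ℤ) = 2 * Y := by linarith
  have hD : 2 * (d : ℤ) = 2 * X - 2 * Y := by linarith
  have e := ar16 he hA hB hC hD
  have e2 : (-k - 2) * X ^ 2 + (3 * k ^ 2 + 3) * (X * Y) + (-2 * k ^ 3 - 1) * Y ^ 2 = 0 := by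
    have hXY : 16 * X * Y ≠ 0 := by positivity
    apply mul_left_cancel₀ hXY
    linear_combination e
  exact q_XCMc hk1 hX0 hY0 (by linarith) (by linarith) (by linarith)
    (by linarith) (by linarith) e2

lemma n_XDab {a b c d k : ℕ} (h : Tri a b) (h' : Tri c d) (he : ar a b = ar c d)
    (hlt : a + 2 * b < c + 2 * d) (ht : a = c + d) (hk : b = d * k) (hY2 : 2 ≤ d) :
    False := by
  have a0 : (0 : ℤ) < a := by exact_mod_cast h.ha
  have b0 : (0 : ℤ) < b := by exact_mod_cast h.hb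
  have c0 : (0 : ℤ) < c := by exact_mod_cast h'.ha
  have d0 : (0 : ℤ) < d := by exact_mod_cast h'.hb
  have hao := h.odd
  have hco := h'.odd
  obtain ⟨X, hX⟩ : ∃ X : ℤ, X = ((c + d : ℕ) : ℤ) := ⟨_, rfl⟩
  obtain ⟨Y, hY⟩ : ∃ Y : ℤ, Y = ((d : ℕ) : ℤ) := ⟨_, rfl⟩
  have hX' := hX
  have hY' := hY
  push_cast at hX' hY'
  have hk' : ((b : ℕ) : ℤ) = k * Y := by rw [hk, hY]; push_cast; ring
  have ht' : ((a : ℕ) : ℤ) = ((c + d : ℕ) : ℤ) := by rw [ht]
  have hlt' : (a : ℤ) + 2 * b < c + 2 * d := by exact_mod_cast hlt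
  push_cast at hk' ht'
  have hk1 : (1 : ℤ) ≤ k := by
    have : 0 < k := by
      rcases Nat.eq_zero_or_pos k with h0 | h0
      · exfalso
        rw [h0] at hk
        have := h.ha
        have := h.hb
        omega
      · exact h0
    exact_mod_cast this
  have hX0 : 0 < X := by linarith
  have hY0 : 0 < Y := by linarith
  have hA : 2 * (a : ℤ) = 2 * X := by linarith
  have hB : 2 * (b : ℤ) = 2 * (k * Y) := by linarith
  have hC : 2 * (c : ℤ) = 2 * X - 2 * Y := by linarith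
  have hD : 2 * (d : ℤ) = 2 * Y := by linarith
  have e := ar16 he hA hB hC hD
  have e2 : (k - 1) * X ^ 2 + (3 * k ^ 2) * (X * Y) + (2 * k ^ 3 + 1) * Y ^ 2 = 0 := by
    have hXY : 16 * X * Y ≠ 0 := by positivity
    apply mul_left_cancel₀ hXY
    linear_combination e
  exact q_XDab hk1 hX0 hY0 (by linarith) (by linarith) (by linarith)
    (by linarith) (by linarith) e2

lemma n_XDac {a b c d k : ℕ} (h : Tri a b) (h' : Tri c d) (he : ar a b = ar c d)
    (hlt : a + 2 * b < c + 2 * d) (ht : a = c + d) (hk : a + b = d * k) (hY2 : 2 ≤ d) :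
    False := by
  have a0 : (0 : ℤ) < a := by exact_mod_cast h.ha
  have b0 : (0 : ℤ) < b := by exact_mod_cast h.hb
  have c0 : (0 : ℤ) < c := by exact_mod_cast h'.ha
  have d0 : (0 : ℤ) < d := by exact_mod_cast h'.hb
  have hao := h.odd
  have hco := h'.odd
  obtain ⟨X, hX⟩ : ∃ X : ℤ, X = ((c + d : ℕ) : ℤ) := ⟨_, rfl⟩
  obtain ⟨Y, hY⟩ : ∃ Y : ℤ, Y = ((d : ℕ) : ℤ) := ⟨_, rfl⟩
  have hX' := hX
  have hY' := hY
  push_cast at hX' hY'
  have hk' : ((a + b : ℕ) : ℤ) = k * Y := by rw [hk, hY]; push_cast; ring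
  have ht' : ((a : ℕ) : ℤ) = ((c + d : ℕ) : ℤ) := by rw [ht]
  have hlt' : (a : ℤ) + 2 * b < c + 2 * d := by exact_mod_cast hlt
  push_cast at hk' ht'
  have hk1 : (1 : ℤ) ≤ k := by
    have : 0 < k := by
      rcases Nat.eq_zero_or_pos k with h0 | h0
      · exfalso
        rw [h0] at hk
        have := h.ha
        have := h.hb
        omega
      · exact h0
    exact_mod_cast this
  have hX0 : 0 < X := by linarith
  have hY0 : 0 < Y := by linarith
  have hA : 2 * (a : ℤ) = 2 * X := by linarith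
  have hB : 2 * (b : ℤ) = -2 * X + 2 * (k * Y) := by linarith
  have hC : 2 * (c : ℤ) = 2 * X - 2 * Y := by linarith
  have hD : 2 * (d : ℤ) = 2 * Y := by linarith
  have e := ar16 he hA hB hC hD
  have e2 : (k - 1) * X ^ 2 + (-3 * k ^ 2) * (X * Y) + (2 * k ^ 3 + 1) * Y ^ 2 = 0 := by
    have hXY : 16 * X * Y ≠ 0 := by positivity
    apply mul_left_cancel₀ hXY
    linear_combination e
  exact q_XDac hk1 hX0 hY0 (by linarith) (by linarith) (by linarith)
    (by linarith) (by linarith) e2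

lemma n_XDaM {a b c d k : ℕ} (h : Tri a b) (h' : Tri c d) (he : ar a b = ar c d)
    (hlt : a + 2 * b < c + 2 * d) (ht : a = c + d) (hk : a + 2 * b = d * k) (hY2 : 2 ≤ d) :
    False := by
  have a0 : (0 : ℤ) < a := by exact_mod_cast h.ha
  have b0 : (0 : ℤ) < b := by exact_mod_cast h.hb
  have c0 : (0 : ℤ) < c := by exact_mod_cast h'.ha
  have d0 : (0 : ℤ) < d := by exact_mod_cast h'.hb
  have hao := h.odd
  have hco := h'.odd
  obtain ⟨X, hX⟩ : ∃ X : ℤ, X = ((c + d : ℕ) : ℤ) := ⟨_, rfl⟩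
  obtain ⟨Y, hY⟩ : ∃ Y : ℤ, Y = ((d : ℕ) : ℤ) := ⟨_, rfl⟩
  have hX' := hX
  have hY' := hY
  push_cast at hX' hY'
  have hk' : ((a + 2 * b : ℕ) : ℤ) = k * Y := by rw [hk, hY]; push_cast; ring
  have ht' : ((a : ℕ) : ℤ) = ((c + d : ℕ) : ℤ) := by rw [ht]
  have hlt' : (a : ℤ) + 2 * b < c + 2 * d := by exact_mod_cast hlt
  push_cast at hk' ht'
  have hk1 : (1 : ℤ) ≤ k := by
    have : 0 < k := by
      rcases Nat.eq_zero_or_pos k with h0 | h0
      · exfalso
        rw [h0] at hk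
        have := h.ha
        have := h.hb
        omega
      · exact h0
    exact_mod_cast this
  have hX0 : 0 < X := by linarith
  have hY0 : 0 < Y := by linarith
  have hA : 2 * (a : ℤ) = 2 * X := by linarith
  have hB : 2 * (b : ℤ) = -X + (k * Y) := by linarith
  have hC : 2 * (c : ℤ) = 2 * X - 2 * Y := by linarith
  have hD : 2 * (d : ℤ) = 2 * Y := by linarith
  have e := ar16 he hA hB hC hD
  have e2 : (-k - 4) * X ^ 2 + (0) * (X * Y) + (k ^ 3 + 4) * Y ^ 2 = 0 := by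
    have hXY : 4 * X * Y ≠ 0 := by positivity
    apply mul_left_cancel₀ hXY
    linear_combination e
  exact q_XDaM hk1 hX0 hY0 (by linarith) (by linarith) (by linarith)
    (by linarith) (by linarith) e2

lemma n_XDMa {a b c d k : ℕ} (h : Tri a b) (h' : Tri c d) (he : ar a b = ar c d)
    (hlt : a + 2 * b < c + 2 * d) (ht : a + 2 * b = c + d) (hk : a = d * k) (hY2 : 2 ≤ d) :
    False := by
  have a0 : (0 : ℤ) < a := by exact_mod_cast h.ha
  have b0 : (0 : ℤ) < b := by exact_mod_cast h.hb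
  have c0 : (0 : ℤ) < c := by exact_mod_cast h'.ha
  have d0 : (0 : ℤ) < d := by exact_mod_cast h'.hb
  have hao := h.odd
  have hco := h'.odd
  obtain ⟨X, hX⟩ : ∃ X : ℤ, X = ((c + d : ℕ) : ℤ) := ⟨_, rfl⟩
  obtain ⟨Y, hY⟩ : ∃ Y : ℤ, Y = ((d : ℕ) : ℤ) := ⟨_, rfl⟩
  have hX' := hX
  have hY' := hY
  push_cast at hX' hY'
  have hk' : ((a : ℕ) : ℤ) = k * Y := by rw [hk, hY]; push_cast; ring
  have ht' : ((a + 2 * b : ℕ) : ℤ) = ((c + d : ℕ) : ℤ) := by rw [ht]
  have hlt' : (a : ℤ) + 2 * b < c + 2 * d := by exact_mod_cast hlt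
  push_cast at hk' ht'
  have hk1 : (1 : ℤ) ≤ k := by
    have : 0 < k := by
      rcases Nat.eq_zero_or_pos k with h0 | h0
      · exfalso
        rw [h0] at hk
        have := h.ha
        have := h.hb
        omega
      · exact h0
    exact_mod_cast this
  have hX0 : 0 < X := by linarith
  have hY0 : 0 < Y := by linarith
  have hA : 2 * (a : ℤ) = 2 * (k * Y) := by linarith
  have hB : 2 * (b : ℤ) = X - (k * Y) := by linarith
  have hC : 2 * (c : ℤ) = 2 * X - 2 * Y := by linarith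
  have hD : 2 * (d : ℤ) = 2 * Y := by linarith
  have e := ar16 he hA hB hC hD
  have e2 : (k - 4) * X ^ 2 + (0) * (X * Y) + (-k ^ 3 + 4) * Y ^ 2 = 0 := by
    have hXY : 4 * X * Y ≠ 0 := by positivity
    apply mul_left_cancel₀ hXY
    linear_combination e
  have r := q_XDMa hk1 hX0 hY0 (by linarith) (by linarith) (by linarith)
    (by linarith) (by linarith) e2
  rw [hX, hY] at r
  have r2 : 1 * (c + d) = 11 * (d) := by exact_mod_cast r
  obtain ⟨r3, r4⟩ := rel_cop (cop_bc h').symm (by norm_num) r2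
  omega

lemma n_XDMb {a b c d k : ℕ} (h : Tri a b) (h' : Tri c d) (he : ar a b = ar c d)
    (hlt : a + 2 * b < c + 2 * d) (ht : a + 2 * b = c + d) (hk : b = d * k) (hY2 : 2 ≤ d) :
    False := by
  have a0 : (0 : ℤ) < a := by exact_mod_cast h.ha
  have b0 : (0 : ℤ) < b := by exact_mod_cast h.hb
  have c0 : (0 : ℤ) < c := by exact_mod_cast h'.ha
  have d0 : (0 : ℤ) < d := by exact_mod_cast h'.hb
  have hao := h.odd
  have hco := h'.odd
  obtain ⟨X, hX⟩ : ∃ X : ℤ, X = ((c + d : ℕ) : ℤ) := ⟨_, rfl⟩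
  obtain ⟨Y, hY⟩ : ∃ Y : ℤ, Y = ((d : ℕ) : ℤ) := ⟨_, rfl⟩
  have hX' := hX
  have hY' := hY
  push_cast at hX' hY'
  have hk' : ((b : ℕ) : ℤ) = k * Y := by rw [hk, hY]; push_cast; ring
  have ht' : ((a + 2 * b : ℕ) : ℤ) = ((c + d : ℕ) : ℤ) := by rw [ht]
  have hlt' : (a : ℤ) + 2 * b < c + 2 * d := by exact_mod_cast hlt
  push_cast at hk' ht'
  have hk1 : (1 : ℤ) ≤ k := by
    have : 0 < k := by
      rcases Nat.eq_zero_or_pos k with h0 | h0
      · exfalso
        rw [h0] at hk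
        have := h.ha
        have := h.hb
        omega
      · exact h0
    exact_mod_cast this
  have hX0 : 0 < X := by linarith
  have hY0 : 0 < Y := by linarith
  have hA : 2 * (a : ℤ) = 2 * X - 4 * (k * Y) := by linarith
  have hB : 2 * (b : ℤ) = 2 * (k * Y) := by linarith
  have hC : 2 * (c : ℤ) = 2 * X - 2 * Y := by linarith
  have hD : 2 * (d : ℤ) = 2 * Y := by linarith
  have e := ar16 he hA hB hC hD
  have e2 : (k - 1) * X ^ 2 + (-3 * k ^ 2) * (X * Y) + (2 * k ^ 3 + 1) * Y ^ 2 = 0 := by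
    have hXY : 16 * X * Y ≠ 0 := by positivity
    apply mul_left_cancel₀ hXY
    linear_combination e
  have r := q_XDMb hk1 hX0 hY0 (by linarith) (by linarith) (by linarith)
    (by linarith) (by linarith) e2
  rw [hX, hY] at r
  have r2 : 1 * (c + d) = 11 * (d) := by exact_mod_cast r
  obtain ⟨r3, r4⟩ := rel_cop (cop_bc h').symm (by norm_num) r2
  omega

lemma n_XDMc {a b c d k : ℕ} (h : Tri a b) (h' : Tri c d) (he : ar a b = ar c d)
    (hlt : a + 2 * b < c + 2 * d) (ht : a + 2 * b = c + d) (hk : a + b = d * k) (hY2 : 2 ≤ d) :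
    False := by
  have a0 : (0 : ℤ) < a := by exact_mod_cast h.ha
  have b0 : (0 : ℤ) < b := by exact_mod_cast h.hb
  have c0 : (0 : ℤ) < c := by exact_mod_cast h'.ha
  have d0 : (0 : ℤ) < d := by exact_mod_cast h'.hb
  have hao := h.odd
  have hco := h'.odd
  obtain ⟨X, hX⟩ : ∃ X : ℤ, X = ((c + d : ℕ) : ℤ) := ⟨_, rfl⟩
  obtain ⟨Y, hY⟩ : ∃ Y : ℤ, Y = ((d : ℕ) : ℤ) := ⟨_, rfl⟩
  have hX' := hX
  have hY' := hY
  push_cast at hX' hY'
  have hk' : ((a + b : ℕ) : ℤ) = k * Y := by rw [hk, hY]; push_cast; ring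
  have ht' : ((a + 2 * b : ℕ) : ℤ) = ((c + d : ℕ) : ℤ) := by rw [ht]
  have hlt' : (a : ℤ) + 2 * b < c + 2 * d := by exact_mod_cast hlt
  push_cast at hk' ht'
  have hk1 : (1 : ℤ) ≤ k := by
    have : 0 < k := by
      rcases Nat.eq_zero_or_pos k with h0 | h0
      · exfalso
        rw [h0] at hk
        have := h.ha
        have := h.hb
        omega
      · exact h0
    exact_mod_cast this
  have hX0 : 0 < X := by linarith
  have hY0 : 0 < Y := by linarith
  have hA : 2 * (a : ℤ) = -2 * X + 4 * (k * Y) := by linarith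
  have hB : 2 * (b : ℤ) = 2 * X - 2 * (k * Y) := by linarith
  have hC : 2 * (c : ℤ) = 2 * X - 2 * Y := by linarith
  have hD : 2 * (d : ℤ) = 2 * Y := by linarith
  have e := ar16 he hA hB hC hD
  have e2 : (-k - 1) * X ^ 2 + (3 * k ^ 2) * (X * Y) + (-2 * k ^ 3 + 1) * Y ^ 2 = 0 := by
    have hXY : 16 * X * Y ≠ 0 := by positivity
    apply mul_left_cancel₀ hXY
    linear_combination e
  rcases q_XDMc hk1 hX0 hY0 (by linarith) (by linarith) (by linarith)
    (by linarith) (by linarith) e2 with r | r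
  · rw [hX, hY] at r
    have r2 : 3 * (c + d) = 31 * (d) := by exact_mod_cast r
    obtain ⟨r3, r4⟩ := rel_cop (cop_bc h').symm (by norm_num) r2
    omega
  · rw [hX, hY] at r
    have r2 : 1 * (c + d) = 11 * (d) := by exact_mod_cast r
    obtain ⟨r3, r4⟩ := rel_cop (cop_bc h').symm (by norm_num) r2
    omega

lemma n_BCca {a b c d k : ℕ} (h : Tri a b) (h' : Tri c d) (he : ar a b = ar c d)
    (hlt : a + 2 * b < c + 2 * d) (hdc : d < c) (ht : a + b = c) (hk : a = d * k) (hY2 : 2 ≤ d) :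
    False := by
  have a0 : (0 : ℤ) < a := by exact_mod_cast h.ha
  have b0 : (0 : ℤ) < b := by exact_mod_cast h.hb
  have c0 : (0 : ℤ) < c := by exact_mod_cast h'.ha
  have d0 : (0 : ℤ) < d := by exact_mod_cast h'.hb
  have hao := h.odd
  have hco := h'.odd
  obtain ⟨X, hX⟩ : ∃ X : ℤ, X = ((c : ℕ) : ℤ) := ⟨_, rfl⟩
  obtain ⟨Y, hY⟩ : ∃ Y : ℤ, Y = ((d : ℕ) : ℤ) := ⟨_, rfl⟩
  have hX' := hX
  have hY' := hY
  push_cast at hX' hY'
  have hk' : ((a : ℕ) : ℤ) = k * Y := by rw [hk, hY]; push_cast; ring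
  have ht' : ((a + b : ℕ) : ℤ) = ((c : ℕ) : ℤ) := by rw [ht]
  have hlt' : (a : ℤ) + 2 * b < c + 2 * d := by exact_mod_cast hlt
  push_cast at hk' ht'
  have hk1 : (1 : ℤ) ≤ k := by
    have : 0 < k := by
      rcases Nat.eq_zero_or_pos k with h0 | h0
      · exfalso
        rw [h0] at hk
        have := h.ha
        have := h.hb
        omega
      · exact h0
    exact_mod_cast this
  have hX0 : 0 < X := by linarith
  have hY0 : 0 < Y := by linarith
  have hA : 2 * (a : ℤ) = 2 * (k * Y) := by linarith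
  have hB : 2 * (b : ℤ) = 2 * X - 2 * (k * Y) := by linarith
  have hC : 2 * (c : ℤ) = 2 * X := by linarith
  have hD : 2 * (d : ℤ) = 2 * Y := by linarith
  have e := ar16 he hA hB hC hD
  have e2 : (2 * k - 1) * X ^ 2 + (-3 * k ^ 2 - 3) * (X * Y) + (k ^ 3 - 2) * Y ^ 2 = 0 := by
    have hXY : 16 * X * Y ≠ 0 := by positivity
    apply mul_left_cancel₀ hXY
    linear_combination e
  exact q_BCca hk1 hX0 hY0 (by linarith) (by linarith) (by linarith) (by linarith)
    (by linarith) (by linarith) e2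

lemma n_BCcb {a b c d k : ℕ} (h : Tri a b) (h' : Tri c d) (he : ar a b = ar c d)
    (hlt : a + 2 * b < c + 2 * d) (hdc : d < c) (ht : a + b = c) (hk : b = d * k) (hY2 : 2 ≤ d) :
    False := by
  have a0 : (0 : ℤ) < a := by exact_mod_cast h.ha
  have b0 : (0 : ℤ) < b := by exact_mod_cast h.hb
  have c0 : (0 : ℤ) < c := by exact_mod_cast h'.ha
  have d0 : (0 : ℤ) < d := by exact_mod_cast h'.hb
  have hao := h.odd
  have hco := h'.odd
  obtain ⟨X, hX⟩ : ∃ X : ℤ, X = ((c : ℕ) : ℤ) := ⟨_, rfl⟩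
  obtain ⟨Y, hY⟩ : ∃ Y : ℤ, Y = ((d : ℕ) : ℤ) := ⟨_, rfl⟩
  have hX' := hX
  have hY' := hY
  push_cast at hX' hY'
  have hk' : ((b : ℕ) : ℤ) = k * Y := by rw [hk, hY]; push_cast; ring
  have ht' : ((a + b : ℕ) : ℤ) = ((c : ℕ) : ℤ) := by rw [ht]
  have hlt' : (a : ℤ) + 2 * b < c + 2 * d := by exact_mod_cast hlt
  push_cast at hk' ht'
  have hk1 : (1 : ℤ) ≤ k := by
    have : 0 < k := by
      rcases Nat.eq_zero_or_pos k with h0 | h0
      · exfalso
        rw [h0] at hk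
        have := h.ha
        have := h.hb
        omega
      · exact h0
    exact_mod_cast this
  have hX0 : 0 < X := by linarith
  have hY0 : 0 < Y := by linarith
  have hA : 2 * (a : ℤ) = 2 * X - 2 * (k * Y) := by linarith
  have hB : 2 * (b : ℤ) = 2 * (k * Y) := by linarith
  have hC : 2 * (c : ℤ) = 2 * X := by linarith
  have hD : 2 * (d : ℤ) = 2 * Y := by linarith
  have e := ar16 he hA hB hC hD
  have e2 : (k - 1) * X ^ 2 + (-3) * (X * Y) + (-k ^ 3 - 2) * Y ^ 2 = 0 := by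
    have hXY : 16 * X * Y ≠ 0 := by positivity
    apply mul_left_cancel₀ hXY
    linear_combination e
  exact q_BCcb hk1 hX0 hY0 (by linarith) (by linarith) (by linarith) (by linarith)
    (by linarith) (by linarith) e2

lemma n_BCcM {a b c d k : ℕ} (h : Tri a b) (h' : Tri c d) (he : ar a b = ar c d)
    (hlt : a + 2 * b < c + 2 * d) (hdc : d < c) (ht : a + b = c) (hk : a + 2 * b = d * k) (hY2 : 2 ≤ d) :
    False := by
  have a0 : (0 : ℤ) < a := by exact_mod_cast h.ha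
  have b0 : (0 : ℤ) < b := by exact_mod_cast h.hb
  have c0 : (0 : ℤ) < c := by exact_mod_cast h'.ha
  have d0 : (0 : ℤ) < d := by exact_mod_cast h'.hb
  have hao := h.odd
  have hco := h'.odd
  obtain ⟨X, hX⟩ : ∃ X : ℤ, X = ((c : ℕ) : ℤ) := ⟨_, rfl⟩
  obtain ⟨Y, hY⟩ : ∃ Y : ℤ, Y = ((d : ℕ) : ℤ) := ⟨_, rfl⟩
  have hX' := hX
  have hY' := hY
  push_cast at hX' hY'
  have hk' : ((a + 2 * b : ℕ) : ℤ) = k * Y := by rw [hk, hY]; push_cast; ring
  have ht' : ((a + b : ℕ) : ℤ) = ((c : ℕ) : ℤ) := by rw [ht]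
  have hlt' : (a : ℤ) + 2 * b < c + 2 * d := by exact_mod_cast hlt
  push_cast at hk' ht'
  have hk1 : (1 : ℤ) ≤ k := by
    have : 0 < k := by
      rcases Nat.eq_zero_or_pos k with h0 | h0
      · exfalso
        rw [h0] at hk
        have := h.ha
        have := h.hb
        omega
      · exact h0
    exact_mod_cast this
  have hX0 : 0 < X := by linarith
  have hY0 : 0 < Y := by linarith
  have hA : 2 * (a : ℤ) = 4 * X - 2 * (k * Y) := by linarith
  have hB : 2 * (b : ℤ) = -2 * X + 2 * (k * Y) := by linarith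
  have hC : 2 * (c : ℤ) = 2 * X := by linarith
  have hD : 2 * (d : ℤ) = 2 * Y := by linarith
  have e := ar16 he hA hB hC hD
  have e2 : (-2 * k - 1) * X ^ 2 + (3 * k ^ 2 - 3) * (X * Y) + (-k ^ 3 - 2) * Y ^ 2 = 0 := by
    have hXY : 16 * X * Y ≠ 0 := by positivity
    apply mul_left_cancel₀ hXY
    linear_combination e
  exact q_BCcM hk1 hX0 hY0 (by linarith) (by linarith) (by linarith) (by linarith)
    (by linarith) (by linarith) e2

lemma n_BCc2a {a b c d k : ℕ} (h : Tri a b) (h' : Tri c d) (he : ar a b = ar c d)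
    (hlt : a + 2 * b < c + 2 * d) (hdc : d < c) (ht : a + b = 2 * c) (hk : a = d * k) (hY2 : 2 ≤ d) :
    False := by
  have a0 : (0 : ℤ) < a := by exact_mod_cast h.ha
  have b0 : (0 : ℤ) < b := by exact_mod_cast h.hb
  have c0 : (0 : ℤ) < c := by exact_mod_cast h'.ha
  have d0 : (0 : ℤ) < d := by exact_mod_cast h'.hb
  have hao := h.odd
  have hco := h'.odd
  obtain ⟨X, hX⟩ : ∃ X : ℤ, X = ((c : ℕ) : ℤ) := ⟨_, rfl⟩
  obtain ⟨Y, hY⟩ : ∃ Y : ℤ, Y = ((d : ℕ) : ℤ) := ⟨_, rfl⟩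
  have hX' := hX
  have hY' := hY
  push_cast at hX' hY'
  have hk' : ((a : ℕ) : ℤ) = k * Y := by rw [hk, hY]; push_cast; ring
  have ht' : ((a + b : ℕ) : ℤ) = ((2 * c : ℕ) : ℤ) := by rw [ht]
  have hlt' : (a : ℤ) + 2 * b < c + 2 * d := by exact_mod_cast hlt
  push_cast at hk' ht'
  have hk1 : (1 : ℤ) ≤ k := by
    have : 0 < k := by
      rcases Nat.eq_zero_or_pos k with h0 | h0
      · exfalso
        rw [h0] at hk
        have := h.ha
        have := h.hb
        omega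
      · exact h0
    exact_mod_cast this
  have hX0 : 0 < X := by linarith
  have hY0 : 0 < Y := by linarith
  have hA : 2 * (a : ℤ) = 2 * (k * Y) := by linarith
  have hB : 2 * (b : ℤ) = 4 * X - 2 * (k * Y) := by linarith
  have hC : 2 * (c : ℤ) = 2 * X := by linarith
  have hD : 2 * (d : ℤ) = 2 * Y := by linarith
  have e := ar16 he hA hB hC hD
  have e2 : (16 * k - 1) * X ^ 2 + (-12 * k ^ 2 - 3) * (X * Y) + (2 * k ^ 3 - 2) * Y ^ 2 = 0 := by
    have hXY : 16 * X * Y ≠ 0 := by positivity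
    apply mul_left_cancel₀ hXY
    linear_combination e
  exact q_BCc2a hk1 hX0 hY0 (by linarith) (by linarith) (by linarith) (by linarith)
    (by linarith) (by linarith) e2

lemma n_BCc2b {a b c d k : ℕ} (h : Tri a b) (h' : Tri c d) (he : ar a b = ar c d)
    (hlt : a + 2 * b < c + 2 * d) (hdc : d < c) (ht : a + b = 2 * c) (hk : b = d * k) (hY2 : 2 ≤ d) :
    False := by
  have a0 : (0 : ℤ) < a := by exact_mod_cast h.ha
  have b0 : (0 : ℤ) < b := by exact_mod_cast h.hb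
  have c0 : (0 : ℤ) < c := by exact_mod_cast h'.ha
  have d0 : (0 : ℤ) < d := by exact_mod_cast h'.hb
  have hao := h.odd
  have hco := h'.odd
  obtain ⟨X, hX⟩ : ∃ X : ℤ, X = ((c : ℕ) : ℤ) := ⟨_, rfl⟩
  obtain ⟨Y, hY⟩ : ∃ Y : ℤ, Y = ((d : ℕ) : ℤ) := ⟨_, rfl⟩
  have hX' := hX
  have hY' := hY
  push_cast at hX' hY'
  have hk' : ((b : ℕ) : ℤ) = k * Y := by rw [hk, hY]; push_cast; ring
  have ht' : ((a + b : ℕ) : ℤ) = ((2 * c : ℕ) : ℤ) := by rw [ht]
  have hlt' : (a : ℤ) + 2 * b < c + 2 * d := by exact_mod_cast hlt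
  push_cast at hk' ht'
  have hk1 : (1 : ℤ) ≤ k := by
    have : 0 < k := by
      rcases Nat.eq_zero_or_pos k with h0 | h0
      · exfalso
        rw [h0] at hk
        have := h.ha
        have := h.hb
        omega
      · exact h0
    exact_mod_cast this
  have hX0 : 0 < X := by linarith
  have hY0 : 0 < Y := by linarith
  have hA : 2 * (a : ℤ) = 4 * X - 2 * (k * Y) := by linarith
  have hB : 2 * (b : ℤ) = 2 * (k * Y) := by linarith
  have hC : 2 * (c : ℤ) = 2 * X := by linarith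
  have hD : 2 * (d : ℤ) = 2 * Y := by linarith
  have e := ar16 he hA hB hC hD
  have e2 : (8 * k - 1) * X ^ 2 + (-3) * (X * Y) + (-2 * k ^ 3 - 2) * Y ^ 2 = 0 := by
    have hXY : 16 * X * Y ≠ 0 := by positivity
    apply mul_left_cancel₀ hXY
    linear_combination e
  exact q_BCc2b hk1 hX0 hY0 (by linarith) (by linarith) (by linarith) (by linarith)
    (by linarith) (by linarith) e2

lemma n_BCc2M {a b c d k : ℕ} (h : Tri a b) (h' : Tri c d) (he : ar a b = ar c d)
    (hlt : a + 2 * b < c + 2 * d) (hdc : d < c) (ht : a + b = 2 * c) (hk : a + 2 * b = d * k) (hY2 : 2 ≤ d) :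
    False := by
  have a0 : (0 : ℤ) < a := by exact_mod_cast h.ha
  have b0 : (0 : ℤ) < b := by exact_mod_cast h.hb
  have c0 : (0 : ℤ) < c := by exact_mod_cast h'.ha
  have d0 : (0 : ℤ) < d := by exact_mod_cast h'.hb
  have hao := h.odd
  have hco := h'.odd
  obtain ⟨X, hX⟩ : ∃ X : ℤ, X = ((c : ℕ) : ℤ) := ⟨_, rfl⟩
  obtain ⟨Y, hY⟩ : ∃ Y : ℤ, Y = ((d : ℕ) : ℤ) := ⟨_, rfl⟩
  have hX' := hX
  have hY' := hY
  push_cast at hX' hY'
  have hk' : ((a + 2 * b : ℕ) : ℤ) = k * Y := by rw [hk, hY]; push_cast; ring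
  have ht' : ((a + b : ℕ) : ℤ) = ((2 * c : ℕ) : ℤ) := by rw [ht]
  have hlt' : (a : ℤ) + 2 * b < c + 2 * d := by exact_mod_cast hlt
  push_cast at hk' ht'
  have hk1 : (1 : ℤ) ≤ k := by
    have : 0 < k := by
      rcases Nat.eq_zero_or_pos k with h0 | h0
      · exfalso
        rw [h0] at hk
        have := h.ha
        have := h.hb
        omega
      · exact h0
    exact_mod_cast this
  have hX0 : 0 < X := by linarith
  have hY0 : 0 < Y := by linarith
  have hA : 2 * (a : ℤ) = 8 * X - 2 * (k * Y) := by linarith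
  have hB : 2 * (b : ℤ) = -4 * X + 2 * (k * Y) := by linarith
  have hC : 2 * (c : ℤ) = 2 * X := by linarith
  have hD : 2 * (d : ℤ) = 2 * Y := by linarith
  have e := ar16 he hA hB hC hD
  have e2 : (-16 * k - 1) * X ^ 2 + (12 * k ^ 2 - 3) * (X * Y) + (-2 * k ^ 3 - 2) * Y ^ 2 = 0 := by
    have hXY : 16 * X * Y ≠ 0 := by positivity
    apply mul_left_cancel₀ hXY
    linear_combination e
  have r := q_BCc2M hk1 hX0 hY0 (by linarith) (by linarith) (by linarith) (by linarith)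
    (by linarith) (by linarith) e2
  rw [hX, hY] at r
  have r2 : 7 * (c) = 8 * (d) := by exact_mod_cast r
  obtain ⟨r3, r4⟩ := rel_cop h'.cop (by norm_num) r2
  omega

lemma n_BDab {a b c d k : ℕ} (h : Tri a b) (h' : Tri c d) (he : ar a b = ar c d)
    (hlt : a + 2 * b < c + 2 * d) (hcd : c < d) (ht : a = d) (hk : b = c * k) (hY2 : 2 ≤ c) :
    False := by
  have a0 : (0 : ℤ) < a := by exact_mod_cast h.ha
  have b0 : (0 : ℤ) < b := by exact_mod_cast h.hb
  have c0 : (0 : ℤ) < c := by exact_mod_cast h'.ha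
  have d0 : (0 : ℤ) < d := by exact_mod_cast h'.hb
  have hao := h.odd
  have hco := h'.odd
  obtain ⟨X, hX⟩ : ∃ X : ℤ, X = ((d : ℕ) : ℤ) := ⟨_, rfl⟩
  obtain ⟨Y, hY⟩ : ∃ Y : ℤ, Y = ((c : ℕ) : ℤ) := ⟨_, rfl⟩
  have hX' := hX
  have hY' := hY
  push_cast at hX' hY'
  have hk' : ((b : ℕ) : ℤ) = k * Y := by rw [hk, hY]; push_cast; ring
  have ht' : ((a : ℕ) : ℤ) = ((d : ℕ) : ℤ) := by rw [ht]
  have hlt' : (a : ℤ) + 2 * b < c + 2 * d := by exact_mod_cast hlt
  push_cast at hk' ht'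
  have hk1 : (1 : ℤ) ≤ k := by
    have : 0 < k := by
      rcases Nat.eq_zero_or_pos k with h0 | h0
      · exfalso
        rw [h0] at hk
        have := h.ha
        have := h.hb
        omega
      · exact h0
    exact_mod_cast this
  have hX0 : 0 < X := by linarith
  have hY0 : 0 < Y := by linarith
  have hA : 2 * (a : ℤ) = 2 * X := by linarith
  have hB : 2 * (b : ℤ) = 2 * (k * Y) := by linarith
  have hC : 2 * (c : ℤ) = 2 * Y := by linarith
  have hD : 2 * (d : ℤ) = 2 * X := by linarith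
  have e := ar16 he hA hB hC hD
  have e2 : (k - 2) * X ^ 2 + (3 * k ^ 2 - 3) * (X * Y) + (2 * k ^ 3 - 1) * Y ^ 2 = 0 := by
    have hXY : 16 * X * Y ≠ 0 := by positivity
    apply mul_left_cancel₀ hXY
    linear_combination e
  exact q_BDab hk1 hX0 hY0 (by linarith) (by linarith) (by linarith) (by linarith)
    (by linarith) (by linarith) e2

lemma n_BDac {a b c d k : ℕ} (h : Tri a b) (h' : Tri c d) (he : ar a b = ar c d)
    (hlt : a + 2 * b < c + 2 * d) (hcd : c < d) (ht : a = d) (hk : a + b = c * k) (hY2 : 2 ≤ c) :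
    False := by
  have a0 : (0 : ℤ) < a := by exact_mod_cast h.ha
  have b0 : (0 : ℤ) < b := by exact_mod_cast h.hb
  have c0 : (0 : ℤ) < c := by exact_mod_cast h'.ha
  have d0 : (0 : ℤ) < d := by exact_mod_cast h'.hb
  have hao := h.odd
  have hco := h'.odd
  obtain ⟨X, hX⟩ : ∃ X : ℤ, X = ((d : ℕ) : ℤ) := ⟨_, rfl⟩
  obtain ⟨Y, hY⟩ : ∃ Y : ℤ, Y = ((c : ℕ) : ℤ) := ⟨_, rfl⟩
  have hX' := hX
  have hY' := hY
  push_cast at hX' hY'
  have hk' : ((a + b : ℕ) : ℤ) = k * Y := by rw [hk, hY]; push_cast; ring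
  have ht' : ((a : ℕ) : ℤ) = ((d : ℕ) : ℤ) := by rw [ht]
  have hlt' : (a : ℤ) + 2 * b < c + 2 * d := by exact_mod_cast hlt
  push_cast at hk' ht'
  have hk1 : (1 : ℤ) ≤ k := by
    have : 0 < k := by
      rcases Nat.eq_zero_or_pos k with h0 | h0
      · exfalso
        rw [h0] at hk
        have := h.ha
        have := h.hb
        omega
      · exact h0
    exact_mod_cast this
  have hX0 : 0 < X := by linarith
  have hY0 : 0 < Y := by linarith
  have hA : 2 * (a : ℤ) = 2 * X := by linarith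
  have hB : 2 * (b : ℤ) = -2 * X + 2 * (k * Y) := by linarith
  have hC : 2 * (c : ℤ) = 2 * Y := by linarith
  have hD : 2 * (d : ℤ) = 2 * X := by linarith
  have e := ar16 he hA hB hC hD
  have e2 : (k - 2) * X ^ 2 + (-3 * k ^ 2 - 3) * (X * Y) + (2 * k ^ 3 - 1) * Y ^ 2 = 0 := by
    have hXY : 16 * X * Y ≠ 0 := by positivity
    apply mul_left_cancel₀ hXY
    linear_combination e
  exact q_BDac hk1 hX0 hY0 (by linarith) (by linarith) (by linarith) (by linarith)
    (by linarith) (by linarith) e2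

lemma n_BDaM {a b c d k : ℕ} (h : Tri a b) (h' : Tri c d) (he : ar a b = ar c d)
    (hlt : a + 2 * b < c + 2 * d) (hcd : c < d) (ht : a = d) (hk : a + 2 * b = c * k) (hY2 : 2 ≤ c) :
    False := by
  have a0 : (0 : ℤ) < a := by exact_mod_cast h.ha
  have b0 : (0 : ℤ) < b := by exact_mod_cast h.hb
  have c0 : (0 : ℤ) < c := by exact_mod_cast h'.ha
  have d0 : (0 : ℤ) < d := by exact_mod_cast h'.hb
  have hao := h.odd
  have hco := h'.odd
  obtain ⟨X, hX⟩ : ∃ X : ℤ, X = ((d : ℕ) : ℤ) := ⟨_, rfl⟩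
  obtain ⟨Y, hY⟩ : ∃ Y : ℤ, Y = ((c : ℕ) : ℤ) := ⟨_, rfl⟩
  have hX' := hX
  have hY' := hY
  push_cast at hX' hY'
  have hk' : ((a + 2 * b : ℕ) : ℤ) = k * Y := by rw [hk, hY]; push_cast; ring
  have ht' : ((a : ℕ) : ℤ) = ((d : ℕ) : ℤ) := by rw [ht]
  have hlt' : (a : ℤ) + 2 * b < c + 2 * d := by exact_mod_cast hlt
  push_cast at hk' ht'
  have hk1 : (1 : ℤ) ≤ k := by
    have : 0 < k := by
      rcases Nat.eq_zero_or_pos k with h0 | h0
      · exfalso
        rw [h0] at hk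
        have := h.ha
        have := h.hb
        omega
      · exact h0
    exact_mod_cast this
  have hX0 : 0 < X := by linarith
  have hY0 : 0 < Y := by linarith
  have hA : 2 * (a : ℤ) = 2 * X := by linarith
  have hB : 2 * (b : ℤ) = -X + (k * Y) := by linarith
  have hC : 2 * (c : ℤ) = 2 * Y := by linarith
  have hD : 2 * (d : ℤ) = 2 * X := by linarith
  have e := ar16 he hA hB hC hD
  have e2 : (-k - 8) * X ^ 2 + (-12) * (X * Y) + (k ^ 3 - 4) * Y ^ 2 = 0 := by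
    have hXY : 4 * X * Y ≠ 0 := by positivity
    apply mul_left_cancel₀ hXY
    linear_combination e
  exact q_BDaM hk1 hX0 hY0 (by linarith) (by linarith) (by linarith) (by linarith)
    (by linarith) (by linarith) e2

lemma n_BDca {a b c d k : ℕ} (h : Tri a b) (h' : Tri c d) (he : ar a b = ar c d)
    (hlt : a + 2 * b < c + 2 * d) (hcd : c < d) (ht : a + b = d) (hk : a = c * k) (hY2 : 2 ≤ c) :
    False := by
  have a0 : (0 : ℤ) < a := by exact_mod_cast h.ha
  have b0 : (0 : ℤ) < b := by exact_mod_cast h.hb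
  have c0 : (0 : ℤ) < c := by exact_mod_cast h'.ha
  have d0 : (0 : ℤ) < d := by exact_mod_cast h'.hb
  have hao := h.odd
  have hco := h'.odd
  obtain ⟨X, hX⟩ : ∃ X : ℤ, X = ((d : ℕ) : ℤ) := ⟨_, rfl⟩
  obtain ⟨Y, hY⟩ : ∃ Y : ℤ, Y = ((c : ℕ) : ℤ) := ⟨_, rfl⟩
  have hX' := hX
  have hY' := hY
  push_cast at hX' hY'
  have hk' : ((a : ℕ) : ℤ) = k * Y := by rw [hk, hY]; push_cast; ring
  have ht' : ((a + b : ℕ) : ℤ) = ((d : ℕ) : ℤ) := by rw [ht]
  have hlt' : (a : ℤ) + 2 * b < c + 2 * d := by exact_mod_cast hlt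
  push_cast at hk' ht'
  have hk1 : (1 : ℤ) ≤ k := by
    have : 0 < k := by
      rcases Nat.eq_zero_or_pos k with h0 | h0
      · exfalso
        rw [h0] at hk
        have := h.ha
        have := h.hb
        omega
      · exact h0
    exact_mod_cast this
  have hX0 : 0 < X := by linarith
  have hY0 : 0 < Y := by linarith
  have hA : 2 * (a : ℤ) = 2 * (k * Y) := by linarith
  have hB : 2 * (b : ℤ) = 2 * X - 2 * (k * Y) := by linarith
  have hC : 2 * (c : ℤ) = 2 * Y := by linarith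
  have hD : 2 * (d : ℤ) = 2 * X := by linarith
  have e := ar16 he hA hB hC hD
  have e2 : (2 * k - 2) * X ^ 2 + (-3 * k ^ 2 - 3) * (X * Y) + (k ^ 3 - 1) * Y ^ 2 = 0 := by
    have hXY : 16 * X * Y ≠ 0 := by positivity
    apply mul_left_cancel₀ hXY
    linear_combination e
  have e3 : ((k - 1) * X - (k ^ 2 + k + 1) * Y) * (2 * X - (k - 1) * Y) = 0 := by
    linear_combination e2
  rcases mul_eq_zero.mp e3 with h3 | h3
  · have hko : (k : ℤ) % 2 = 1 := by
      rcases Nat.mod_two_eq_zero_or_one k with h0 | h0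
      · exfalso
        rw [hk, Nat.mul_mod, h0] at hao
        simp at hao
      · omega
    obtain ⟨j, hj⟩ : ∃ j : ℤ, (k : ℤ) = 2 * j + 1 := ⟨(k - 1) / 2, by omega⟩
    obtain ⟨i, hi⟩ : ∃ i : ℤ, Y = 2 * i + 1 := ⟨(Y - 1) / 2, by omega⟩
    have h4 : 2 * (j * X) = 2 * ((2 * j ^ 2 + 3 * j + 1) * (2 * i + 1) + i) + 1 := by
      rw [hj, hi] at h3
      linear_combination h3
    omega
  · nlinarith

lemma n_BDcb {a b c d k : ℕ} (h : Tri a b) (h' : Tri c d) (he : ar a b = ar c d)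
    (hlt : a + 2 * b < c + 2 * d) (hcd : c < d) (ht : a + b = d) (hk : b = c * k) (hY2 : 2 ≤ c) :
    False := by
  have a0 : (0 : ℤ) < a := by exact_mod_cast h.ha
  have b0 : (0 : ℤ) < b := by exact_mod_cast h.hb
  have c0 : (0 : ℤ) < c := by exact_mod_cast h'.ha
  have d0 : (0 : ℤ) < d := by exact_mod_cast h'.hb
  have hao := h.odd
  have hco := h'.odd
  obtain ⟨X, hX⟩ : ∃ X : ℤ, X = ((d : ℕ) : ℤ) := ⟨_, rfl⟩
  obtain ⟨Y, hY⟩ : ∃ Y : ℤ, Y = ((c : ℕ) : ℤ) := ⟨_, rfl⟩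
  have hX' := hX
  have hY' := hY
  push_cast at hX' hY'
  have hk' : ((b : ℕ) : ℤ) = k * Y := by rw [hk, hY]; push_cast; ring
  have ht' : ((a + b : ℕ) : ℤ) = ((d : ℕ) : ℤ) := by rw [ht]
  have hlt' : (a : ℤ) + 2 * b < c + 2 * d := by exact_mod_cast hlt
  push_cast at hk' ht'
  have hk1 : (1 : ℤ) ≤ k := by
    have : 0 < k := by
      rcases Nat.eq_zero_or_pos k with h0 | h0
      · exfalso
        rw [h0] at hk
        have := h.ha
        have := h.hb
        omega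
      · exact h0
    exact_mod_cast this
  have hX0 : 0 < X := by linarith
  have hY0 : 0 < Y := by linarith
  have hA : 2 * (a : ℤ) = 2 * X - 2 * (k * Y) := by linarith
  have hB : 2 * (b : ℤ) = 2 * (k * Y) := by linarith
  have hC : 2 * (c : ℤ) = 2 * Y := by linarith
  have hD : 2 * (d : ℤ) = 2 * X := by linarith
  have e := ar16 he hA hB hC hD
  have e2 : (k - 2) * X ^ 2 + (-3) * (X * Y) + (-k ^ 3 - 1) * Y ^ 2 = 0 := by
    have hXY : 16 * X * Y ≠ 0 := by positivity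
    apply mul_left_cancel₀ hXY
    linear_combination e
  have e3 : ((k - 2) * X - (k ^ 2 - k + 1) * Y) * (X + (k + 1) * Y) = 0 := by
    linear_combination e2
  rcases mul_eq_zero.mp e3 with h3 | h3
  · obtain ⟨i, hi⟩ : ∃ i : ℤ, Y = 2 * i + 1 := ⟨(Y - 1) / 2, by omega⟩
    rcases Int.emod_two_eq_zero_or_one (k : ℤ) with hko | hko
    · obtain ⟨j, hj⟩ : ∃ j : ℤ, (k : ℤ) = 2 * j := ⟨k / 2, by omega⟩
      have h4 : 2 * ((j - 1) * X) = 2 * ((2 * j ^ 2 - j) * (2 * i + 1) + i) + 1 := by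
        rw [hj, hi] at h3
        linear_combination h3
      omega
    · obtain ⟨j, hj⟩ : ∃ j : ℤ, (k : ℤ) = 2 * j + 1 := ⟨(k - 1) / 2, by omega⟩
      rcases Int.emod_two_eq_zero_or_one X with hx | hx
      · obtain ⟨x, hx2⟩ : ∃ x : ℤ, X = 2 * x := ⟨X / 2, by omega⟩
        have h4 : 2 * ((2 * j - 1) * x) = 2 * ((2 * j ^ 2 + j) * (2 * i + 1) + i) + 1 := by
          rw [hj, hi, hx2] at h3
          linear_combination h3
        omega
      · obtain ⟨x, hx2⟩ : ∃ x : ℤ, X = 2 * x + 1 := ⟨(X - 1) / 2, by omega⟩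
        have h4 : (a : ℤ) = 2 * (x - j - i - 2 * j * i) := by
          have h5 : (a : ℤ) = X - k * Y := by linarith
          rw [h5, hj, hi, hx2]
          ring
        omega
  · nlinarith

lemma n_BDcM {a b c d k : ℕ} (h : Tri a b) (h' : Tri c d) (he : ar a b = ar c d)
    (hlt : a + 2 * b < c + 2 * d) (hcd : c < d) (ht : a + b = d) (hk : a + 2 * b = c * k) (hY2 : 2 ≤ c) :
    False := by
  have a0 : (0 : ℤ) < a := by exact_mod_cast h.ha
  have b0 : (0 : ℤ) < b := by exact_mod_cast h.hb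
  have c0 : (0 : ℤ) < c := by exact_mod_cast h'.ha
  have d0 : (0 : ℤ) < d := by exact_mod_cast h'.hb
  have hao := h.odd
  have hco := h'.odd
  obtain ⟨X, hX⟩ : ∃ X : ℤ, X = ((d : ℕ) : ℤ) := ⟨_, rfl⟩
  obtain ⟨Y, hY⟩ : ∃ Y : ℤ, Y = ((c : ℕ) : ℤ) := ⟨_, rfl⟩
  have hX' := hX
  have hY' := hY
  push_cast at hX' hY'
  have hk' : ((a + 2 * b : ℕ) : ℤ) = k * Y := by rw [hk, hY]; push_cast; ring
  have ht' : ((a + b : ℕ) : ℤ) = ((d : ℕ) : ℤ) := by rw [ht]
  have hlt' : (a : ℤ) + 2 * b < c + 2 * d := by exact_mod_cast hlt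
  push_cast at hk' ht'
  have hk1 : (1 : ℤ) ≤ k := by
    have : 0 < k := by
      rcases Nat.eq_zero_or_pos k with h0 | h0
      · exfalso
        rw [h0] at hk
        have := h.ha
        have := h.hb
        omega
      · exact h0
    exact_mod_cast this
  have hX0 : 0 < X := by linarith
  have hY0 : 0 < Y := by linarith
  have hA : 2 * (a : ℤ) = 4 * X - 2 * (k * Y) := by linarith
  have hB : 2 * (b : ℤ) = -2 * X + 2 * (k * Y) := by linarith
  have hC : 2 * (c : ℤ) = 2 * Y := by linarith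
  have hD : 2 * (d : ℤ) = 2 * X := by linarith
  have e := ar16 he hA hB hC hD
  have e2 : (-2 * k - 2) * X ^ 2 + (3 * k ^ 2 - 3) * (X * Y) + (-k ^ 3 - 1) * Y ^ 2 = 0 := by
    have hXY : 16 * X * Y ≠ 0 := by positivity
    apply mul_left_cancel₀ hXY
    linear_combination e
  rcases q_BDcM hk1 hX0 hY0 (by linarith) (by linarith) (by linarith) (by linarith)
    (by linarith) (by linarith) e2 with r | r | r
  · rw [hX, hY] at r
    have r2 : 2 * (d) = 13 * (c) := by exact_mod_cast r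
    obtain ⟨r3, r4⟩ := rel_cop h'.cop.symm (by norm_num) r2
    omega
  · rw [hX, hY] at r
    have r2 : 1 * (d) = 7 * (c) := by exact_mod_cast r
    obtain ⟨r3, r4⟩ := rel_cop h'.cop.symm (by norm_num) r2
    omega
  · rw [hX, hY] at r
    have r2 : 2 * (d) = 19 * (c) := by exact_mod_cast r
    obtain ⟨r3, r4⟩ := rel_cop h'.cop.symm (by norm_num) r2
    omega

lemma n_BDc2a {a b c d k : ℕ} (h : Tri a b) (h' : Tri c d) (he : ar a b = ar c d)
    (hlt : a + 2 * b < c + 2 * d) (hcd : c < d) (ht : a + b = 2 * d) (hk : a = c * k) (hY2 : 2 ≤ c) :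
    False := by
  have a0 : (0 : ℤ) < a := by exact_mod_cast h.ha
  have b0 : (0 : ℤ) < b := by exact_mod_cast h.hb
  have c0 : (0 : ℤ) < c := by exact_mod_cast h'.ha
  have d0 : (0 : ℤ) < d := by exact_mod_cast h'.hb
  have hao := h.odd
  have hco := h'.odd
  obtain ⟨X, hX⟩ : ∃ X : ℤ, X = ((d : ℕ) : ℤ) := ⟨_, rfl⟩
  obtain ⟨Y, hY⟩ : ∃ Y : ℤ, Y = ((c : ℕ) : ℤ) := ⟨_, rfl⟩
  have hX' := hX
  have hY' := hY
  push_cast at hX' hY'
  have hk' : ((a : ℕ) : ℤ) = k * Y := by rw [hk, hY]; push_cast; ring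
  have ht' : ((a + b : ℕ) : ℤ) = ((2 * d : ℕ) : ℤ) := by rw [ht]
  have hlt' : (a : ℤ) + 2 * b < c + 2 * d := by exact_mod_cast hlt
  push_cast at hk' ht'
  have hk1 : (1 : ℤ) ≤ k := by
    have : 0 < k := by
      rcases Nat.eq_zero_or_pos k with h0 | h0
      · exfalso
        rw [h0] at hk
        have := h.ha
        have := h.hb
        omega
      · exact h0
    exact_mod_cast this
  have hX0 : 0 < X := by linarith
  have hY0 : 0 < Y := by linarith
  have hA : 2 * (a : ℤ) = 2 * (k * Y) := by linarith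
  have hB : 2 * (b : ℤ) = 4 * X - 2 * (k * Y) := by linarith
  have hC : 2 * (c : ℤ) = 2 * Y := by linarith
  have hD : 2 * (d : ℤ) = 2 * X := by linarith
  have e := ar16 he hA hB hC hD
  have e2 : (16 * k - 2) * X ^ 2 + (-12 * k ^ 2 - 3) * (X * Y) + (2 * k ^ 3 - 1) * Y ^ 2 = 0 := by
    have hXY : 16 * X * Y ≠ 0 := by positivity
    apply mul_left_cancel₀ hXY
    linear_combination e
  exact q_BDc2a hk1 hX0 hY0 (by linarith) (by linarith) (by linarith) (by linarith)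
    (by linarith) (by linarith) e2

lemma n_BDc2b {a b c d k : ℕ} (h : Tri a b) (h' : Tri c d) (he : ar a b = ar c d)
    (hlt : a + 2 * b < c + 2 * d) (hcd : c < d) (ht : a + b = 2 * d) (hk : b = c * k) (hY2 : 2 ≤ c) :
    False := by
  have a0 : (0 : ℤ) < a := by exact_mod_cast h.ha
  have b0 : (0 : ℤ) < b := by exact_mod_cast h.hb
  have c0 : (0 : ℤ) < c := by exact_mod_cast h'.ha
  have d0 : (0 : ℤ) < d := by exact_mod_cast h'.hb
  have hao := h.odd
  have hco := h'.odd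
  obtain ⟨X, hX⟩ : ∃ X : ℤ, X = ((d : ℕ) : ℤ) := ⟨_, rfl⟩
  obtain ⟨Y, hY⟩ : ∃ Y : ℤ, Y = ((c : ℕ) : ℤ) := ⟨_, rfl⟩
  have hX' := hX
  have hY' := hY
  push_cast at hX' hY'
  have hk' : ((b : ℕ) : ℤ) = k * Y := by rw [hk, hY]; push_cast; ring
  have ht' : ((a + b : ℕ) : ℤ) = ((2 * d : ℕ) : ℤ) := by rw [ht]
  have hlt' : (a : ℤ) + 2 * b < c + 2 * d := by exact_mod_cast hlt
  push_cast at hk' ht'
  have hk1 : (1 : ℤ) ≤ k := by
    have : 0 < k := by
      rcases Nat.eq_zero_or_pos k with h0 | h0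
      · exfalso
        rw [h0] at hk
        have := h.ha
        have := h.hb
        omega
      · exact h0
    exact_mod_cast this
  have hX0 : 0 < X := by linarith
  have hY0 : 0 < Y := by linarith
  have hA : 2 * (a : ℤ) = 4 * X - 2 * (k * Y) := by linarith
  have hB : 2 * (b : ℤ) = 2 * (k * Y) := by linarith
  have hC : 2 * (c : ℤ) = 2 * Y := by linarith
  have hD : 2 * (d : ℤ) = 2 * X := by linarith
  have e := ar16 he hA hB hC hD
  have e2 : (8 * k - 2) * X ^ 2 + (-3) * (X * Y) + (-2 * k ^ 3 - 1) * Y ^ 2 = 0 := by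
    have hXY : 16 * X * Y ≠ 0 := by positivity
    apply mul_left_cancel₀ hXY
    linear_combination e
  exact q_BDc2b hk1 hX0 hY0 (by linarith) (by linarith) (by linarith) (by linarith)
    (by linarith) (by linarith) e2

lemma n_BDc2M {a b c d k : ℕ} (h : Tri a b) (h' : Tri c d) (he : ar a b = ar c d)
    (hlt : a + 2 * b < c + 2 * d) (hcd : c < d) (ht : a + b = 2 * d) (hk : a + 2 * b = c * k) (hY2 : 2 ≤ c) :
    False := by
  have a0 : (0 : ℤ) < a := by exact_mod_cast h.ha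
  have b0 : (0 : ℤ) < b := by exact_mod_cast h.hb
  have c0 : (0 : ℤ) < c := by exact_mod_cast h'.ha
  have d0 : (0 : ℤ) < d := by exact_mod_cast h'.hb
  have hao := h.odd
  have hco := h'.odd
  obtain ⟨X, hX⟩ : ∃ X : ℤ, X = ((d : ℕ) : ℤ) := ⟨_, rfl⟩
  obtain ⟨Y, hY⟩ : ∃ Y : ℤ, Y = ((c : ℕ) : ℤ) := ⟨_, rfl⟩
  have hX' := hX
  have hY' := hY
  push_cast at hX' hY'
  have hk' : ((a + 2 * b : ℕ) : ℤ) = k * Y := by rw [hk, hY]; push_cast; ring
  have ht' : ((a + b : ℕ) : ℤ) = ((2 * d : ℕ) : ℤ) := by rw [ht]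
  have hlt' : (a : ℤ) + 2 * b < c + 2 * d := by exact_mod_cast hlt
  push_cast at hk' ht'
  have hk1 : (1 : ℤ) ≤ k := by
    have : 0 < k := by
      rcases Nat.eq_zero_or_pos k with h0 | h0
      · exfalso
        rw [h0] at hk
        have := h.ha
        have := h.hb
        omega
      · exact h0
    exact_mod_cast this
  have hX0 : 0 < X := by linarith
  have hY0 : 0 < Y := by linarith
  have hA : 2 * (a : ℤ) = 8 * X - 2 * (k * Y) := by linarith
  have hB : 2 * (b : ℤ) = -4 * X + 2 * (k * Y) := by linarith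
  have hC : 2 * (c : ℤ) = 2 * Y := by linarith
  have hD : 2 * (d : ℤ) = 2 * X := by linarith
  have e := ar16 he hA hB hC hD
  have e2 : (-16 * k - 2) * X ^ 2 + (12 * k ^ 2 - 3) * (X * Y) + (-2 * k ^ 3 - 1) * Y ^ 2 = 0 := by
    have hXY : 16 * X * Y ≠ 0 := by positivity
    apply mul_left_cancel₀ hXY
    linear_combination e
  rcases q_BDc2M hk1 hX0 hY0 (by linarith) (by linarith) (by linarith) (by linarith)
    (by linarith) (by linarith) e2 with r | r
  · rw [hX, hY] at r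
    have r2 : 10 * (d) = 11 * (c) := by exact_mod_cast r
    obtain ⟨r3, r4⟩ := rel_cop h'.cop.symm (by norm_num) r2
    omega
  · rw [hX, hY] at r
    have r2 : 6 * (d) = 29 * (c) := by exact_mod_cast r
    obtain ⟨r3, r4⟩ := rel_cop h'.cop.symm (by norm_num) r2
    omega

lemma n_BDMa {a b c d k : ℕ} (h : Tri a b) (h' : Tri c d) (he : ar a b = ar c d)
    (hlt : a + 2 * b < c + 2 * d) (hcd : c < d) (ht : a + 2 * b = d) (hk : a = c * k) (hY2 : 2 ≤ c) :
    False := by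
  have a0 : (0 : ℤ) < a := by exact_mod_cast h.ha
  have b0 : (0 : ℤ) < b := by exact_mod_cast h.hb
  have c0 : (0 : ℤ) < c := by exact_mod_cast h'.ha
  have d0 : (0 : ℤ) < d := by exact_mod_cast h'.hb
  have hao := h.odd
  have hco := h'.odd
  obtain ⟨X, hX⟩ : ∃ X : ℤ, X = ((d : ℕ) : ℤ) := ⟨_, rfl⟩
  obtain ⟨Y, hY⟩ : ∃ Y : ℤ, Y = ((c : ℕ) : ℤ) := ⟨_, rfl⟩
  have hX' := hX
  have hY' := hY
  push_cast at hX' hY'
  have hk' : ((a : ℕ) : ℤ) = k * Y := by rw [hk, hY]; push_cast; ring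
  have ht' : ((a + 2 * b : ℕ) : ℤ) = ((d : ℕ) : ℤ) := by rw [ht]
  have hlt' : (a : ℤ) + 2 * b < c + 2 * d := by exact_mod_cast hlt
  push_cast at hk' ht'
  have hk1 : (1 : ℤ) ≤ k := by
    have : 0 < k := by
      rcases Nat.eq_zero_or_pos k with h0 | h0
      · exfalso
        rw [h0] at hk
        have := h.ha
        have := h.hb
        omega
      · exact h0
    exact_mod_cast this
  have hX0 : 0 < X := by linarith
  have hY0 : 0 < Y := by linarith
  have hA : 2 * (a : ℤ) = 2 * (k * Y) := by linarith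
  have hB : 2 * (b : ℤ) = X - (k * Y) := by linarith
  have hC : 2 * (c : ℤ) = 2 * Y := by linarith
  have hD : 2 * (d : ℤ) = 2 * X := by linarith
  have e := ar16 he hA hB hC hD
  have e2 : (k - 8) * X ^ 2 + (-12) * (X * Y) + (-k ^ 3 - 4) * Y ^ 2 = 0 := by
    have hXY : 4 * X * Y ≠ 0 := by positivity
    apply mul_left_cancel₀ hXY
    linear_combination e
  exact q_BDMa hk1 hX0 hY0 (by linarith) (by linarith) (by linarith) (by linarith)
    (by linarith) (by linarith) e2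

lemma n_BDMb {a b c d k : ℕ} (h : Tri a b) (h' : Tri c d) (he : ar a b = ar c d)
    (hlt : a + 2 * b < c + 2 * d) (hcd : c < d) (ht : a + 2 * b = d) (hk : b = c * k) (hY2 : 2 ≤ c) :
    False := by
  have a0 : (0 : ℤ) < a := by exact_mod_cast h.ha
  have b0 : (0 : ℤ) < b := by exact_mod_cast h.hb
  have c0 : (0 : ℤ) < c := by exact_mod_cast h'.ha
  have d0 : (0 : ℤ) < d := by exact_mod_cast h'.hb
  have hao := h.odd
  have hco := h'.odd
  obtain ⟨X, hX⟩ : ∃ X : ℤ, X = ((d : ℕ) : ℤ) := ⟨_, rfl⟩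
  obtain ⟨Y, hY⟩ : ∃ Y : ℤ, Y = ((c : ℕ) : ℤ) := ⟨_, rfl⟩
  have hX' := hX
  have hY' := hY
  push_cast at hX' hY'
  have hk' : ((b : ℕ) : ℤ) = k * Y := by rw [hk, hY]; push_cast; ring
  have ht' : ((a + 2 * b : ℕ) : ℤ) = ((d : ℕ) : ℤ) := by rw [ht]
  have hlt' : (a : ℤ) + 2 * b < c + 2 * d := by exact_mod_cast hlt
  push_cast at hk' ht'
  have hk1 : (1 : ℤ) ≤ k := by
    have : 0 < k := by
      rcases Nat.eq_zero_or_pos k with h0 | h0
      · exfalso
        rw [h0] at hk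
        have := h.ha
        have := h.hb
        omega
      · exact h0
    exact_mod_cast this
  have hX0 : 0 < X := by linarith
  have hY0 : 0 < Y := by linarith
  have hA : 2 * (a : ℤ) = 2 * X - 4 * (k * Y) := by linarith
  have hB : 2 * (b : ℤ) = 2 * (k * Y) := by linarith
  have hC : 2 * (c : ℤ) = 2 * Y := by linarith
  have hD : 2 * (d : ℤ) = 2 * X := by linarith
  have e := ar16 he hA hB hC hD
  have e2 : (k - 2) * X ^ 2 + (-3 * k ^ 2 - 3) * (X * Y) + (2 * k ^ 3 - 1) * Y ^ 2 = 0 := by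
    have hXY : 16 * X * Y ≠ 0 := by positivity
    apply mul_left_cancel₀ hXY
    linear_combination e
  exact q_BDMb hk1 hX0 hY0 (by linarith) (by linarith) (by linarith) (by linarith)
    (by linarith) (by linarith) e2

lemma n_BDMc {a b c d k : ℕ} (h : Tri a b) (h' : Tri c d) (he : ar a b = ar c d)
    (hlt : a + 2 * b < c + 2 * d) (hcd : c < d) (ht : a + 2 * b = d) (hk : a + b = c * k) (hY2 : 2 ≤ c) :
    False := by
  have a0 : (0 : ℤ) < a := by exact_mod_cast h.ha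
  have b0 : (0 : ℤ) < b := by exact_mod_cast h.hb
  have c0 : (0 : ℤ) < c := by exact_mod_cast h'.ha
  have d0 : (0 : ℤ) < d := by exact_mod_cast h'.hb
  have hao := h.odd
  have hco := h'.odd
  obtain ⟨X, hX⟩ : ∃ X : ℤ, X = ((d : ℕ) : ℤ) := ⟨_, rfl⟩
  obtain ⟨Y, hY⟩ : ∃ Y : ℤ, Y = ((c : ℕ) : ℤ) := ⟨_, rfl⟩
  have hX' := hX
  have hY' := hY
  push_cast at hX' hY'
  have hk' : ((a + b : ℕ) : ℤ) = k * Y := by rw [hk, hY]; push_cast; ring
  have ht' : ((a + 2 * b : ℕ) : ℤ) = ((d : ℕ) : ℤ) := by rw [ht]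
  have hlt' : (a : ℤ) + 2 * b < c + 2 * d := by exact_mod_cast hlt
  push_cast at hk' ht'
  have hk1 : (1 : ℤ) ≤ k := by
    have : 0 < k := by
      rcases Nat.eq_zero_or_pos k with h0 | h0
      · exfalso
        rw [h0] at hk
        have := h.ha
        have := h.hb
        omega
      · exact h0
    exact_mod_cast this
  have hX0 : 0 < X := by linarith
  have hY0 : 0 < Y := by linarith
  have hA : 2 * (a : ℤ) = -2 * X + 4 * (k * Y) := by linarith
  have hB : 2 * (b : ℤ) = 2 * X - 2 * (k * Y) := by linarith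
  have hC : 2 * (c : ℤ) = 2 * Y := by linarith
  have hD : 2 * (d : ℤ) = 2 * X := by linarith
  have e := ar16 he hA hB hC hD
  have e2 : (-k - 2) * X ^ 2 + (3 * k ^ 2 - 3) * (X * Y) + (-2 * k ^ 3 - 1) * Y ^ 2 = 0 := by
    have hXY : 16 * X * Y ≠ 0 := by positivity
    apply mul_left_cancel₀ hXY
    linear_combination e
  exact q_BDMc hk1 hX0 hY0 (by linarith) (by linarith) (by linarith) (by linarith)
    (by linarith) (by linarith) e2

end Pool.Agent.H83.PT
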