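import Pool.Agent.H83.PT6.Fam
import Pool.Agent.H83.PT6.Def

/-!
Pairs of triangles of the same area with at most six primes.
-/

namespace Pool.Agent.H83.PT

lemma mult3 {v x : ℕ} (hx : 0 < x) (hlt : x < 3 * v) (hd : v ∣ x) : x = v ∨ x = 2 * v := by
  obtain ⟨s, hs⟩ := hd
  rcases Nat.lt_or_ge s 3 with s2 | s2
  · have : s = 0 ∨ s = 1 ∨ s = 2 := by omega
    rcases this with rfl | rfl | rfl
    · omega
    · omega
    · right; omega
  · exfalso
    have : v * 3 ≤ v * s := Nat.mul_le_mul_left v s2
    omega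

lemma two_le_last {a b c d : ℕ} (h : Tri a b) (h' : Tri c d) (he : ar a b = ar c d)
    (hlt : a + 2 * b < c + 2 * d) : 2 ≤ (c + 2 * d).primeFactors.card := by
  have hb := h.hb
  have ha := h.ha
  have c4 : (c + 2 * d) ∣ ar a b := by
    rw [he]; unfold ar
    exact Dvd.intro (c * d * (c + d)) (by ring)
  by_contra hw
  rcases key h (by omega) (by omega) c4 with k | k | k | k
  · have := Nat.le_of_dvd ha k
    omega
  · have := Nat.le_of_dvd hb k
    omega
  · have := Nat.le_of_dvd (by omega) k
    omega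
  · have := Nat.le_of_dvd (by omega) k
    omega

lemma ar_lt_left {a c d : ℕ} (hd : 0 < d) (h : a < c) : ar a d < ar c d := by
  unfold ar
  have h1 : a * d < c * d := Nat.mul_lt_mul_of_pos_right h hd
  have h2 : a * d * (a + d) ≤ c * d * (c + d) := Nat.mul_le_mul h1.le (by omega)
  have h3 : a + 2 * d < c + 2 * d := by omega
  have hc : 0 < c := by omega
  have h4 : 0 < c * d * (c + d) := by positivity
  calc a * d * (a + d) * (a + 2 * d) ≤ c * d * (c + d) * (a + 2 * d) :=
        Nat.mul_le_mul_right _ h2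
    _ < c * d * (c + d) * (c + 2 * d) := Nat.mul_lt_mul_of_pos_left h3 h4

lemma ar_lt_right {a b d : ℕ} (ha : 0 < a) (h : b < d) : ar a b < ar a d := by
  unfold ar
  have h1 : a * b < a * d := Nat.mul_lt_mul_of_pos_left h ha
  have h2 : a * b * (a + b) ≤ a * d * (a + d) := Nat.mul_le_mul h1.le (by omega)
  have h3 : a + 2 * b < a + 2 * d := by omega
  have hd : 0 < d := by omega
  have h4 : 0 < a * d * (a + d) := by positivity
  calc a * b * (a + b) * (a + 2 * b) ≤ a * d * (a + d) * (a + 2 * b) :=
        Nat.mul_le_mul_right _ h2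
    _ < a * d * (a + d) * (a + 2 * d) := Nat.mul_lt_mul_of_pos_left h3 h4

lemma b_eq_c {a c d : ℕ} (hc : 0 < c) (hdc : d < c) (h : a + 2 * c < c + 2 * d)
    (he : ar a c = ar c d) : False := by
  unfold ar at he
  have e1 : a * (a + c) * (a + 2 * c) = d * (c + d) * (c + 2 * d) := by
    apply Nat.eq_of_mul_eq_mul_left hc
    calc c * (a * (a + c) * (a + 2 * c)) = a * c * (a + c) * (a + 2 * c) := by ring
      _ = c * d * (c + d) * (c + 2 * d) := he
      _ = c * (d * (c + d) * (c + 2 * d)) := by ring
  have h1 : 2 * a < c + d := by omega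
  have h2 : a + c < 2 * d := by omega
  have h3 : (2 * a) * (a + c) < (c + d) * (2 * d) := Nat.mul_lt_mul'' h1 h2
  have h4 : a * (a + c) < d * (c + d) := by nlinarith
  have h5 : a * (a + c) * (a + 2 * c) < d * (c + d) * (c + 2 * d) := Nat.mul_lt_mul'' h4 h
  omega

lemma not_dvd_cop {u v : ℕ} (hu : 2 ≤ u) (hc : u.Coprime v) (hd : u ∣ v) : False := by
  have := Nat.Coprime.eq_one_of_dvd hc hd
  omega

/-- third part a prime power -/
lemma case_x {a b c d : ℕ} (h : Tri a b) (h' : Tri c d) (he : ar a b = ar c d)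
    (hlt : a + 2 * b < c + 2 * d) (hc2 : 2 ≤ c) (hd2 : 2 ≤ d)
    (hw : c.primeFactors.card ≤ 1 ∨ d.primeFactors.card ≤ 1)
    (hs : a = c + d ∨ a + 2 * b = c + d) : ar c d = 106260 := by
  have c1 : c ∣ ar a b := by
    rw [he]; unfold ar
    exact Dvd.intro (d * (c + d) * (c + 2 * d)) (by ring)
  have c2 : d ∣ ar a b := by
    rw [he]; unfold ar
    exact Dvd.intro (c * (c + d) * (c + 2 * d)) (by ring)
  rcases hw with hw | hw
  · rcases key h (by omega) hw c1 with ⟨k, hk⟩ | ⟨k, hk⟩ | ⟨k, hk⟩ | ⟨k, hk⟩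
    · rcases hs with hs | hs
      · exact (not_dvd_cop hc2 (cop_ac h') (hs ▸ Dvd.intro k hk.symm)).elim
      · exact (n_XCMa h h' he hlt hs hk hc2).elim
    · rcases hs with hs | hs
      · exact (n_XCab h h' he hlt hs hk hc2).elim
      · exact (n_XCMb h h' he hlt hs hk hc2).elim
    · rcases hs with hs | hs
      · exact (n_XCac h h' he hlt hs hk hc2).elim
      · exact (n_XCMc h h' he hlt hs hk hc2).elim
    · rcases hs with hs | hs
      · exact n_XCaM h h' he hlt hs hk hc2
      · exact (not_dvd_cop hc2 (cop_ac h') (hs ▸ Dvd.intro k hk.symm)).elim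
  · rcases key h (by omega) hw c2 with ⟨k, hk⟩ | ⟨k, hk⟩ | ⟨k, hk⟩ | ⟨k, hk⟩
    · rcases hs with hs | hs
      · exact (not_dvd_cop hd2 (cop_bc h') (hs ▸ Dvd.intro k hk.symm)).elim
      · exact (n_XDMa h h' he hlt hs hk hd2).elim
    · rcases hs with hs | hs
      · exact (n_XDab h h' he hlt hs hk hd2).elim
      · exact (n_XDMb h h' he hlt hs hk hd2).elim
    · rcases hs with hs | hs
      · exact (n_XDac h h' he hlt hs hk hd2).elim
      · exact (n_XDMc h h' he hlt hs hk hd2).elim
    · rcases hs with hs | hs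
      · exact (n_XDaM h h' he hlt hs hk hd2).elim
      · exact (not_dvd_cop hd2 (cop_bc h') (hs ▸ Dvd.intro k hk.symm)).elim

/-- first two parts prime powers, `c < d` -/
lemma case_bd {a b c d : ℕ} (h : Tri a b) (h' : Tri c d) (he : ar a b = ar c d)
    (hlt : a + 2 * b < c + 2 * d) (hc2 : 2 ≤ c) (hcd : c < d)
    (hw1 : c.primeFactors.card ≤ 1) (hw2 : d.primeFactors.card ≤ 1) : False := by
  have ha := h.ha
  have hb := h.hb
  have hao := h.odd
  have hco := h'.odd
  have c1 : c ∣ ar a b := by
    rw [he]; unfold ar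
    exact Dvd.intro (d * (c + d) * (c + 2 * d)) (by ring)
  have c2 : d ∣ ar a b := by
    rw [he]; unfold ar
    exact Dvd.intro (c * (c + d) * (c + 2 * d)) (by ring)
  have kc := key h (by omega) hw1 c1
  rcases key h (by omega) hw2 c2 with q | q | q | q
  · rcases mult3 ha (by omega) q with r | r
    · rcases kc with ⟨k, hk⟩ | ⟨k, hk⟩ | ⟨k, hk⟩ | ⟨k, hk⟩
      · exact not_dvd_cop hc2 h'.cop (r ▸ Dvd.intro k hk.symm)
      · exact n_BDab h h' he hlt hcd r hk hc2
      · exact n_BDac h h' he hlt hcd r hk hc2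
      · exact n_BDaM h h' he hlt hcd r hk hc2
    · omega
  · have r : b = d := by
      rcases mult3 hb (by omega) q with r | r
      · exact r
      · omega
    subst r
    have := ar_lt_left (a := a) (c := c) hb (by omega)
    omega
  · rcases mult3 (by omega) (by omega) q with r | r
    · rcases kc with ⟨k, hk⟩ | ⟨k, hk⟩ | ⟨k, hk⟩ | ⟨k, hk⟩
      · exact n_BDca h h' he hlt hcd r hk hc2
      · exact n_BDcb h h' he hlt hcd r hk hc2
      · exact not_dvd_cop hc2 h'.cop (r ▸ Dvd.intro k hk.symm)
      · exact n_BDcM h h' he hlt hcd r hk hc2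
    · rcases kc with ⟨k, hk⟩ | ⟨k, hk⟩ | ⟨k, hk⟩ | ⟨k, hk⟩
      · exact n_BDc2a h h' he hlt hcd r hk hc2
      · exact n_BDc2b h h' he hlt hcd r hk hc2
      · have h5 : c ∣ 2 * d := r ▸ Dvd.intro k hk.symm
        have h6 : c.Coprime 2 := by
          rw [Nat.coprime_two_right, Nat.odd_iff]
          exact hco
        exact not_dvd_cop hc2 h'.cop (h6.dvd_of_dvd_mul_left h5)
      · exact n_BDc2M h h' he hlt hcd r hk hc2
  · rcases mult3 (by omega) (by omega) q with r | r
    · rcases kc with ⟨k, hk⟩ | ⟨k, hk⟩ | ⟨k, hk⟩ | ⟨k, hk⟩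
      · exact n_BDMa h h' he hlt hcd r hk hc2
      · exact n_BDMb h h' he hlt hcd r hk hc2
      · exact n_BDMc h h' he hlt hcd r hk hc2
      · exact not_dvd_cop hc2 h'.cop (r ▸ Dvd.intro k hk.symm)
    · omega

/-- first two parts prime powers, `d < c` -/
lemma case_bc {a b c d : ℕ} (h : Tri a b) (h' : Tri c d) (he : ar a b = ar c d)
    (hlt : a + 2 * b < c + 2 * d) (hd2 : 2 ≤ d) (hdc : d < c)
    (hw1 : c.primeFactors.card ≤ 1) (hw2 : d.primeFactors.card ≤ 1) : a + 2 * b = c := by
  have ha := h.ha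
  have hb := h.hb
  have hao := h.odd
  have hco := h'.odd
  have c1 : c ∣ ar a b := by
    rw [he]; unfold ar
    exact Dvd.intro (d * (c + d) * (c + 2 * d)) (by ring)
  have c2 : d ∣ ar a b := by
    rw [he]; unfold ar
    exact Dvd.intro (c * (c + d) * (c + 2 * d)) (by ring)
  have kd := key h (by omega) hw2 c2
  rcases key h (by omega) hw1 c1 with q | q | q | q
  · exfalso
    rcases mult3 ha (by omega) q with r | r
    · subst r
      have := ar_lt_right (b := b) (d := d) ha (by omega)
      omega
    · omega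
  · exfalso
    have r : b = c := by
      rcases mult3 hb (by omega) q with r | r
      · exact r
      · omega
    subst r
    exact b_eq_c hb hdc hlt he
  · exfalso
    rcases mult3 (by omega) (by omega) q with r | r
    · rcases kd with ⟨k, hk⟩ | ⟨k, hk⟩ | ⟨k, hk⟩ | ⟨k, hk⟩
      · exact n_BCca h h' he hlt hdc r hk hd2
      · exact n_BCcb h h' he hlt hdc r hk hd2
      · exact not_dvd_cop hd2 h'.cop.symm (r ▸ Dvd.intro k hk.symm)
      · exact n_BCcM h h' he hlt hdc r hk hd2
    · rcases kd with ⟨k, hk⟩ | ⟨k, hk⟩ | ⟨k, hk⟩ | ⟨k, hk⟩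
      · exact n_BCc2a h h' he hlt hdc r hk hd2
      · exact n_BCc2b h h' he hlt hdc r hk hd2
      · have h5 : d ∣ 2 * c := r ▸ Dvd.intro k hk.symm
        have h6 : d ∣ 2 := h'.cop.symm.dvd_of_dvd_mul_right h5
        have := Nat.le_of_dvd (by norm_num) h6
        omega
      · exact n_BCc2M h h' he hlt hdc r hk hd2
  · rcases mult3 (by omega) (by omega) q with r | r
    · exact r
    · omega

lemma lt_case_unit {a b c : ℕ} (h : Tri a b) (h' : Tri c 1) (he : ar a b = ar c 1)
    (hlt : a + 2 * b < c + 2 * 1) (w1 : c.primeFactors.card < 2) :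
    ar c 1 = 7980 ∨ ar c 1 = 2730 := by
  have hb := h.hb
  have ha := h.ha
  have hc := h'.ha
  have ho := h.odd
  have ho' := h'.odd
  have c1 : c ∣ ar a b := by
    rw [he]; unfold ar
    exact Dvd.intro (1 * (c + 1) * (c + 2 * 1)) (by ring)
  have hcle : c ≤ a + 2 * b := by
    rcases key h hc (by omega) c1 with k | k | k | k
    · have := Nat.le_of_dvd ha k
      omega
    · have := Nat.le_of_dvd hb k
      omega
    · have := Nat.le_of_dvd (by omega) k
      omega
    · exact Nat.le_of_dvd (by omega) k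
  have hc2 : a + 2 * b = c := by omega
  have e1 : a * b * (a + b) = (a + 2 * b + 1) * (a + 2 * b + 2) := by
    have hp : 0 < a + 2 * b := by omega
    apply Nat.eq_of_mul_eq_mul_left hp
    calc (a + 2 * b) * (a * b * (a + b)) = ar a b := by unfold ar; ring
      _ = ar c 1 := he
      _ = c * ((c + 1) * (c + 2)) := by unfold ar; ring
      _ = (a + 2 * b) * ((a + 2 * b + 1) * (a + 2 * b + 2)) := by rw [hc2]
  rcases Pool.Agent.H83.PT.e1 ho hb e1 with ⟨x, y⟩ | ⟨x, y⟩
  · left
    rw [← he, x, y]
    rfl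
  · right
    rw [← he, x, y]
    rfl

lemma lt_case_unit2 {a b d : ℕ} (h : Tri a b) (h' : Tri 1 d) (he : ar a b = ar 1 d)
    (hlt : a + 2 * b < 1 + 2 * d) (w1 : d.primeFactors.card < 2) : False := by
  have hb := h.hb
  have ha := h.ha
  have hd := h'.hb
  have ho := h.odd
  have c2 : d ∣ ar a b := by
    rw [he]; unfold ar
    exact Dvd.intro (1 * (1 + d) * (1 + 2 * d)) (by ring)
  have e0 : a * b * (a + b) * (a + 2 * b) = d * ((d + 1) * (2 * d + 1)) := by
    calc a * b * (a + b) * (a + 2 * b) = ar a b := by unfold ar; ring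
      _ = ar 1 d := he
      _ = d * ((d + 1) * (2 * d + 1)) := by unfold ar; ring
  rcases key h hd (by omega) c2 with k | k | k | k
  · have h1 := eq_of_dvd ha (by omega) k
    subst h1
    have e1 : b * (a + b) * (a + 2 * b) = (a + 1) * (2 * a + 1) := by
      apply Nat.eq_of_mul_eq_mul_left ha
      rw [← e0]; ring
    rcases Nat.lt_or_ge b 2 with hb1 | hb1
    · have : b = 1 := by omega
      subst this
      nlinarith
    · obtain ⟨v, rfl⟩ := Nat.exists_eq_add_of_le hb1
      nlinarith [Nat.zero_le (v * a), Nat.zero_le (v * v), Nat.zero_le (v * v * v),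
        Nat.zero_le (a * a), Nat.zero_le (v * a * a), Nat.zero_le (v * v * a)]
  · have h1 := eq_of_dvd hb (by omega) k
    omega
  · have h1 := eq_of_dvd (by omega) (by omega) k
    refine e2 ho hb ?_
    have hp : 0 < a + b := by omega
    apply Nat.eq_of_mul_eq_mul_left hp
    calc (a + b) * (a * b * (a + 2 * b)) = a * b * (a + b) * (a + 2 * b) := by ring
      _ = d * ((d + 1) * (2 * d + 1)) := e0
      _ = (a + b) * ((a + b + 1) * (2 * (a + b) + 1)) := by rw [h1]
  · have h1 := eq_of_dvd (by omega) (by omega) k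
    refine e3 ho hb ?_
    have hp : 0 < a + 2 * b := by omega
    apply Nat.eq_of_mul_eq_mul_left hp
    calc (a + 2 * b) * (a * b * (a + b)) = a * b * (a + b) * (a + 2 * b) := by ring
      _ = d * ((d + 1) * (2 * d + 1)) := e0
      _ = (a + 2 * b) * ((a + 2 * b + 1) * (2 * (a + 2 * b) + 1)) := by rw [h1]

theorem lt6 {a b c d : ℕ} (h : Tri a b) (h' : Tri c d) (he : ar a b = ar c d)
    (hlt : a + 2 * b < c + 2 * d) (h6 : (ar c d).primeFactors.card ≤ 6) :
    (ar c d = 2730 ∨ ar c d = 7980 ∨ ar c d = 106260) ∨ a + 2 * b = c ∨ U c d := by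
  have hb := h.hb
  have ha := h.ha
  have hc := h'.ha
  have hd := h'.hb
  have ho := h.odd
  have ho' := h'.odd
  have hsum := card_ar h'
  have c3 : (c + d) ∣ ar a b := by
    rw [he]; unfold ar
    exact Dvd.intro (c * d * (c + 2 * d)) (by ring)
  have w4 := two_le_last h h' he hlt
  have p1 : c = 1 ∨ 1 ≤ c.primeFactors.card := by
    rcases Nat.lt_or_ge 1 c with k | k
    · exact Or.inr (card_pos k)
    · left
      omega
  have p2 : d = 1 ∨ 1 ≤ d.primeFactors.card := by
    rcases Nat.lt_or_ge 1 d with k | k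
    · exact Or.inr (card_pos k)
    · left
      omega
  have p3 : 1 ≤ (c + d).primeFactors.card := card_pos (by omega)
  rcases Nat.lt_or_ge (c + d).primeFactors.card 2 with w3 | w3
  · have hs : a = c + d ∨ a + 2 * b = c + d := by
      rcases key h (by omega) (by omega) c3 with k | k | k | k
      · exact Or.inl (eq_of_dvd ha (by omega) k)
      · have h1 := eq_of_dvd hb (by omega) k
        omega
      · exact (same_c h h' he (eq_of_dvd (by omega) (by omega) k) hlt).elim
      · exact Or.inr (eq_of_dvd (by omega) (by omega) k)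
    by_cases hw : c = 1 ∨ d = 1 ∨ (c.primeFactors.card ≤ 1 ∧ d.primeFactors.card ≤ 1)
    · exfalso
      rcases hs with hs | hs
      · exact case_a h h' he hs hlt hw
      · exact case_d h h' he hs hw
    · push Not at hw
      obtain ⟨hw1, hw2, hw3⟩ := hw
      left; right; right
      refine case_x h h' he hlt (by omega) (by omega) ?_ hs
      by_contra hcon
      push Not at hcon
      omega
  · by_cases hd1 : d = 1
    · subst hd1
      have hz : (1 : ℕ).primeFactors.card = 0 := by simp
      rw [hz] at hsum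
      rcases Nat.lt_or_ge c.primeFactors.card 2 with w1 | w1
      · left
        rcases lt_case_unit h h' he hlt w1 with r | r
        · exact Or.inr (Or.inl r)
        · exact Or.inl r
      · right; right; left
        refine ⟨rfl, by omega, by omega, ?_⟩
        have : c + 2 * 1 = c + 2 := by ring
        rw [this] at hsum w4
        omega
    · by_cases hc1 : c = 1
      · subst hc1
        have hz : (1 : ℕ).primeFactors.card = 0 := by simp
        rw [hz] at hsum
        have hcomm : 1 + d = d + 1 := by ring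
        have hcomm2 : 1 + 2 * d = 2 * d + 1 := by ring
        rcases Nat.lt_or_ge d.primeFactors.card 2 with w1 | w1
        · exact (lt_case_unit2 h h' he hlt w1).elim
        · right; right; right
          rw [hcomm, hcomm2] at hsum
          rw [hcomm] at w3
          rw [hcomm2] at w4
          exact ⟨rfl, by omega, by omega, by omega⟩
      · have hc2 : 2 ≤ c := by omega
        have hd2 : 2 ≤ d := by omega
        rcases Nat.lt_trichotomy c d with q | q | q
        · exact (case_bd h h' he hlt hc2 q (by omega) (by omega)).elim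
        · exfalso
          subst q
          have := h'.cop
          rw [Nat.coprime_self] at this
          omega
        · right; left
          exact case_bc h h' he hlt hd2 q (by omega) (by omega)

end Pool.Agent.H83.PT
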