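import Pool.Agent.H83.PT6.Runge

/-!
The quadratic forms of the classification of pairs (generated).
-/

set_option linter.unusedVariables false

namespace Pool.Agent.H83.PT

lemma dvd_sq_root {u Y n : ℤ} (hY : Y ≠ 0) (h : u ^ 2 = n * Y ^ 2) : ∃ w : ℤ, w ^ 2 = n := by
  have h1 : Y ^ 2 ∣ u ^ 2 := Dvd.intro_left n h.symm
  have h2 : Y ∣ u := (Int.pow_dvd_pow_iff (by norm_num)).mp h1
  obtain ⟨w, rfl⟩ := h2
  refine ⟨w, ?_⟩
  have h3 : Y ^ 2 ≠ 0 := pow_ne_zero 2 hY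
  apply mul_left_cancel₀ h3
  linear_combination h

lemma quad_sq {α β γ X Y : ℤ} (hY : Y ≠ 0) (h : α * X ^ 2 + β * (X * Y) + γ * Y ^ 2 = 0) :
    ∃ w : ℤ, w ^ 2 = β ^ 2 - 4 * α * γ := by
  apply dvd_sq_root (u := 2 * α * X + β * Y) hY
  linear_combination 4 * α * h

lemma quad_sq' {α β γ X Y : ℤ} (hY : Y ≠ 0) (h : α * X ^ 2 + 2 * β * (X * Y) + γ * Y ^ 2 = 0) :
    ∃ w : ℤ, w ^ 2 = β ^ 2 - α * γ := by
  apply dvd_sq_root (u := α * X + β * Y) hY
  linear_combination α * h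

lemma q_XCab {k X Y : ℤ} (hk : 1 ≤ k) (hX : 0 < X) (hY : 0 < Y)
    (ha : 0 < 2 * X) (hb : 0 < 2 * (k * Y)) (hc : 0 < 2 * Y) (hd : 0 < 2 * X - 2 * Y)
    (hM : 2 * X + 4 * (k * Y) < 4 * X - 2 * Y)
    (e : (k - 2) * X ^ 2 + (3 * k ^ 2 + 3) * (X * Y) + (2 * k ^ 3 - 1) * Y ^ 2 = 0) :
    False := by
  rcases lt_or_ge k 2 with h | h
  · have : k = 1 := by omega
    subst this
    have h2 : ∃ w : ℤ, w ^ 2 = 10 := by
      obtain ⟨w, hw⟩ := quad_sq' (X := X) (α := -1) (β := 3) (γ := 1) hY.ne' (by linear_combination e)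
      exact ⟨w, by linear_combination hw⟩
    obtain ⟨w, hw⟩ := h2
    have h3 : w < 4 := by nlinarith
    have h4 : -4 < w := by nlinarith
    interval_cases w <;> omega
  · obtain ⟨j, rfl⟩ : ∃ j, k = j + 2 := ⟨k - 2, by ring⟩
    have hj : 0 ≤ j := by omega
    have h1 : 0 < X * Y := mul_pos hX hY
    have h2 : 0 ≤ j * X ^ 2 := by positivity
    have h3 : 0 ≤ (3 * j ^ 2 + 12 * j) * (X * Y) := by positivity
    have h4 : 0 ≤ (2 * j ^ 3 + 12 * j ^ 2 + 24 * j) * Y ^ 2 := by positivity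
    have h5 : 0 < Y ^ 2 := by positivity
    nlinarith

lemma q_XCac {k X Y : ℤ} (hk : 1 ≤ k) (hX : 0 < X) (hY : 0 < Y)
    (ha : 0 < 2 * X) (hb : 0 < -2 * X + 2 * (k * Y)) (hc : 0 < 2 * Y) (hd : 0 < 2 * X - 2 * Y)
    (hM : -2 * X + 4 * (k * Y) < 4 * X - 2 * Y)
    (e : (k - 2) * X ^ 2 + (-3 * k ^ 2 + 3) * (X * Y) + (2 * k ^ 3 - 1) * Y ^ 2 = 0) :
    False := by
  obtain ⟨w, hw⟩ := quad_sq (X := X) (α := k - 2) (β := -3 * k ^ 2 + 3) (γ := 2 * k ^ 3 - 1) hY.ne'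
    (by linear_combination e)
  rcases D_A3 hk (w := w) (by linear_combination hw) with rfl | rfl
  · have h2 : (1 * X + 1 * Y) * (1 * X - 1 * Y) = 0 := by linear_combination (-1) * e
    rcases mul_eq_zero.mp h2 with h3 | h3
    · omega
    · omega
  · have h2 : Y * (3 * X - 5 * Y) = 0 := by
      have h1 : 3 * (Y * (3 * X - 5 * Y)) = 0 := by linear_combination (-1) * e
      rcases mul_eq_zero.mp h1 with h1 | h1
      · norm_num at h1
      · exact h1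
    rcases mul_eq_zero.mp h2 with h3 | h3
    · omega
    · omega

lemma q_XCaM {k X Y : ℤ} (hk : 1 ≤ k) (hX : 0 < X) (hY : 0 < Y)
    (ha : 0 < 2 * X) (hb : 0 < -X + (k * Y)) (hc : 0 < 2 * Y) (hd : 0 < 2 * X - 2 * Y)
    (hM : 2 * (k * Y) < 4 * X - 2 * Y)
    (e : (-k - 8) * X ^ 2 + (12) * (X * Y) + (k ^ 3 - 4) * Y ^ 2 = 0) :
    11 * X = 23 * Y := by
  obtain ⟨w, hw⟩ := quad_sq' (X := X) (α := -k - 8) (β := 6) (γ := k ^ 3 - 4) hY.ne'
    (by linear_combination e)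
  rcases D_A5 hk (w := w) (by linear_combination hw) with rfl | rfl
  · have h2 : (3 * X - 1 * Y) * (1 * X - 1 * Y) = 0 := by
      have h1 : 3 * ((3 * X - 1 * Y) * (1 * X - 1 * Y)) = 0 := by linear_combination (-1) * e
      rcases mul_eq_zero.mp h1 with h1 | h1
      · norm_num at h1
      · exact h1
    rcases mul_eq_zero.mp h2 with h3 | h3
    · omega
    · omega
  · have h2 : (1 * X + 1 * Y) * (11 * X - 23 * Y) = 0 := by linear_combination (-1) * e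
    rcases mul_eq_zero.mp h2 with h3 | h3
    · omega
    · linarith

lemma q_XCMa {k X Y : ℤ} (hk : 1 ≤ k) (hX : 0 < X) (hY : 0 < Y)
    (ha : 0 < 2 * (k * Y)) (hb : 0 < X - (k * Y)) (hc : 0 < 2 * Y) (hd : 0 < 2 * X - 2 * Y)
    (hM : 2 * X < 4 * X - 2 * Y)
    (e : (k - 8) * X ^ 2 + (12) * (X * Y) + (-k ^ 3 - 4) * Y ^ 2 = 0) :
    1 * X = 43 * Y := by
  obtain ⟨w, hw⟩ := quad_sq' (X := X) (α := k - 8) (β := 6) (γ := -k ^ 3 - 4) hY.ne'
    (by linear_combination e)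
  rcases D_A6 hk (w := w) (by linear_combination hw) with rfl | rfl
  · have h2 : (7 * X - 5 * Y) * (1 * X - 1 * Y) = 0 := by linear_combination (-1) * e
    rcases mul_eq_zero.mp h2 with h3 | h3
    · omega
    · omega
  · have h2 : Y * (1 * X - 43 * Y) = 0 := by
      have h1 : 12 * (Y * (1 * X - 43 * Y)) = 0 := by linear_combination (1) * e
      rcases mul_eq_zero.mp h1 with h1 | h1
      · norm_num at h1
      · exact h1
    rcases mul_eq_zero.mp h2 with h3 | h3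
    · omega
    · linarith

lemma q_XCMb {k X Y : ℤ} (hk : 1 ≤ k) (hX : 0 < X) (hY : 0 < Y)
    (ha : 0 < 2 * X - 4 * (k * Y)) (hb : 0 < 2 * (k * Y)) (hc : 0 < 2 * Y) (hd : 0 < 2 * X - 2 * Y)
    (hM : 2 * X < 4 * X - 2 * Y)
    (e : (k - 2) * X ^ 2 + (-3 * k ^ 2 + 3) * (X * Y) + (2 * k ^ 3 - 1) * Y ^ 2 = 0) :
    False := by
  obtain ⟨w, hw⟩ := quad_sq (X := X) (α := k - 2) (β := -3 * k ^ 2 + 3) (γ := 2 * k ^ 3 - 1) hY.ne'
    (by linear_combination e)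
  rcases D_A3 hk (w := w) (by linear_combination hw) with rfl | rfl
  · have h2 : (1 * X + 1 * Y) * (1 * X - 1 * Y) = 0 := by linear_combination (-1) * e
    rcases mul_eq_zero.mp h2 with h3 | h3
    · omega
    · omega
  · have h2 : Y * (3 * X - 5 * Y) = 0 := by
      have h1 : 3 * (Y * (3 * X - 5 * Y)) = 0 := by linear_combination (-1) * e
      rcases mul_eq_zero.mp h1 with h1 | h1
      · norm_num at h1
      · exact h1
    rcases mul_eq_zero.mp h2 with h3 | h3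
    · omega
    · omega

lemma q_XCMc {k X Y : ℤ} (hk : 1 ≤ k) (hX : 0 < X) (hY : 0 < Y)
    (ha : 0 < -2 * X + 4 * (k * Y)) (hb : 0 < 2 * X - 2 * (k * Y)) (hc : 0 < 2 * Y) (hd : 0 < 2 * X - 2 * Y)
    (hM : 2 * X < 4 * X - 2 * Y)
    (e : (-k - 2) * X ^ 2 + (3 * k ^ 2 + 3) * (X * Y) + (-2 * k ^ 3 - 1) * Y ^ 2 = 0) :
    False := by
  obtain ⟨w, hw⟩ := quad_sq (X := X) (α := -k - 2) (β := 3 * k ^ 2 + 3) (γ := -2 * k ^ 3 - 1) hY.ne'
    (by linear_combination e)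
  rcases D_A2 hk (w := w) (by linear_combination hw) with rfl
  · have h2 : (1 * X - 1 * Y) * (1 * X - 1 * Y) = 0 := by
      have h1 : 3 * ((1 * X - 1 * Y) * (1 * X - 1 * Y)) = 0 := by linear_combination (-1) * e
      rcases mul_eq_zero.mp h1 with h1 | h1
      · norm_num at h1
      · exact h1
    rcases mul_eq_zero.mp h2 with h3 | h3
    · omega
    · omega

lemma q_XDab {k X Y : ℤ} (hk : 1 ≤ k) (hX : 0 < X) (hY : 0 < Y)
    (ha : 0 < 2 * X) (hb : 0 < 2 * (k * Y)) (hc : 0 < 2 * X - 2 * Y) (hd : 0 < 2 * Y)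
    (hM : 2 * X + 4 * (k * Y) < 2 * X + 2 * Y)
    (e : (k - 1) * X ^ 2 + (3 * k ^ 2) * (X * Y) + (2 * k ^ 3 + 1) * Y ^ 2 = 0) :
    False := by
  have h1 : 0 < X * Y := mul_pos hX hY
  have h2 : 0 ≤ (k - 1) * X ^ 2 := mul_nonneg (by omega) (by positivity)
  have h3 : 0 < (3 * k ^ 2) * (X * Y) := by positivity
  have h4 : 0 < (2 * k ^ 3 + 1) * Y ^ 2 := by positivity
  nlinarith

lemma q_XDac {k X Y : ℤ} (hk : 1 ≤ k) (hX : 0 < X) (hY : 0 < Y)
    (ha : 0 < 2 * X) (hb : 0 < -2 * X + 2 * (k * Y)) (hc : 0 < 2 * X - 2 * Y) (hd : 0 < 2 * Y)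
    (hM : -2 * X + 4 * (k * Y) < 2 * X + 2 * Y)
    (e : (k - 1) * X ^ 2 + (-3 * k ^ 2) * (X * Y) + (2 * k ^ 3 + 1) * Y ^ 2 = 0) :
    False := by
  obtain ⟨w, hw⟩ := quad_sq (X := X) (α := k - 1) (β := -3 * k ^ 2) (γ := 2 * k ^ 3 + 1) hY.ne'
    (by linear_combination e)
  rcases D_A5 hk (w := w) (by linear_combination hw) with rfl | rfl
  · have h2 : Y * (1 * X - 1 * Y) = 0 := by
      have h1 : 3 * (Y * (1 * X - 1 * Y)) = 0 := by linear_combination (-1) * e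
      rcases mul_eq_zero.mp h1 with h1 | h1
      · norm_num at h1
      · exact h1
    rcases mul_eq_zero.mp h2 with h3 | h3
    · omega
    · omega
  · have h2 : (1 * X - 11 * Y) * (2 * X - 5 * Y) = 0 := by linear_combination (1) * e
    rcases mul_eq_zero.mp h2 with h3 | h3
    · omega
    · omega

lemma q_XDaM {k X Y : ℤ} (hk : 1 ≤ k) (hX : 0 < X) (hY : 0 < Y)
    (ha : 0 < 2 * X) (hb : 0 < -X + (k * Y)) (hc : 0 < 2 * X - 2 * Y) (hd : 0 < 2 * Y)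
    (hM : 2 * (k * Y) < 2 * X + 2 * Y)
    (e : (-k - 4) * X ^ 2 + (0) * (X * Y) + (k ^ 3 + 4) * Y ^ 2 = 0) :
    False := by
  obtain ⟨w, hw⟩ := quad_sq' (X := X) (α := -k - 4) (β := 0) (γ := k ^ 3 + 4) hY.ne'
    (by linear_combination e)
  rcases D_A7 hk (w := w) (by linear_combination hw) with rfl
  · have h2 : (1 * X + 1 * Y) * (1 * X - 1 * Y) = 0 := by
      have h1 : 5 * ((1 * X + 1 * Y) * (1 * X - 1 * Y)) = 0 := by linear_combination (-1) * e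
      rcases mul_eq_zero.mp h1 with h1 | h1
      · norm_num at h1
      · exact h1
    rcases mul_eq_zero.mp h2 with h3 | h3
    · omega
    · omega

lemma q_XDMa {k X Y : ℤ} (hk : 1 ≤ k) (hX : 0 < X) (hY : 0 < Y)
    (ha : 0 < 2 * (k * Y)) (hb : 0 < X - (k * Y)) (hc : 0 < 2 * X - 2 * Y) (hd : 0 < 2 * Y)
    (hM : 2 * X < 2 * X + 2 * Y)
    (e : (k - 4) * X ^ 2 + (0) * (X * Y) + (-k ^ 3 + 4) * Y ^ 2 = 0) :
    1 * X = 11 * Y := by
  obtain ⟨w, hw⟩ := quad_sq' (X := X) (α := k - 4) (β := 0) (γ := -k ^ 3 + 4) hY.ne'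
    (by linear_combination e)
  rcases D_A8 hk (w := w) (by linear_combination hw) with rfl | rfl | rfl
  · have h2 : (1 * X + 1 * Y) * (1 * X - 1 * Y) = 0 := by
      have h1 : 3 * ((1 * X + 1 * Y) * (1 * X - 1 * Y)) = 0 := by linear_combination (-1) * e
      rcases mul_eq_zero.mp h1 with h1 | h1
      · norm_num at h1
      · exact h1
    rcases mul_eq_zero.mp h2 with h3 | h3
    · omega
    · omega
  · nlinarith [mul_pos hX hY]
  · have h2 : (1 * X - 11 * Y) * (1 * X + 11 * Y) = 0 := by linear_combination (1) * e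
    rcases mul_eq_zero.mp h2 with h3 | h3
    · linarith
    · omega

lemma q_XDMb {k X Y : ℤ} (hk : 1 ≤ k) (hX : 0 < X) (hY : 0 < Y)
    (ha : 0 < 2 * X - 4 * (k * Y)) (hb : 0 < 2 * (k * Y)) (hc : 0 < 2 * X - 2 * Y) (hd : 0 < 2 * Y)
    (hM : 2 * X < 2 * X + 2 * Y)
    (e : (k - 1) * X ^ 2 + (-3 * k ^ 2) * (X * Y) + (2 * k ^ 3 + 1) * Y ^ 2 = 0) :
    1 * X = 11 * Y := by
  obtain ⟨w, hw⟩ := quad_sq (X := X) (α := k - 1) (β := -3 * k ^ 2) (γ := 2 * k ^ 3 + 1) hY.ne'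
    (by linear_combination e)
  rcases D_A5 hk (w := w) (by linear_combination hw) with rfl | rfl
  · have h2 : Y * (1 * X - 1 * Y) = 0 := by
      have h1 : 3 * (Y * (1 * X - 1 * Y)) = 0 := by linear_combination (-1) * e
      rcases mul_eq_zero.mp h1 with h1 | h1
      · norm_num at h1
      · exact h1
    rcases mul_eq_zero.mp h2 with h3 | h3
    · omega
    · omega
  · have h2 : (1 * X - 11 * Y) * (2 * X - 5 * Y) = 0 := by linear_combination (1) * e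
    rcases mul_eq_zero.mp h2 with h3 | h3
    · linarith
    · omega

lemma q_XDMc {k X Y : ℤ} (hk : 1 ≤ k) (hX : 0 < X) (hY : 0 < Y)
    (ha : 0 < -2 * X + 4 * (k * Y)) (hb : 0 < 2 * X - 2 * (k * Y)) (hc : 0 < 2 * X - 2 * Y) (hd : 0 < 2 * Y)
    (hM : 2 * X < 2 * X + 2 * Y)
    (e : (-k - 1) * X ^ 2 + (3 * k ^ 2) * (X * Y) + (-2 * k ^ 3 + 1) * Y ^ 2 = 0) :
    3 * X = 31 * Y ∨ 1 * X = 11 * Y := by
  obtain ⟨w, hw⟩ := quad_sq (X := X) (α := -k - 1) (β := 3 * k ^ 2) (γ := -2 * k ^ 3 + 1) hY.ne'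
    (by linear_combination e)
  rcases D_A6 hk (w := w) (by linear_combination hw) with rfl | rfl
  · have h2 : (2 * X - 1 * Y) * (1 * X - 1 * Y) = 0 := by linear_combination (-1) * e
    rcases mul_eq_zero.mp h2 with h3 | h3
    · omega
    · omega
  · have h2 : (3 * X - 31 * Y) * (1 * X - 11 * Y) = 0 := by
      have h1 : 3 * ((3 * X - 31 * Y) * (1 * X - 11 * Y)) = 0 := by linear_combination (-1) * e
      rcases mul_eq_zero.mp h1 with h1 | h1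
      · norm_num at h1
      · exact h1
    rcases mul_eq_zero.mp h2 with h3 | h3
    · left; linarith
    · right; linarith

lemma q_BCca {k X Y : ℤ} (hk : 1 ≤ k) (hX : 0 < X) (hY : 0 < Y) (hYX : Y < X)
    (ha : 0 < 2 * (k * Y)) (hb : 0 < 2 * X - 2 * (k * Y)) (hc : 0 < 2 * X) (hd : 0 < 2 * Y)
    (hM : 4 * X - 2 * (k * Y) < 2 * X + 4 * Y)
    (e : (2 * k - 1) * X ^ 2 + (-3 * k ^ 2 - 3) * (X * Y) + (k ^ 3 - 2) * Y ^ 2 = 0) :
    False := by
  obtain ⟨w, hw⟩ := quad_sq (X := X) (α := 2 * k - 1) (β := -3 * k ^ 2 - 3) (γ := k ^ 3 - 2) hY.ne'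
    (by linear_combination e)
  rcases D_A9 hk (w := w) (by linear_combination hw) with rfl
  · have h2 : (1 * X - 5 * Y) * (1 * X - 1 * Y) = 0 := by
      have h1 : 5 * ((1 * X - 5 * Y) * (1 * X - 1 * Y)) = 0 := by linear_combination (1) * e
      rcases mul_eq_zero.mp h1 with h1 | h1
      · norm_num at h1
      · exact h1
    rcases mul_eq_zero.mp h2 with h3 | h3
    · omega
    · omega

lemma q_BCcb {k X Y : ℤ} (hk : 1 ≤ k) (hX : 0 < X) (hY : 0 < Y) (hYX : Y < X)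
    (ha : 0 < 2 * X - 2 * (k * Y)) (hb : 0 < 2 * (k * Y)) (hc : 0 < 2 * X) (hd : 0 < 2 * Y)
    (hM : 2 * X + 2 * (k * Y) < 2 * X + 4 * Y)
    (e : (k - 1) * X ^ 2 + (-3) * (X * Y) + (-k ^ 3 - 2) * Y ^ 2 = 0) :
    False := by
  have h1 : k = 1 := by
    by_contra hne
    have : 2 ≤ k := by omega
    nlinarith
  subst h1
  nlinarith [mul_pos hX hY]

lemma q_BCcM {k X Y : ℤ} (hk : 1 ≤ k) (hX : 0 < X) (hY : 0 < Y) (hYX : Y < X)
    (ha : 0 < 4 * X - 2 * (k * Y)) (hb : 0 < -2 * X + 2 * (k * Y)) (hc : 0 < 2 * X) (hd : 0 < 2 * Y)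
    (hM : 2 * (k * Y) < 2 * X + 4 * Y)
    (e : (-2 * k - 1) * X ^ 2 + (3 * k ^ 2 - 3) * (X * Y) + (-k ^ 3 - 2) * Y ^ 2 = 0) :
    False := by
  obtain ⟨w, hw⟩ := quad_sq (X := X) (α := -2 * k - 1) (β := 3 * k ^ 2 - 3) (γ := -k ^ 3 - 2) hY.ne'
    (by linear_combination e)
  rcases D_A11 hk (w := w) (by linear_combination hw) with rfl
  · have h2 : (5 * X - 23 * Y) * (1 * X - 5 * Y) = 0 := by
      have h1 : 3 * ((5 * X - 23 * Y) * (1 * X - 5 * Y)) = 0 := by linear_combination (-1) * e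
      rcases mul_eq_zero.mp h1 with h1 | h1
      · norm_num at h1
      · exact h1
    rcases mul_eq_zero.mp h2 with h3 | h3
    · omega
    · omega

lemma q_BCc2a {k X Y : ℤ} (hk : 1 ≤ k) (hX : 0 < X) (hY : 0 < Y) (hYX : Y < X)
    (ha : 0 < 2 * (k * Y)) (hb : 0 < 4 * X - 2 * (k * Y)) (hc : 0 < 2 * X) (hd : 0 < 2 * Y)
    (hM : 8 * X - 2 * (k * Y) < 2 * X + 4 * Y)
    (e : (16 * k - 1) * X ^ 2 + (-12 * k ^ 2 - 3) * (X * Y) + (2 * k ^ 3 - 2) * Y ^ 2 = 0) :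
    False := by
  obtain ⟨w, hw⟩ := quad_sq (X := X) (α := 16 * k - 1) (β := -12 * k ^ 2 - 3) (γ := 2 * k ^ 3 - 2) hY.ne'
    (by linear_combination e)
  rcases D_A12 hk (w := w) (by linear_combination hw) with rfl | rfl
  · have h2 : (1 * X - 1 * Y) * (1 * X - 0 * Y) = 0 := by
      have h1 : 15 * ((1 * X - 1 * Y) * (1 * X - 0 * Y)) = 0 := by linear_combination (1) * e
      rcases mul_eq_zero.mp h1 with h1 | h1
      · norm_num at h1
      · exact h1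
    rcases mul_eq_zero.mp h2 with h3 | h3
    · omega
    · omega
  · have h2 : (5 * X - 28 * Y) * (7 * X - 19 * Y) = 0 := by
      have h1 : 5 * ((5 * X - 28 * Y) * (7 * X - 19 * Y)) = 0 := by linear_combination (1) * e
      rcases mul_eq_zero.mp h1 with h1 | h1
      · norm_num at h1
      · exact h1
    rcases mul_eq_zero.mp h2 with h3 | h3
    · omega
    · omega

lemma q_BCc2b {k X Y : ℤ} (hk : 1 ≤ k) (hX : 0 < X) (hY : 0 < Y) (hYX : Y < X)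
    (ha : 0 < 4 * X - 2 * (k * Y)) (hb : 0 < 2 * (k * Y)) (hc : 0 < 2 * X) (hd : 0 < 2 * Y)
    (hM : 4 * X + 2 * (k * Y) < 2 * X + 4 * Y)
    (e : (8 * k - 1) * X ^ 2 + (-3) * (X * Y) + (-2 * k ^ 3 - 2) * Y ^ 2 = 0) :
    False := by
  nlinarith

lemma q_BCc2M {k X Y : ℤ} (hk : 1 ≤ k) (hX : 0 < X) (hY : 0 < Y) (hYX : Y < X)
    (ha : 0 < 8 * X - 2 * (k * Y)) (hb : 0 < -4 * X + 2 * (k * Y)) (hc : 0 < 2 * X) (hd : 0 < 2 * Y)
    (hM : 2 * (k * Y) < 2 * X + 4 * Y)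
    (e : (-16 * k - 1) * X ^ 2 + (12 * k ^ 2 - 3) * (X * Y) + (-2 * k ^ 3 - 2) * Y ^ 2 = 0) :
    7 * X = 8 * Y := by
  obtain ⟨w, hw⟩ := quad_sq (X := X) (α := -16 * k - 1) (β := 12 * k ^ 2 - 3) (γ := -2 * k ^ 3 - 2) hY.ne'
    (by linear_combination e)
  rcases D_A14 hk (w := w) (by linear_combination hw) with rfl | rfl
  · have h2 : (1 * X - 1 * Y) * (7 * X - 8 * Y) = 0 := by
      have h1 : 7 * ((1 * X - 1 * Y) * (7 * X - 8 * Y)) = 0 := by linear_combination (-1) * e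
      rcases mul_eq_zero.mp h1 with h1 | h1
      · norm_num at h1
      · exact h1
    rcases mul_eq_zero.mp h2 with h3 | h3
    · omega
    · linarith
  · have h2 : (3 * X - 4 * Y) * (3 * X - 7 * Y) = 0 := by
      have h1 : 9 * ((3 * X - 4 * Y) * (3 * X - 7 * Y)) = 0 := by linear_combination (-1) * e
      rcases mul_eq_zero.mp h1 with h1 | h1
      · norm_num at h1
      · exact h1
    rcases mul_eq_zero.mp h2 with h3 | h3
    · omega
    · omega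

lemma q_BDab {k X Y : ℤ} (hk : 1 ≤ k) (hX : 0 < X) (hY : 0 < Y) (hYX : Y < X)
    (ha : 0 < 2 * X) (hb : 0 < 2 * (k * Y)) (hc : 0 < 2 * Y) (hd : 0 < 2 * X)
    (hM : 2 * X + 4 * (k * Y) < 4 * X + 2 * Y)
    (e : (k - 2) * X ^ 2 + (3 * k ^ 2 - 3) * (X * Y) + (2 * k ^ 3 - 1) * Y ^ 2 = 0) :
    False := by
  rcases lt_or_ge k 2 with h | h
  · have : k = 1 := by omega
    subst this
    have h2 : (X - Y) * (X + Y) = 0 := by linear_combination -e
    rcases mul_eq_zero.mp h2 with h3 | h3 <;> omega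
  · obtain ⟨j, rfl⟩ : ∃ j, k = j + 2 := ⟨k - 2, by ring⟩
    have hj : 0 ≤ j := by omega
    have h1 : 0 < X * Y := mul_pos hX hY
    have h2 : 0 ≤ j * X ^ 2 := by positivity
    have h3 : 0 ≤ (3 * j ^ 2 + 12 * j) * (X * Y) := by positivity
    have h4 : 0 ≤ (2 * j ^ 3 + 12 * j ^ 2 + 24 * j) * Y ^ 2 := by positivity
    have h5 : 0 < Y ^ 2 := by positivity
    nlinarith

lemma q_BDac {k X Y : ℤ} (hk : 1 ≤ k) (hX : 0 < X) (hY : 0 < Y) (hYX : Y < X)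
    (ha : 0 < 2 * X) (hb : 0 < -2 * X + 2 * (k * Y)) (hc : 0 < 2 * Y) (hd : 0 < 2 * X)
    (hM : -2 * X + 4 * (k * Y) < 4 * X + 2 * Y)
    (e : (k - 2) * X ^ 2 + (-3 * k ^ 2 - 3) * (X * Y) + (2 * k ^ 3 - 1) * Y ^ 2 = 0) :
    False := by
  obtain ⟨w, hw⟩ := quad_sq (X := X) (α := k - 2) (β := -3 * k ^ 2 - 3) (γ := 2 * k ^ 3 - 1) hY.ne'
    (by linear_combination e)
  rcases D_A1 hk (w := w) (by linear_combination hw) with rfl
  · have h2 : Y * (1 * X - 1 * Y) = 0 := by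
      have h1 : 15 * (Y * (1 * X - 1 * Y)) = 0 := by linear_combination (-1) * e
      rcases mul_eq_zero.mp h1 with h1 | h1
      · norm_num at h1
      · exact h1
    rcases mul_eq_zero.mp h2 with h3 | h3
    · omega
    · omega

lemma q_BDaM {k X Y : ℤ} (hk : 1 ≤ k) (hX : 0 < X) (hY : 0 < Y) (hYX : Y < X)
    (ha : 0 < 2 * X) (hb : 0 < -X + (k * Y)) (hc : 0 < 2 * Y) (hd : 0 < 2 * X)
    (hM : 2 * (k * Y) < 4 * X + 2 * Y)
    (e : (-k - 8) * X ^ 2 + (-12) * (X * Y) + (k ^ 3 - 4) * Y ^ 2 = 0) :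
    False := by
  obtain ⟨w, hw⟩ := quad_sq' (X := X) (α := -k - 8) (β := -6) (γ := k ^ 3 - 4) hY.ne'
    (by linear_combination e)
  rcases D_A5 hk (w := w) (by linear_combination hw) with rfl | rfl
  · have h2 : (1 * X + 1 * Y) * (3 * X + 1 * Y) = 0 := by
      have h1 : 3 * ((1 * X + 1 * Y) * (3 * X + 1 * Y)) = 0 := by linear_combination (-1) * e
      rcases mul_eq_zero.mp h1 with h1 | h1
      · norm_num at h1
      · exact h1
    rcases mul_eq_zero.mp h2 with h3 | h3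
    · omega
    · omega
  · have h2 : (11 * X + 23 * Y) * (1 * X - 1 * Y) = 0 := by linear_combination (-1) * e
    rcases mul_eq_zero.mp h2 with h3 | h3
    · omega
    · omega

lemma q_BDcM {k X Y : ℤ} (hk : 1 ≤ k) (hX : 0 < X) (hY : 0 < Y) (hYX : Y < X)
    (ha : 0 < 4 * X - 2 * (k * Y)) (hb : 0 < -2 * X + 2 * (k * Y)) (hc : 0 < 2 * Y) (hd : 0 < 2 * X)
    (hM : 2 * (k * Y) < 4 * X + 2 * Y)
    (e : (-2 * k - 2) * X ^ 2 + (3 * k ^ 2 - 3) * (X * Y) + (-k ^ 3 - 1) * Y ^ 2 = 0) :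
    2 * X = 13 * Y ∨ 1 * X = 7 * Y ∨ 2 * X = 19 * Y := by
  obtain ⟨w, hw⟩ := quad_sq (X := X) (α := -2 * k - 2) (β := 3 * k ^ 2 - 3) (γ := -k ^ 3 - 1) hY.ne'
    (by linear_combination e)
  rcases D_A15 hk (w := w) (by linear_combination hw) with rfl | rfl
  · have h2 : (2 * X - 13 * Y) * (1 * X - 7 * Y) = 0 := by
      have h1 : 11 * ((2 * X - 13 * Y) * (1 * X - 7 * Y)) = 0 := by linear_combination (-1) * e
      rcases mul_eq_zero.mp h1 with h1 | h1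
      · norm_num at h1
      · exact h1
    rcases mul_eq_zero.mp h2 with h3 | h3
    · left; linarith
    · right; left; linarith
  · have h2 : (1 * X - 7 * Y) * (2 * X - 19 * Y) = 0 := by
      have h1 : 13 * ((1 * X - 7 * Y) * (2 * X - 19 * Y)) = 0 := by linear_combination (-1) * e
      rcases mul_eq_zero.mp h1 with h1 | h1
      · norm_num at h1
      · exact h1
    rcases mul_eq_zero.mp h2 with h3 | h3
    · right; left; linarith
    · right; right; linarith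

lemma q_BDc2a {k X Y : ℤ} (hk : 1 ≤ k) (hX : 0 < X) (hY : 0 < Y) (hYX : Y < X)
    (ha : 0 < 2 * (k * Y)) (hb : 0 < 4 * X - 2 * (k * Y)) (hc : 0 < 2 * Y) (hd : 0 < 2 * X)
    (hM : 8 * X - 2 * (k * Y) < 4 * X + 2 * Y)
    (e : (16 * k - 2) * X ^ 2 + (-12 * k ^ 2 - 3) * (X * Y) + (2 * k ^ 3 - 1) * Y ^ 2 = 0) :
    False := by
  obtain ⟨w, hw⟩ := quad_sq (X := X) (α := 16 * k - 2) (β := -12 * k ^ 2 - 3) (γ := 2 * k ^ 3 - 1) hY.ne'
    (by linear_combination e)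
  rcases D_A16 hk (w := w) (by linear_combination hw) with rfl
  · have h2 : (1 * X - 1 * Y) * (14 * X - 1 * Y) = 0 := by linear_combination (1) * e
    rcases mul_eq_zero.mp h2 with h3 | h3
    · omega
    · omega

lemma q_BDc2b {k X Y : ℤ} (hk : 1 ≤ k) (hX : 0 < X) (hY : 0 < Y) (hYX : Y < X)
    (ha : 0 < 4 * X - 2 * (k * Y)) (hb : 0 < 2 * (k * Y)) (hc : 0 < 2 * Y) (hd : 0 < 2 * X)
    (hM : 4 * X + 2 * (k * Y) < 4 * X + 2 * Y)
    (e : (8 * k - 2) * X ^ 2 + (-3) * (X * Y) + (-2 * k ^ 3 - 1) * Y ^ 2 = 0) :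
    False := by
  nlinarith

lemma q_BDc2M {k X Y : ℤ} (hk : 1 ≤ k) (hX : 0 < X) (hY : 0 < Y) (hYX : Y < X)
    (ha : 0 < 8 * X - 2 * (k * Y)) (hb : 0 < -4 * X + 2 * (k * Y)) (hc : 0 < 2 * Y) (hd : 0 < 2 * X)
    (hM : 2 * (k * Y) < 4 * X + 2 * Y)
    (e : (-16 * k - 2) * X ^ 2 + (12 * k ^ 2 - 3) * (X * Y) + (-2 * k ^ 3 - 1) * Y ^ 2 = 0) :
    10 * X = 11 * Y ∨ 6 * X = 29 * Y := by
  obtain ⟨w, hw⟩ := quad_sq (X := X) (α := -16 * k - 2) (β := 12 * k ^ 2 - 3) (γ := -2 * k ^ 3 - 1) hY.ne'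
    (by linear_combination e)
  rcases D_A18 hk (w := w) (by linear_combination hw) with rfl | rfl
  · have h2 : (1 * X - 1 * Y) * (10 * X - 11 * Y) = 0 := by
      have h1 : 5 * ((1 * X - 1 * Y) * (10 * X - 11 * Y)) = 0 := by linear_combination (-1) * e
      rcases mul_eq_zero.mp h1 with h1 | h1
      · norm_num at h1
      · exact h1
    rcases mul_eq_zero.mp h2 with h3 | h3
    · omega
    · left; linarith
  · have h2 : (9 * X - 23 * Y) * (6 * X - 29 * Y) = 0 := by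
      have h1 : 3 * ((9 * X - 23 * Y) * (6 * X - 29 * Y)) = 0 := by linear_combination (-1) * e
      rcases mul_eq_zero.mp h1 with h1 | h1
      · norm_num at h1
      · exact h1
    rcases mul_eq_zero.mp h2 with h3 | h3
    · omega
    · right; linarith

lemma q_BDMa {k X Y : ℤ} (hk : 1 ≤ k) (hX : 0 < X) (hY : 0 < Y) (hYX : Y < X)
    (ha : 0 < 2 * (k * Y)) (hb : 0 < X - (k * Y)) (hc : 0 < 2 * Y) (hd : 0 < 2 * X)
    (hM : 2 * X < 4 * X + 2 * Y)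
    (e : (k - 8) * X ^ 2 + (-12) * (X * Y) + (-k ^ 3 - 4) * Y ^ 2 = 0) :
    False := by
  obtain ⟨w, hw⟩ := quad_sq' (X := X) (α := k - 8) (β := -6) (γ := -k ^ 3 - 4) hY.ne'
    (by linear_combination e)
  rcases D_A6 hk (w := w) (by linear_combination hw) with rfl | rfl
  · have h2 : (1 * X + 1 * Y) * (7 * X + 5 * Y) = 0 := by linear_combination (-1) * e
    rcases mul_eq_zero.mp h2 with h3 | h3
    · omega
    · omega
  · have h2 : Y * (1 * X + 43 * Y) = 0 := by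
      have h1 : 12 * (Y * (1 * X + 43 * Y)) = 0 := by linear_combination (-1) * e
      rcases mul_eq_zero.mp h1 with h1 | h1
      · norm_num at h1
      · exact h1
    rcases mul_eq_zero.mp h2 with h3 | h3
    · omega
    · omega

lemma q_BDMb {k X Y : ℤ} (hk : 1 ≤ k) (hX : 0 < X) (hY : 0 < Y) (hYX : Y < X)
    (ha : 0 < 2 * X - 4 * (k * Y)) (hb : 0 < 2 * (k * Y)) (hc : 0 < 2 * Y) (hd : 0 < 2 * X)
    (hM : 2 * X < 4 * X + 2 * Y)
    (e : (k - 2) * X ^ 2 + (-3 * k ^ 2 - 3) * (X * Y) + (2 * k ^ 3 - 1) * Y ^ 2 = 0) :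
    False := by
  obtain ⟨w, hw⟩ := quad_sq (X := X) (α := k - 2) (β := -3 * k ^ 2 - 3) (γ := 2 * k ^ 3 - 1) hY.ne'
    (by linear_combination e)
  rcases D_A1 hk (w := w) (by linear_combination hw) with rfl
  · have h2 : Y * (1 * X - 1 * Y) = 0 := by
      have h1 : 15 * (Y * (1 * X - 1 * Y)) = 0 := by linear_combination (-1) * e
      rcases mul_eq_zero.mp h1 with h1 | h1
      · norm_num at h1
      · exact h1
    rcases mul_eq_zero.mp h2 with h3 | h3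
    · omega
    · omega

lemma q_BDMc {k X Y : ℤ} (hk : 1 ≤ k) (hX : 0 < X) (hY : 0 < Y) (hYX : Y < X)
    (ha : 0 < -2 * X + 4 * (k * Y)) (hb : 0 < 2 * X - 2 * (k * Y)) (hc : 0 < 2 * Y) (hd : 0 < 2 * X)
    (hM : 2 * X < 4 * X + 2 * Y)
    (e : (-k - 2) * X ^ 2 + (3 * k ^ 2 - 3) * (X * Y) + (-2 * k ^ 3 - 1) * Y ^ 2 = 0) :
    False := by
  obtain ⟨w, hw⟩ := quad_sq (X := X) (α := -k - 2) (β := 3 * k ^ 2 - 3) (γ := -2 * k ^ 3 - 1) hY.ne'
    (by linear_combination e)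
  exact D_A4 hk (w := w) (by linear_combination hw)

end Pool.Agent.H83.PT
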