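import Mathlib

/-!
Quartics of Runge type that are never squares, except for small arguments.
(generated)
-/

namespace Pool.Agent.H83.PT

lemma sand_pos {u p r : ℤ} (hp : 0 ≤ p) (h : u ^ 2 = p ^ 2 + r) (h0 : 0 < r)
    (h1 : r < 2 * p + 1) : False := by
  have ha : |u| ^ 2 = p ^ 2 + r := by rw [sq_abs]; exact h
  have hb : 0 ≤ |u| := abs_nonneg u
  have h2 : p < |u| := by
    by_contra hc
    push Not at hc
    nlinarith
  have h3 : |u| < p + 1 := by
    by_contra hc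
    push Not at hc
    nlinarith
  omega

lemma sand_neg {u p r : ℤ} (hp : 1 ≤ p) (h : u ^ 2 = p ^ 2 - r) (h0 : 0 < r)
    (h1 : r < 2 * p - 1) : False := by
  have ha : |u| ^ 2 = p ^ 2 - r := by rw [sq_abs]; exact h
  have hb : 0 ≤ |u| := abs_nonneg u
  have h2 : |u| < p := by
    by_contra hc
    push Not at hc
    nlinarith
  have h3 : p - 1 < |u| := by
    by_contra hc
    push Not at hc
    nlinarith
  omega

/-- `n` is no square modulo `m` -/
def res (m : ℕ) (n : ℤ) : Bool := (List.range m).all fun x => ((x * x : ℤ) - n) % m != 0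

lemma nores {m : ℕ} {n w : ℤ} (hm : 0 < m) (h : res m n = true) : w ^ 2 ≠ n := by
  intro hw
  unfold res at h
  rw [List.all_eq_true] at h
  have hm' : (0 : ℤ) < m := by exact_mod_cast hm
  have h1 : 0 ≤ w % m := Int.emod_nonneg _ hm'.ne'
  have h2 : w % m < m := Int.emod_lt_of_pos _ hm'
  have h3 := h (w % m).toNat (by
    rw [List.mem_range]
    omega)
  have h4 : (((w % m).toNat : ℕ) : ℤ) = w % m := Int.toNat_of_nonneg h1
  rw [h4] at h3
  have h5 : ((w % m) * (w % m) - n) % m = 0 := by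
    rw [← hw]
    apply Int.emod_eq_zero_of_dvd
    have h6 : (m : ℤ) ∣ w - w % m := Int.dvd_self_sub_emod
    have h7 : (w % m) * (w % m) - w ^ 2 = (w - w % m) * (-(w + w % m)) := by ring
    rw [h7]
    exact Dvd.dvd.mul_right h6 _
  rw [h5] at h3
  simp at h3

/-- `n` is no square modulo one of the listed moduli -/
def nsq (n : ℤ) : Bool := [64, 63, 65, 11, 17, 19, 23, 29, 31, 37, 41, 43, 47, 53].any fun m => res m n

lemma nsq_ne {n w : ℤ} (h : nsq n = true) : w ^ 2 ≠ n := by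
  unfold nsq at h
  rw [List.any_eq_true] at h
  obtain ⟨m, hm, h2⟩ := h
  refine nores ?_ h2
  simp only [List.mem_cons, List.not_mem_nil, or_false] at hm
  omega


lemma fin_A1 : ∀ i ∈ Finset.range 176, (nsq (((i : ℤ) + 1) ^ 4 + 16 * ((i : ℤ) + 1) ^ 3 + 18 * ((i : ℤ) + 1) ^ 2 + 4 * ((i : ℤ) + 1) + 1) || decide ((i : ℤ) + 1 = 2)) = true := by
  decide +kernel

lemma D_A1 {k w : ℤ} (hk : 1 ≤ k) (h : w ^ 2 = k ^ 4 + 16 * k ^ 3 + 18 * k ^ 2 + 4 * k + 1) :
    k = 2 := by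
  rcases lt_or_ge k 177 with h1 | h1
  · have h2 := fin_A1 (k - 1).toNat (by rw [Finset.mem_range]; omega)
    have h3 : ((((k - 1).toNat : ℕ) : ℤ) + 1) = k := by
      have := Int.toNat_of_nonneg (show 0 ≤ k - 1 by omega)
      omega
    rw [h3] at h2
    rw [Bool.or_eq_true] at h2
    rcases h2 with h2 | h2
    · exact absurd h (nsq_ne h2)
    · simp only [decide_eq_true_eq] at h2
      omega
  · exfalso
    refine sand_pos (u := w) (p := k ^ 2 + 8 * k - 23) (r := 372 * k - 528) ?_ ?_ ?_ ?_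
    · nlinarith
    · linear_combination 1 * h
    · linarith
    · nlinarith


lemma fin_A2 : ∀ i ∈ Finset.range 195, (nsq (((i : ℤ) + 1) ^ 4 - 16 * ((i : ℤ) + 1) ^ 3 + 18 * ((i : ℤ) + 1) ^ 2 - 4 * ((i : ℤ) + 1) + 1) || decide ((i : ℤ) + 1 = 1)) = true := by
  decide +kernel

lemma D_A2 {k w : ℤ} (hk : 1 ≤ k) (h : w ^ 2 = k ^ 4 - 16 * k ^ 3 + 18 * k ^ 2 - 4 * k + 1) :
    k = 1 := by
  rcases lt_or_ge k 196 with h1 | h1
  · have h2 := fin_A2 (k - 1).toNat (by rw [Finset.mem_range]; omega)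
    have h3 : ((((k - 1).toNat : ℕ) : ℤ) + 1) = k := by
      have := Int.toNat_of_nonneg (show 0 ≤ k - 1 by omega)
      omega
    rw [h3] at h2
    rw [Bool.or_eq_true] at h2
    rcases h2 with h2 | h2
    · exact absurd h (nsq_ne h2)
    · simp only [decide_eq_true_eq] at h2
      omega
  · exfalso
    refine sand_neg (u := w) (p := k ^ 2 - 8 * k - 23) (r := 372 * k + 528) ?_ ?_ ?_ ?_
    · nlinarith
    · linear_combination 1 * h
    · linarith
    · nlinarith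


lemma fin_A3 : ∀ i ∈ Finset.range 319, (nsq (((i : ℤ) + 1) ^ 4 + 16 * ((i : ℤ) + 1) ^ 3 - 18 * ((i : ℤ) + 1) ^ 2 + 4 * ((i : ℤ) + 1) + 1) || decide ((i : ℤ) + 1 = 1 ∨ (i : ℤ) + 1 = 2)) = true := by
  decide +kernel

lemma D_A3 {k w : ℤ} (hk : 1 ≤ k) (h : w ^ 2 = k ^ 4 + 16 * k ^ 3 - 18 * k ^ 2 + 4 * k + 1) :
    k = 1 ∨ k = 2 := by
  rcases lt_or_ge k 320 with h1 | h1
  · have h2 := fin_A3 (k - 1).toNat (by rw [Finset.mem_range]; omega)
    have h3 : ((((k - 1).toNat : ℕ) : ℤ) + 1) = k := by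
      have := Int.toNat_of_nonneg (show 0 ≤ k - 1 by omega)
      omega
    rw [h3] at h2
    rw [Bool.or_eq_true] at h2
    rcases h2 with h2 | h2
    · exact absurd h (nsq_ne h2)
    · simp only [decide_eq_true_eq] at h2
      omega
  · exfalso
    refine sand_pos (u := w) (p := k ^ 2 + 8 * k - 41) (r := 660 * k - 1680) ?_ ?_ ?_ ?_
    · nlinarith
    · linear_combination 1 * h
    · linarith
    · nlinarith


lemma fin_A4 : ∀ i ∈ Finset.range 340, (nsq (((i : ℤ) + 1) ^ 4 - 16 * ((i : ℤ) + 1) ^ 3 - 18 * ((i : ℤ) + 1) ^ 2 - 4 * ((i : ℤ) + 1) + 1) || false) = true := by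
  decide +kernel

lemma D_A4 {k w : ℤ} (hk : 1 ≤ k) (h : w ^ 2 = k ^ 4 - 16 * k ^ 3 - 18 * k ^ 2 - 4 * k + 1) :
    False := by
  rcases lt_or_ge k 341 with h1 | h1
  · have h2 := fin_A4 (k - 1).toNat (by rw [Finset.mem_range]; omega)
    have h3 : ((((k - 1).toNat : ℕ) : ℤ) + 1) = k := by
      have := Int.toNat_of_nonneg (show 0 ≤ k - 1 by omega)
      omega
    rw [h3] at h2
    rw [Bool.or_eq_true] at h2
    rcases h2 with h2 | h2
    · exact absurd h (nsq_ne h2)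
    · simp only [Bool.false_eq_true] at h2
      
  · exfalso
    refine sand_neg (u := w) (p := k ^ 2 - 8 * k - 41) (r := 660 * k + 1680) ?_ ?_ ?_ ?_
    · nlinarith
    · linear_combination 1 * h
    · linarith
    · nlinarith


lemma fin_A5 : ∀ i ∈ Finset.range 25, (nsq (((i : ℤ) + 1) ^ 4 + 8 * ((i : ℤ) + 1) ^ 3 - 4 * ((i : ℤ) + 1) + 4) || decide ((i : ℤ) + 1 = 1 ∨ (i : ℤ) + 1 = 3)) = true := by
  decide +kernel

lemma D_A5 {k w : ℤ} (hk : 1 ≤ k) (h : w ^ 2 = k ^ 4 + 8 * k ^ 3 - 4 * k + 4) :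
    k = 1 ∨ k = 3 := by
  rcases lt_or_ge k 26 with h1 | h1
  · have h2 := fin_A5 (k - 1).toNat (by rw [Finset.mem_range]; omega)
    have h3 : ((((k - 1).toNat : ℕ) : ℤ) + 1) = k := by
      have := Int.toNat_of_nonneg (show 0 ≤ k - 1 by omega)
      omega
    rw [h3] at h2
    rw [Bool.or_eq_true] at h2
    rcases h2 with h2 | h2
    · exact absurd h (nsq_ne h2)
    · simp only [decide_eq_true_eq] at h2
      omega
  · exfalso
    refine sand_pos (u := w) (p := k ^ 2 + 4 * k - 8) (r := 60 * k - 60) ?_ ?_ ?_ ?_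
    · nlinarith
    · linear_combination 1 * h
    · linarith
    · nlinarith


lemma fin_A6 : ∀ i ∈ Finset.range 35, (nsq (((i : ℤ) + 1) ^ 4 - 8 * ((i : ℤ) + 1) ^ 3 + 4 * ((i : ℤ) + 1) + 4) || decide ((i : ℤ) + 1 = 1 ∨ (i : ℤ) + 1 = 8)) = true := by
  decide +kernel

lemma D_A6 {k w : ℤ} (hk : 1 ≤ k) (h : w ^ 2 = k ^ 4 - 8 * k ^ 3 + 4 * k + 4) :
    k = 1 ∨ k = 8 := by
  rcases lt_or_ge k 36 with h1 | h1
  · have h2 := fin_A6 (k - 1).toNat (by rw [Finset.mem_range]; omega)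
    have h3 : ((((k - 1).toNat : ℕ) : ℤ) + 1) = k := by
      have := Int.toNat_of_nonneg (show 0 ≤ k - 1 by omega)
      omega
    rw [h3] at h2
    rw [Bool.or_eq_true] at h2
    rcases h2 with h2 | h2
    · exact absurd h (nsq_ne h2)
    · simp only [decide_eq_true_eq] at h2
      omega
  · exfalso
    refine sand_neg (u := w) (p := k ^ 2 - 4 * k - 8) (r := 60 * k + 60) ?_ ?_ ?_ ?_
    · nlinarith
    · linear_combination 1 * h
    · linarith
    · nlinarith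


lemma fin_A7 : ∀ i ∈ Finset.range 5, (nsq (((i : ℤ) + 1) ^ 4 + 4 * ((i : ℤ) + 1) ^ 3 + 4 * ((i : ℤ) + 1) + 16) || decide ((i : ℤ) + 1 = 1)) = true := by
  decide +kernel

lemma D_A7 {k w : ℤ} (hk : 1 ≤ k) (h : w ^ 2 = k ^ 4 + 4 * k ^ 3 + 4 * k + 16) :
    k = 1 := by
  rcases lt_or_ge k 6 with h1 | h1
  · have h2 := fin_A7 (k - 1).toNat (by rw [Finset.mem_range]; omega)
    have h3 : ((((k - 1).toNat : ℕ) : ℤ) + 1) = k := by
      have := Int.toNat_of_nonneg (show 0 ≤ k - 1 by omega)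
      omega
    rw [h3] at h2
    rw [Bool.or_eq_true] at h2
    rcases h2 with h2 | h2
    · exact absurd h (nsq_ne h2)
    · simp only [decide_eq_true_eq] at h2
      omega
  · exfalso
    refine sand_pos (u := w) (p := k ^ 2 + 2 * k - 2) (r := 12 * k + 12) ?_ ?_ ?_ ?_
    · nlinarith
    · linear_combination 1 * h
    · linarith
    · nlinarith


lemma fin_A8 : ∀ i ∈ Finset.range 7, (nsq (((i : ℤ) + 1) ^ 4 - 4 * ((i : ℤ) + 1) ^ 3 - 4 * ((i : ℤ) + 1) + 16) || decide ((i : ℤ) + 1 = 1 ∨ (i : ℤ) + 1 = 4 ∨ (i : ℤ) + 1 = 5)) = true := by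
  decide +kernel

lemma D_A8 {k w : ℤ} (hk : 1 ≤ k) (h : w ^ 2 = k ^ 4 - 4 * k ^ 3 - 4 * k + 16) :
    k = 1 ∨ k = 4 ∨ k = 5 := by
  rcases lt_or_ge k 8 with h1 | h1
  · have h2 := fin_A8 (k - 1).toNat (by rw [Finset.mem_range]; omega)
    have h3 : ((((k - 1).toNat : ℕ) : ℤ) + 1) = k := by
      have := Int.toNat_of_nonneg (show 0 ≤ k - 1 by omega)
      omega
    rw [h3] at h2
    rw [Bool.or_eq_true] at h2
    rcases h2 with h2 | h2
    · exact absurd h (nsq_ne h2)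
    · simp only [decide_eq_true_eq] at h2
      omega
  · exfalso
    refine sand_neg (u := w) (p := k ^ 2 - 2 * k - 2) (r := 12 * k - 12) ?_ ?_ ?_ ?_
    · nlinarith
    · linear_combination 1 * h
    · linarith
    · nlinarith


lemma fin_A9 : ∀ i ∈ Finset.range 6, (nsq (((i : ℤ) + 1) ^ 4 + 4 * ((i : ℤ) + 1) ^ 3 + 18 * ((i : ℤ) + 1) ^ 2 + 16 * ((i : ℤ) + 1) + 1) || decide ((i : ℤ) + 1 = 3)) = true := by
  decide +kernel

lemma D_A9 {k w : ℤ} (hk : 1 ≤ k) (h : w ^ 2 = k ^ 4 + 4 * k ^ 3 + 18 * k ^ 2 + 16 * k + 1) :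
    k = 3 := by
  rcases lt_or_ge k 7 with h1 | h1
  · have h2 := fin_A9 (k - 1).toNat (by rw [Finset.mem_range]; omega)
    have h3 : ((((k - 1).toNat : ℕ) : ℤ) + 1) = k := by
      have := Int.toNat_of_nonneg (show 0 ≤ k - 1 by omega)
      omega
    rw [h3] at h2
    rw [Bool.or_eq_true] at h2
    rcases h2 with h2 | h2
    · exact absurd h (nsq_ne h2)
    · simp only [decide_eq_true_eq] at h2
      omega
  · exfalso
    refine sand_neg (u := w) (p := k ^ 2 + 2 * k + 7) (r := 12 * k + 48) ?_ ?_ ?_ ?_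
    · nlinarith
    · linear_combination 1 * h
    · linarith
    · nlinarith


lemma fin_A11 : ∀ i ∈ Finset.range 34, (nsq (((i : ℤ) + 1) ^ 4 - 4 * ((i : ℤ) + 1) ^ 3 - 18 * ((i : ℤ) + 1) ^ 2 - 16 * ((i : ℤ) + 1) + 1) || decide ((i : ℤ) + 1 = 7)) = true := by
  decide +kernel

lemma D_A11 {k w : ℤ} (hk : 1 ≤ k) (h : w ^ 2 = k ^ 4 - 4 * k ^ 3 - 18 * k ^ 2 - 16 * k + 1) :
    k = 7 := by
  rcases lt_or_ge k 35 with h1 | h1
  · have h2 := fin_A11 (k - 1).toNat (by rw [Finset.mem_range]; omega)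
    have h3 : ((((k - 1).toNat : ℕ) : ℤ) + 1) = k := by
      have := Int.toNat_of_nonneg (show 0 ≤ k - 1 by omega)
      omega
    rw [h3] at h2
    rw [Bool.or_eq_true] at h2
    rcases h2 with h2 | h2
    · exact absurd h (nsq_ne h2)
    · simp only [decide_eq_true_eq] at h2
      omega
  · exfalso
    refine sand_neg (u := w) (p := k ^ 2 - 2 * k - 11) (r := 60 * k + 120) ?_ ?_ ?_ ?_
    · nlinarith
    · linear_combination 1 * h
    · linarith
    · nlinarith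


lemma fin_A12 : ∀ i ∈ Finset.range 109, (nsq (16 * ((i : ℤ) + 1) ^ 4 + 8 * ((i : ℤ) + 1) ^ 3 + 72 * ((i : ℤ) + 1) ^ 2 + 128 * ((i : ℤ) + 1) + 1) || decide ((i : ℤ) + 1 = 1 ∨ (i : ℤ) + 1 = 11)) = true := by
  decide +kernel

lemma D_A12 {k w : ℤ} (hk : 1 ≤ k) (h : w ^ 2 = 16 * k ^ 4 + 8 * k ^ 3 + 72 * k ^ 2 + 128 * k + 1) :
    k = 1 ∨ k = 11 := by
  rcases lt_or_ge k 110 with h1 | h1
  · have h2 := fin_A12 (k - 1).toNat (by rw [Finset.mem_range]; omega)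
    have h3 : ((((k - 1).toNat : ℕ) : ℤ) + 1) = k := by
      have := Int.toNat_of_nonneg (show 0 ≤ k - 1 by omega)
      omega
    rw [h3] at h2
    rw [Bool.or_eq_true] at h2
    rcases h2 with h2 | h2
    · exact absurd h (nsq_ne h2)
    · simp only [decide_eq_true_eq] at h2
      omega
  · exfalso
    refine sand_pos (u := 8 * w) (p := 32 * k ^ 2 + 8 * k + 71) (r := 7056 * k - 4977) ?_ ?_ ?_ ?_
    · nlinarith
    · linear_combination 64 * h
    · linarith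
    · nlinarith


lemma fin_A14 : ∀ i ∈ Finset.range 147, (nsq (16 * ((i : ℤ) + 1) ^ 4 - 8 * ((i : ℤ) + 1) ^ 3 - 72 * ((i : ℤ) + 1) ^ 2 - 128 * ((i : ℤ) + 1) + 1) || decide ((i : ℤ) + 1 = 3 ∨ (i : ℤ) + 1 = 5)) = true := by
  decide +kernel

lemma D_A14 {k w : ℤ} (hk : 1 ≤ k) (h : w ^ 2 = 16 * k ^ 4 - 8 * k ^ 3 - 72 * k ^ 2 - 128 * k + 1) :
    k = 3 ∨ k = 5 := by
  rcases lt_or_ge k 148 with h1 | h1
  · have h2 := fin_A14 (k - 1).toNat (by rw [Finset.mem_range]; omega)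
    have h3 : ((((k - 1).toNat : ℕ) : ℤ) + 1) = k := by
      have := Int.toNat_of_nonneg (show 0 ≤ k - 1 by omega)
      omega
    rw [h3] at h2
    rw [Bool.or_eq_true] at h2
    rcases h2 with h2 | h2
    · exact absurd h (nsq_ne h2)
    · simp only [decide_eq_true_eq] at h2
      omega
  · exfalso
    refine sand_neg (u := 8 * w) (p := 32 * k ^ 2 - 8 * k - 73) (r := 9360 * k + 5265) ?_ ?_ ?_ ?_
    · nlinarith
    · linear_combination 64 * h
    · linarith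
    · nlinarith


lemma fin_A15 : ∀ i ∈ Finset.range 78, (nsq (((i : ℤ) + 1) ^ 4 - 8 * ((i : ℤ) + 1) ^ 3 - 18 * ((i : ℤ) + 1) ^ 2 - 8 * ((i : ℤ) + 1) + 1) || decide ((i : ℤ) + 1 = 10 ∨ (i : ℤ) + 1 = 12)) = true := by
  decide +kernel

lemma D_A15 {k w : ℤ} (hk : 1 ≤ k) (h : w ^ 2 = k ^ 4 - 8 * k ^ 3 - 18 * k ^ 2 - 8 * k + 1) :
    k = 10 ∨ k = 12 := by
  rcases lt_or_ge k 79 with h1 | h1
  · have h2 := fin_A15 (k - 1).toNat (by rw [Finset.mem_range]; omega)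
    have h3 : ((((k - 1).toNat : ℕ) : ℤ) + 1) = k := by
      have := Int.toNat_of_nonneg (show 0 ≤ k - 1 by omega)
      omega
    rw [h3] at h2
    rw [Bool.or_eq_true] at h2
    rcases h2 with h2 | h2
    · exact absurd h (nsq_ne h2)
    · simp only [decide_eq_true_eq] at h2
      omega
  · exfalso
    refine sand_neg (u := w) (p := k ^ 2 - 4 * k - 17) (r := 144 * k + 288) ?_ ?_ ?_ ?_
    · nlinarith
    · linear_combination 1 * h
    · linarith
    · nlinarith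


lemma fin_A16 : ∀ i ∈ Finset.range 7, (nsq (16 * ((i : ℤ) + 1) ^ 4 + 16 * ((i : ℤ) + 1) ^ 3 + 72 * ((i : ℤ) + 1) ^ 2 + 64 * ((i : ℤ) + 1) + 1) || decide ((i : ℤ) + 1 = 1)) = true := by
  decide +kernel

lemma D_A16 {k w : ℤ} (hk : 1 ≤ k) (h : w ^ 2 = 16 * k ^ 4 + 16 * k ^ 3 + 72 * k ^ 2 + 64 * k + 1) :
    k = 1 := by
  rcases lt_or_ge k 8 with h1 | h1
  · have h2 := fin_A16 (k - 1).toNat (by rw [Finset.mem_range]; omega)
    have h3 : ((((k - 1).toNat : ℕ) : ℤ) + 1) = k := by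
      have := Int.toNat_of_nonneg (show 0 ≤ k - 1 by omega)
      omega
    rw [h3] at h2
    rw [Bool.or_eq_true] at h2
    rcases h2 with h2 | h2
    · exact absurd h (nsq_ne h2)
    · simp only [decide_eq_true_eq] at h2
      omega
  · exfalso
    refine sand_pos (u := 2 * w) (p := 8 * k ^ 2 + 4 * k + 17) (r := 120 * k - 285) ?_ ?_ ?_ ?_
    · nlinarith
    · linear_combination 4 * h
    · linarith
    · nlinarith


lemma fin_A18 : ∀ i ∈ Finset.range 26, (nsq (16 * ((i : ℤ) + 1) ^ 4 - 16 * ((i : ℤ) + 1) ^ 3 - 72 * ((i : ℤ) + 1) ^ 2 - 64 * ((i : ℤ) + 1) + 1) || decide ((i : ℤ) + 1 = 3 ∨ (i : ℤ) + 1 = 10)) = true := by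
  decide +kernel

lemma D_A18 {k w : ℤ} (hk : 1 ≤ k) (h : w ^ 2 = 16 * k ^ 4 - 16 * k ^ 3 - 72 * k ^ 2 - 64 * k + 1) :
    k = 3 ∨ k = 10 := by
  rcases lt_or_ge k 27 with h1 | h1
  · have h2 := fin_A18 (k - 1).toNat (by rw [Finset.mem_range]; omega)
    have h3 : ((((k - 1).toNat : ℕ) : ℤ) + 1) = k := by
      have := Int.toNat_of_nonneg (show 0 ≤ k - 1 by omega)
      omega
    rw [h3] at h2
    rw [Bool.or_eq_true] at h2
    rcases h2 with h2 | h2
    · exact absurd h (nsq_ne h2)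
    · simp only [decide_eq_true_eq] at h2
      omega
  · exfalso
    refine sand_neg (u := 2 * w) (p := 8 * k ^ 2 - 4 * k - 19) (r := 408 * k + 357) ?_ ?_ ?_ ?_
    · nlinarith
    · linear_combination 4 * h
    · linarith
    · nlinarith


end Pool.Agent.H83.PT
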