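import Pool.Agent.H83.PT6.Def

/-!
Two unit triangles of the same area (both with exactly two primes in each part) are equal.

`e (e+1) (e+2) = f (f+1) (2f+1)`, all six numbers have exactly two primes, `e` odd: impossible.
The nine numbers `gcd (e+i, U_j)`, `U = (f, f+1, 2f+1)`, have at most one prime each (otherwise a
part of the first triangle equals a part of the second one), so exactly one in every row and
every column is `1`; six cases, in each one linear forms give too small a product.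
-/

namespace Pool.Agent.H83.PT

private theorem split3 {T a b c : ℕ} (hab : Nat.Coprime a b) (hac : Nat.Coprime a c)
    (hbc : Nat.Coprime b c) (h : T ∣ a * b * c) :
    T = Nat.gcd T a * Nat.gcd T b * Nat.gcd T c := by
  have h1 : Nat.gcd T (a * b * c) = Nat.gcd T a * Nat.gcd T b * Nat.gcd T c := by
    rw [Nat.Coprime.gcd_mul T (Nat.Coprime.mul_left hac hbc), Nat.Coprime.gcd_mul T hab]
  rw [← h1]
  exact (Nat.gcd_eq_left h).symm

private theorem card3 {a b c : ℕ} (hab : Nat.Coprime a b) (hac : Nat.Coprime a c)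
    (hbc : Nat.Coprime b c) : (a * b * c).primeFactors.card =
      a.primeFactors.card + b.primeFactors.card + c.primeFactors.card := by
  have h1 := Nat.Coprime.mul_left hac hbc
  rw [h1.primeFactors_mul, Finset.card_union_of_disjoint h1.disjoint_primeFactors,
    hab.primeFactors_mul, Finset.card_union_of_disjoint hab.disjoint_primeFactors]

private theorem eq_one {a : ℕ} (ha : 0 < a) (h : a.primeFactors.card = 0) : a = 1 := by
  rw [Finset.card_eq_zero, Nat.primeFactors_eq_empty] at h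
  omega

private theorem le_one {T U g a b c d : ℕ} (hT : T = g * (a * b)) (hU : U = g * (c * d))
    (ha : 0 < a) (hb : 0 < b) (hc : 0 < c) (hd : 0 < d)
    (h1 : g.primeFactors.card + a.primeFactors.card + b.primeFactors.card = 2)
    (h2 : g.primeFactors.card + c.primeFactors.card + d.primeFactors.card = 2) (h : T ≠ U) :
    g.primeFactors.card ≤ 1 := by
  by_contra hlt
  have a1 := eq_one ha (by omega)
  have b1 := eq_one hb (by omega)
  have c1 := eq_one hc (by omega)
  have d1 := eq_one hd (by omega)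
  apply h
  rw [hT, hU, a1, b1, c1, d1]

private theorem mul_le {p q n : ℕ} (hp : p ∣ n) (hq : q ∣ n) (hc : Nat.Coprime p q) (hn : 0 < n) :
    p * q ≤ n :=
  Nat.le_of_dvd hn (Nat.Coprime.mul_dvd_of_dvd_of_dvd hc hp hq)

private theorem mul_le3 {p q r n : ℕ} (hp : p ∣ n) (hq : q ∣ n) (hr : r ∣ n)
    (h1 : Nat.Coprime p q) (h2 : Nat.Coprime p r) (h3 : Nat.Coprime q r) (hn : 0 < n) :
    p * q * r ≤ n :=
  mul_le (Nat.Coprime.mul_dvd_of_dvd_of_dvd h1 hp hq) hr (Nat.Coprime.mul_left h2 h3) hn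

private theorem small : ∀ f < 30, ∀ e < 45, e * (e + 1) * (e + 2) = f * (f + 1) * (2 * f + 1) →
    f ≤ 1 := by
  decide +kernel

private theorem upper {e f : ℕ} (h : e * (e + 1) * (e + 2) = f * (f + 1) * (2 * f + 1)) :
    3 * e ≤ 4 * f + 4 := by
  by_contra hlt
  have h1 : 4 * f + 5 ≤ 3 * e := by omega
  have h2 : (4 * f + 5) * (4 * f + 8) * (4 * f + 11) ≤ (3 * e) * (3 * e + 3) * (3 * e + 6) :=
    Nat.mul_le_mul (Nat.mul_le_mul h1 (by omega)) (by omega)
  have h3 : (3 * e) * (3 * e + 3) * (3 * e + 6) = 27 * (f * (f + 1) * (2 * f + 1)) := by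
    rw [← h]; ring
  rw [h3] at h2
  nlinarith [Nat.zero_le (f ^ 3), Nat.zero_le (f ^ 2), Nat.zero_le f]

private theorem lower {e f : ℕ} (hf : 2 ≤ f)
    (h : e * (e + 1) * (e + 2) = f * (f + 1) * (2 * f + 1)) : f < e := by
  by_contra hlt
  have h1 : e * (e + 1) * (e + 2) ≤ f * (f + 1) * (f + 2) :=
    Nat.mul_le_mul (Nat.mul_le_mul (by omega) (by omega)) (by omega)
  have h2 : f * (f + 1) * (f + 2) < f * (f + 1) * (2 * f + 1) :=
    Nat.mul_lt_mul_of_pos_left (by omega) (by positivity)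
  omega

private theorem ineqA {f : ℕ} (hf : 30 ≤ f) :
    (f + 4) * (10 * f + 10) * (4 * f + 10) < 27 * (f * (f + 1) * (2 * f + 1)) := by
  obtain ⟨g, rfl⟩ := Nat.exists_eq_add_of_le hf
  ring_nf
  nlinarith [Nat.zero_le (g ^ 3), Nat.zero_le (g ^ 2), Nat.zero_le g]

private theorem ineqB {f : ℕ} (hf : 30 ≤ f) :
    (f + 7) * (10 * f + 10) * (4 * f + 4) < 27 * (f * (f + 1) * (2 * f + 1)) := by
  obtain ⟨g, rfl⟩ := Nat.exists_eq_add_of_le hf
  ring_nf
  nlinarith [Nat.zero_le (g ^ 3), Nat.zero_le (g ^ 2), Nat.zero_le g]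

private theorem ineqC {a b c N : ℕ} (h1 : N ≤ a * b * c)
    (h2 : (3 * a) * (3 * b) * (3 * c) < 27 * N) : False := by
  have h3 : (3 * a) * (3 * b) * (3 * c) = 27 * (a * b * c) := by ring
  omega

private theorem ineqD {a : ℕ} (ha : 0 < a) {b : ℕ} (h : a * (b + 1) ≤ a * b) : False := by
  have h3 : a * (b + 1) = a * b + a := by ring
  omega

private theorem noE {e f : ℕ} (hf : 30 ≤ f)
    (h : e * (e + 1) * (e + 2) = f * (f + 1) * (2 * f + 1)) (he : e = f + 1) : False := by
  subst he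
  have h1 : (f + 1) * ((f + 2) * (f + 3)) = (f + 1) * (f * (2 * f + 1)) := by linarith
  have h2 := Nat.eq_of_mul_eq_mul_left (by omega) h1
  nlinarith

theorem uu {e f : ℕ} (he : e % 2 = 1) (h : e * (e + 1) * (e + 2) = f * (f + 1) * (2 * f + 1))
    (e0 : e.primeFactors.card = 2) (e1 : (e + 1).primeFactors.card = 2)
    (e2 : (e + 2).primeFactors.card = 2) (f0 : f.primeFactors.card = 2)
    (f1 : (f + 1).primeFactors.card = 2) (f2 : (2 * f + 1).primeFactors.card = 2) : False := by
  have hf2 : 2 ≤ f := by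
    rcases Nat.lt_or_ge f 2 with h1 | h1
    · interval_cases f <;> simp at f0
    · exact h1
  have hlt := lower hf2 h
  have hup := upper h
  have hf : 30 ≤ f := by
    by_contra h1
    have := small f (by omega) e (by omega) h
    omega
  -- coprimality
  have c01 : Nat.Coprime e (e + 1) := by simp
  have c12 : Nat.Coprime (e + 1) (e + 2) := by
    have : Nat.Coprime (e + 1) (e + 1 + 1) := by simp
    exact this
  have c02 : Nat.Coprime e (e + 2) := by
    rw [Nat.coprime_self_add_right]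
    exact Nat.coprime_two_right.mpr (Nat.odd_iff.mpr he)
  have d01 : Nat.Coprime f (f + 1) := by simp
  have d02 : Nat.Coprime f (2 * f + 1) := by
    rw [show 2 * f + 1 = 1 + f * 2 by ring, Nat.coprime_add_mul_left_right]
    simp
  have d12 : Nat.Coprime (f + 1) (2 * f + 1) := by
    have h1 : Nat.Coprime (2 * f + 1) (f + 1) := by
      rw [show 2 * f + 1 = f + (f + 1) by ring, Nat.coprime_add_self_left]
      simp
    exact h1.symm
  -- the nine atoms
  have hT0 : e ∣ f * (f + 1) * (2 * f + 1) := by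
    rw [← h]; exact Dvd.intro _ (by ring : e * ((e + 1) * (e + 2)) = _)
  have hT1 : e + 1 ∣ f * (f + 1) * (2 * f + 1) := by
    rw [← h]; exact Dvd.intro _ (by ring : (e + 1) * (e * (e + 2)) = _)
  have hT2 : e + 2 ∣ f * (f + 1) * (2 * f + 1) := by
    rw [← h]; exact Dvd.intro _ (by ring : (e + 2) * (e * (e + 1)) = _)
  have hU0 : f ∣ e * (e + 1) * (e + 2) := by
    rw [h]; exact Dvd.intro _ (by ring : f * ((f + 1) * (2 * f + 1)) = _)
  have hU1 : f + 1 ∣ e * (e + 1) * (e + 2) := by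
    rw [h]; exact Dvd.intro _ (by ring : (f + 1) * (f * (2 * f + 1)) = _)
  have hU2 : 2 * f + 1 ∣ e * (e + 1) * (e + 2) := by
    rw [h]; exact Dvd.intro _ (by ring : (2 * f + 1) * (f * (f + 1)) = _)
  have r0 := split3 d01 d02 d12 hT0
  have r1 := split3 d01 d02 d12 hT1
  have r2 := split3 d01 d02 d12 hT2
  have s0 := split3 c01 c02 c12 hU0
  have s1 := split3 c01 c02 c12 hU1
  have s2 := split3 c01 c02 c12 hU2
  rw [Nat.gcd_comm f, Nat.gcd_comm f, Nat.gcd_comm f] at s0
  rw [Nat.gcd_comm (f + 1), Nat.gcd_comm (f + 1), Nat.gcd_comm (f + 1)] at s1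
  rw [Nat.gcd_comm (2 * f + 1), Nat.gcd_comm (2 * f + 1), Nat.gcd_comm (2 * f + 1)] at s2
  have a00 := Nat.gcd_dvd_left e f
  have b00 := Nat.gcd_dvd_right e f
  have a01 := Nat.gcd_dvd_left e (f + 1)
  have b01 := Nat.gcd_dvd_right e (f + 1)
  have a02 := Nat.gcd_dvd_left e (2 * f + 1)
  have b02 := Nat.gcd_dvd_right e (2 * f + 1)
  have a10 := Nat.gcd_dvd_left (e + 1) f
  have b10 := Nat.gcd_dvd_right (e + 1) f
  have a11 := Nat.gcd_dvd_left (e + 1) (f + 1)
  have b11 := Nat.gcd_dvd_right (e + 1) (f + 1)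
  have a12 := Nat.gcd_dvd_left (e + 1) (2 * f + 1)
  have b12 := Nat.gcd_dvd_right (e + 1) (2 * f + 1)
  have a20 := Nat.gcd_dvd_left (e + 2) f
  have b20 := Nat.gcd_dvd_right (e + 2) f
  have a21 := Nat.gcd_dvd_left (e + 2) (f + 1)
  have b21 := Nat.gcd_dvd_right (e + 2) (f + 1)
  have a22 := Nat.gcd_dvd_left (e + 2) (2 * f + 1)
  have b22 := Nat.gcd_dvd_right (e + 2) (2 * f + 1)
  generalize Nat.gcd e f = x00 at *
  generalize Nat.gcd e (f + 1) = x01 at *
  generalize Nat.gcd e (2 * f + 1) = x02 at *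
  generalize Nat.gcd (e + 1) f = x10 at *
  generalize Nat.gcd (e + 1) (f + 1) = x11 at *
  generalize Nat.gcd (e + 1) (2 * f + 1) = x12 at *
  generalize Nat.gcd (e + 2) f = x20 at *
  generalize Nat.gcd (e + 2) (f + 1) = x21 at *
  generalize Nat.gcd (e + 2) (2 * f + 1) = x22 at *
  have p00 : 0 < x00 := Nat.pos_of_dvd_of_pos a00 (by omega)
  have p01 : 0 < x01 := Nat.pos_of_dvd_of_pos a01 (by omega)
  have p02 : 0 < x02 := Nat.pos_of_dvd_of_pos a02 (by omega)
  have p10 : 0 < x10 := Nat.pos_of_dvd_of_pos a10 (by omega)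
  have p11 : 0 < x11 := Nat.pos_of_dvd_of_pos a11 (by omega)
  have p12 : 0 < x12 := Nat.pos_of_dvd_of_pos a12 (by omega)
  have p20 : 0 < x20 := Nat.pos_of_dvd_of_pos a20 (by omega)
  have p21 : 0 < x21 := Nat.pos_of_dvd_of_pos a21 (by omega)
  have p22 : 0 < x22 := Nat.pos_of_dvd_of_pos a22 (by omega)
  -- coprimality by rows and by columns
  have cop : ∀ {p q m n : ℕ}, Nat.Coprime m n → p ∣ m → q ∣ n → Nat.Coprime p q :=
    fun hc hp hq => Nat.Coprime.of_dvd hp hq hc
  have w0 := card3 (cop d01 b00 b01) (cop d02 b00 b02) (cop d12 b01 b02)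
  have w1 := card3 (cop d01 b10 b11) (cop d02 b10 b12) (cop d12 b11 b12)
  have w2 := card3 (cop d01 b20 b21) (cop d02 b20 b22) (cop d12 b21 b22)
  have v0 := card3 (cop c01 a00 a10) (cop c02 a00 a20) (cop c12 a10 a20)
  have v1 := card3 (cop c01 a01 a11) (cop c02 a01 a21) (cop c12 a11 a21)
  have v2 := card3 (cop c01 a02 a12) (cop c02 a02 a22) (cop c12 a12 a22)
  rw [← r0, e0] at w0
  rw [← r1, e1] at w1
  rw [← r2, e2] at w2
  rw [← s0, f0] at v0
  rw [← s1, f1] at v1
  rw [← s2, f2] at v2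
  -- a part of the first triangle is no part of the second one
  have n01 : e ≠ f + 1 := fun h1 => noE hf h h1
  have l00 := le_one (T := e) (U := f) (g := x00) (a := x01) (b := x02) (c := x10) (d := x20)
    (by rw [r0]; ring) (by rw [s0]; ring) p01 p02 p10 p20 (by omega) (by omega) (by omega)
  have l01 := le_one (T := e) (U := f + 1) (g := x01) (a := x00) (b := x02) (c := x11) (d := x21)
    (by rw [r0]; ring) (by rw [s1]; ring) p00 p02 p11 p21 (by omega) (by omega) (by omega)
  have l02 := le_one (T := e) (U := 2 * f + 1) (g := x02) (a := x00) (b := x01) (c := x12)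
    (d := x22)
    (by rw [r0]; ring) (by rw [s2]; ring) p00 p01 p12 p22 (by omega) (by omega) (by omega)
  have l10 := le_one (T := e + 1) (U := f) (g := x10) (a := x11) (b := x12) (c := x00) (d := x20)
    (by rw [r1]; ring) (by rw [s0]; ring) p11 p12 p00 p20 (by omega) (by omega) (by omega)
  have l11 := le_one (T := e + 1) (U := f + 1) (g := x11) (a := x10) (b := x12) (c := x01)
    (d := x21)
    (by rw [r1]; ring) (by rw [s1]; ring) p10 p12 p01 p21 (by omega) (by omega) (by omega)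
  have l12 := le_one (T := e + 1) (U := 2 * f + 1) (g := x12) (a := x10) (b := x11) (c := x02)
    (d := x22)
    (by rw [r1]; ring) (by rw [s2]; ring) p10 p11 p02 p22 (by omega) (by omega) (by omega)
  have l20 := le_one (T := e + 2) (U := f) (g := x20) (a := x21) (b := x22) (c := x00) (d := x10)
    (by rw [r2]; ring) (by rw [s0]; ring) p21 p22 p00 p10 (by omega) (by omega) (by omega)
  have l21 := le_one (T := e + 2) (U := f + 1) (g := x21) (a := x20) (b := x22) (c := x01)
    (d := x11)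
    (by rw [r2]; ring) (by rw [s1]; ring) p20 p22 p01 p11 (by omega) (by omega) (by omega)
  have l22 := le_one (T := e + 2) (U := 2 * f + 1) (g := x22) (a := x20) (b := x21) (c := x02)
    (d := x12)
    (by rw [r2]; ring) (by rw [s2]; ring) p20 p21 p02 p12 (by omega) (by omega) (by omega)
  -- the permutation of the ones
  have hperm : (x02.primeFactors.card = 0 ∧ x10.primeFactors.card = 0 ∧
        x21.primeFactors.card = 0) ∨
      (x00.primeFactors.card = 0 ∧ x11.primeFactors.card = 0 ∧ x22.primeFactors.card = 0) ∨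
      (x01.primeFactors.card = 0 ∧ x12.primeFactors.card = 0 ∧ x20.primeFactors.card = 0) ∨
      (x02.primeFactors.card = 0 ∧ x11.primeFactors.card = 0 ∧ x20.primeFactors.card = 0) ∨
      (x01.primeFactors.card = 0 ∧ x10.primeFactors.card = 0 ∧ x22.primeFactors.card = 0) ∨
      (x00.primeFactors.card = 0 ∧ x12.primeFactors.card = 0 ∧ x21.primeFactors.card = 0) := by
    omega
  -- sizes
  obtain ⟨n, hn⟩ : ∃ n, e = f + n := ⟨e - f, by omega⟩
  have hn1 : 1 ≤ n := by omega
  have hn3 : 3 * n ≤ f + 4 := by omega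
  obtain ⟨m, hm⟩ : ∃ m, 2 * f = e + m := ⟨2 * f - e, by omega⟩
  have le0 : x02 ≤ e := Nat.le_of_dvd (by omega) a02
  have le01 : x01 ≤ e := Nat.le_of_dvd (by omega) a01
  have le22 : x22 ≤ e + 2 := Nat.le_of_dvd (by omega) a22
  have le20 : x20 ≤ f := Nat.le_of_dvd (by omega) b20
  -- linear forms
  have P0 : x00 ∣ n := by
    have := Nat.dvd_sub a00 b00
    rwa [show e - f = n by omega] at this
  have P1 : x11 ∣ n := by
    have := Nat.dvd_sub a11 b11
    rwa [show e + 1 - (f + 1) = n by omega] at this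
  have Q0 : x01 ∣ e + 2 * f + 2 := by
    have := dvd_add a01 (b01.mul_left 2)
    rwa [show e + 2 * (f + 1) = e + 2 * f + 2 by ring] at this
  have Q1 : x12 ∣ e + 2 * f + 2 := by
    have := dvd_add a12 b12
    rwa [show e + 1 + (2 * f + 1) = e + 2 * f + 2 by ring] at this
  have Q2 : x20 ∣ e + 2 * f + 2 := by
    have := dvd_add a20 (b20.mul_left 2)
    rwa [show e + 2 + 2 * f = e + 2 * f + 2 by ring] at this
  have R1 : x10 ∣ n + 1 := by
    have := Nat.dvd_sub a10 b10
    rwa [show e + 1 - f = n + 1 by omega] at this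
  have R2 : x21 ∣ n + 1 := by
    have := Nat.dvd_sub a21 b21
    rwa [show e + 2 - (f + 1) = n + 1 by omega] at this
  have U0 : x00 ∣ m := by
    have := Nat.dvd_sub (b00.mul_left 2) a00
    rwa [show 2 * f - e = m by omega] at this
  have U1 : x12 ∣ m := by
    have := Nat.dvd_sub b12 a12
    rwa [show 2 * f + 1 - (e + 1) = m by omega] at this
  have U2 : x21 ∣ m := by
    have := Nat.dvd_sub (b21.mul_left 2) a21
    rwa [show 2 * (f + 1) - (e + 2) = m by omega] at this
  have V1 : x10 ∣ m - 1 := by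
    have := Nat.dvd_sub (b10.mul_left 2) a10
    rwa [show 2 * f - (e + 1) = m - 1 by omega] at this
  have V2 : x22 ∣ m - 1 := by
    have := Nat.dvd_sub b22 a22
    rwa [show 2 * f + 1 - (e + 2) = m - 1 by omega] at this
  have W0 : x02 ∣ m + 1 := by
    have := Nat.dvd_sub b02 a02
    rwa [show 2 * f + 1 - e = m + 1 by omega] at this
  have W1 : x11 ∣ m + 1 := by
    have := Nat.dvd_sub (b11.mul_left 2) a11
    rwa [show 2 * (f + 1) - (e + 1) = m + 1 by omega] at this
  have hA : f * (f + 1) * (2 * f + 1) =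
      (x00 * x01 * x02) * (x10 * x11 * x12) * (x20 * x21 * x22) := by
    rw [← r0, ← r1, ← r2, h]
  rcases hperm with ⟨z1, z2, z3⟩ | ⟨z1, z2, z3⟩ | ⟨z1, z2, z3⟩ | ⟨z1, z2, z3⟩ | ⟨z1, z2, z3⟩ |
    ⟨z1, z2, z3⟩
  · -- ones at (0,2), (1,0), (2,1)
    have y1 := eq_one p02 z1
    have y2 := eq_one p10 z2
    have y3 := eq_one p21 z3
    have k1 : x00 * x11 ≤ n := mul_le P0 P1 (cop c01 a00 a11) (by omega)
    have k2 : x01 * x12 * x20 ≤ e + 2 * f + 2 :=
      mul_le3 Q0 Q1 Q2 (cop c01 a01 a12) (cop c02 a01 a20) (cop c12 a12 a20) (by omega)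
    have k3 : f * (f + 1) * (2 * f + 1) = (x00 * x11) * (x01 * x12 * x20) * x22 := by
      rw [hA, y1, y2, y3]; ring
    have k4 : f * (f + 1) * (2 * f + 1) ≤ n * (e + 2 * f + 2) * (e + 2) := by
      rw [k3]; exact Nat.mul_le_mul (Nat.mul_le_mul k1 k2) le22
    have k5 : (3 * n) * (3 * (e + 2 * f + 2)) * (3 * (e + 2)) ≤
        (f + 4) * (10 * f + 10) * (4 * f + 10) :=
      Nat.mul_le_mul (Nat.mul_le_mul (by omega) (by omega)) (by omega)
    exact ineqC k4 (k5.trans_lt (ineqA hf))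
  · -- ones at (0,0), (1,1), (2,2)
    have y1 := eq_one p00 z1
    have y2 := eq_one p11 z2
    have y3 := eq_one p22 z3
    have k1 : x10 * x21 ≤ n + 1 := mul_le R1 R2 (cop c12 a10 a21) (by omega)
    have k2 : x01 * x12 * x20 ≤ e + 2 * f + 2 :=
      mul_le3 Q0 Q1 Q2 (cop c01 a01 a12) (cop c02 a01 a20) (cop c12 a12 a20) (by omega)
    have k3 : f * (f + 1) * (2 * f + 1) = (x10 * x21) * (x01 * x12 * x20) * x02 := by
      rw [hA, y1, y2, y3]; ring
    have k4 : f * (f + 1) * (2 * f + 1) ≤ (n + 1) * (e + 2 * f + 2) * e := by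
      rw [k3]; exact Nat.mul_le_mul (Nat.mul_le_mul k1 k2) le0
    have k5 : (3 * (n + 1)) * (3 * (e + 2 * f + 2)) * (3 * e) ≤
        (f + 7) * (10 * f + 10) * (4 * f + 4) :=
      Nat.mul_le_mul (Nat.mul_le_mul (by omega) (by omega)) (by omega)
    exact ineqC k4 (k5.trans_lt (ineqB hf))
  · -- ones at (0,1), (1,2), (2,0)
    have y1 := eq_one p01 z1
    have y2 := eq_one p12 z2
    have y3 := eq_one p20 z3
    have k1 : x00 * x11 ≤ n := mul_le P0 P1 (cop c01 a00 a11) (by omega)
    have k2 : x10 * x21 ≤ n + 1 := mul_le R1 R2 (cop c12 a10 a21) (by omega)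
    rw [y1, one_mul] at s1
    rw [y3, mul_one] at s0
    have k3 : f * (f + 1) = (x00 * x11) * (x10 * x21) := by
      rw [s1]; nth_rewrite 1 [s0]; ring
    have k4 : f * (f + 1) ≤ n * (n + 1) := by
      rw [k3]; exact Nat.mul_le_mul k1 k2
    have k5 : n * (n + 1) < f * (f + 1) :=
      Nat.mul_lt_mul'' (by omega) (by omega)
    exact absurd k4 (not_le.mpr k5)
  · -- ones at (0,2), (1,1), (2,0)
    have y1 := eq_one p02 z1
    have y2 := eq_one p11 z2
    have y3 := eq_one p20 z3
    have k1 : x00 * x12 * x21 ≤ m :=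
      mul_le3 U0 U1 U2 (cop c01 a00 a12) (cop c02 a00 a21) (cop c12 a12 a21) (by omega)
    have k2 : x10 * x22 ≤ m - 1 := mul_le V1 V2 (cop c12 a10 a22) (by omega)
    have k3 : f * (f + 1) * (2 * f + 1) = (x00 * x12 * x21) * (x10 * x22) * x01 := by
      rw [hA, y1, y2, y3]; ring
    have k4 : f * (f + 1) * (2 * f + 1) ≤ f * (f + 1) * (2 * f) := by
      rw [k3]
      exact Nat.mul_le_mul (Nat.mul_le_mul (by omega) (by omega)) (by omega)
    exact ineqD (Nat.mul_pos (by omega) (by omega)) k4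
  · -- ones at (0,1), (1,0), (2,2)
    have y1 := eq_one p01 z1
    have y2 := eq_one p10 z2
    have y3 := eq_one p22 z3
    have k1 : x00 * x12 * x21 ≤ m :=
      mul_le3 U0 U1 U2 (cop c01 a00 a12) (cop c02 a00 a21) (cop c12 a12 a21) (by omega)
    have k2 : x02 * x11 ≤ m + 1 := mul_le W0 W1 (cop c01 a02 a11) (by omega)
    have k3 : f * (f + 1) * (2 * f + 1) = (x00 * x12 * x21) * (x02 * x11) * x20 := by
      rw [hA, y1, y2, y3]; ring
    have k4 : f * (f + 1) * (2 * f + 1) ≤ f * (f + 1) * (2 * f) := by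
      rw [k3]
      exact Nat.mul_le_mul (Nat.mul_le_mul (by omega) (by omega)) (by omega)
    exact ineqD (Nat.mul_pos (by omega) (by omega)) k4
  · -- ones at (0,0), (1,2), (2,1)
    have y1 := eq_one p00 z1
    have y2 := eq_one p12 z2
    have y3 := eq_one p21 z3
    have k1 : x10 * x22 ≤ m - 1 := mul_le V1 V2 (cop c12 a10 a22) (by omega)
    have k2 : x02 * x11 ≤ m + 1 := mul_le W0 W1 (cop c01 a02 a11) (by omega)
    rw [y2, mul_one] at r1 s2
    have k3 : (e + 1) * (2 * f + 1) = (x10 * x22) * (x02 * x11) := by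
      rw [r1, s2]; ring
    have k4 : (e + 1) * (2 * f + 1) ≤ (e + 1) * (2 * f) := by
      rw [k3]; exact Nat.mul_le_mul (by omega) (by omega)
    exact ineqD (by omega) k4

end Pool.Agent.H83.PT
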