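import Pool.Agent.H83.PT6.Lt6
import Pool.Agent.H83.PT6.EqM
import Pool.Agent.H83.PT6.AM
import Pool.Agent.H83.PT6.UU
import Pool.Agent.H83.PT6.EU

/-!
Three different primitive Pythagorean triangles of the same area have at least seven primes.
-/

namespace Pool.Agent.H83.PT

/-- four times the area through the first and the last part -/
lemma ar4 (a b : ℕ) : 4 * ((ar a b : ℕ) : ℤ) =
    (a : ℤ) * (a + 2 * b) * ((a + 2 * b) ^ 2 - (a : ℤ) ^ 2) := by
  unfold ar
  push_cast
  ring

lemma eis {a b c d : ℕ} (h : Tri a b) (he : ar a b = ar c d)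
    (hs : a + 2 * b = c + 2 * d) (hne : a ≠ c) :
    ((a : ℤ) + 2 * b) ^ 2 = (a : ℤ) ^ 2 + a * c + (c : ℤ) ^ 2 := by
  have h1 := ar4 a b
  have h2 := ar4 c d
  rw [he] at h1
  have hs' : (c : ℤ) + 2 * d = a + 2 * b := by exact_mod_cast hs.symm
  rw [hs'] at h2
  have ha : (0 : ℤ) < a := by exact_mod_cast h.ha
  have hb : (0 : ℤ) < b := by exact_mod_cast h.hb
  have hz : ((a : ℤ) + 2 * b) * (((a : ℤ) - c) *
      (((a : ℤ) + 2 * b) ^ 2 - (a ^ 2 + a * c + c ^ 2))) = 0 := by
    linear_combination h2 - h1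
  rcases mul_eq_zero.mp hz with k | k
  · exfalso; linarith
  · rcases mul_eq_zero.mp k with k | k
    · exfalso
      apply hne
      have : (a : ℤ) = c := by linarith
      exact_mod_cast this
    · linarith

lemma eis2 {a b c d : ℕ} (h : Tri a b) (he : ar a b = ar c d)
    (hs : a + 2 * b = c) :
    ((a : ℤ) + 2 * b) ^ 2 = (a : ℤ) ^ 2 - a * (c + 2 * d) + ((c : ℤ) + 2 * d) ^ 2 := by
  have h1 := ar4 a b
  have h2 := ar4 c d
  rw [he] at h1
  have hs' : (c : ℤ) = a + 2 * b := by exact_mod_cast hs.symm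
  have ha : (0 : ℤ) < a := by exact_mod_cast h.ha
  have hb : (0 : ℤ) < b := by exact_mod_cast h.hb
  obtain ⟨v, hv⟩ : ∃ v : ℤ, v = (c : ℤ) + 2 * d := ⟨_, rfl⟩
  have hv0 : 0 < v := by
    have : (0 : ℤ) ≤ d := by positivity
    linarith
  rw [← hv] at h2 ⊢
  rw [hs'] at h2
  have hz : ((a : ℤ) + 2 * b) * (((a : ℤ) + v) *
      (((a : ℤ) + 2 * b) ^ 2 - (a ^ 2 - a * v + v ^ 2))) = 0 := by
    linear_combination h2 - h1
  rcases mul_eq_zero.mp hz with k | k
  · exfalso; linarith
  · rcases mul_eq_zero.mp k with k | k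
    · exfalso; linarith
    · linarith

lemma uu_tri {a b c d : ℕ} (h : Tri a b) (h' : Tri c d) (he : ar a b = ar c d)
    (hne : (a, b) ≠ (c, d)) (hu : U a b) (hu' : U c d) : False := by
  rcases hu with ⟨rfl, u1, u2, u3⟩ | ⟨rfl, u1, u2, u3⟩
  · rcases hu' with ⟨rfl, v1, v2, v3⟩ | ⟨rfl, v1, v2, v3⟩
    · rcases Nat.lt_trichotomy a c with k | k | k
      · have := ar_lt_left (d := 1) (by norm_num) k
        omega
      · apply hne
        rw [k]
      · have := ar_lt_left (d := 1) (by norm_num) k
        omega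
    · refine uu h.odd ?_ u1 u2 u3 v1 v2 v3
      unfold ar at he
      linarith
  · rcases hu' with ⟨rfl, v1, v2, v3⟩ | ⟨rfl, v1, v2, v3⟩
    · refine uu h'.odd ?_ v1 v2 v3 u1 u2 u3
      unfold ar at he
      linarith
    · rcases Nat.lt_trichotomy b d with k | k | k
      · have := ar_lt_right (a := 1) (by norm_num) k
        omega
      · apply hne
        rw [k]
      · have := ar_lt_right (a := 1) (by norm_num) k
        omega

/-- the six small areas which occur on the way -/
def Small (A : ℕ) : Prop :=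
  A = 210 ∨ A = 2730 ∨ A = 7980 ∨ A = 71610 ∨ A = 106260 ∨ A = 499590

lemma eqM' {a b c d : ℕ} (h : Tri a b) (h' : Tri c d) (he : ar a b = ar c d)
    (hne : (a, b) ≠ (c, d)) (hs : a + 2 * b = c + 2 * d)
    (h6 : (ar c d).primeFactors.card ≤ 6) :
    ar c d = 210 ∨ ((c + 2 * d).primeFactors.card = 1 ∧ Eis6 (ar c d)) := by
  rcases Nat.lt_trichotomy a c with k | k | k
  · exact eqM h h' he hs k h6
  · exfalso
    apply hne
    have : b = d := by omega
    rw [k, this]
  · have := eqM h' h he.symm hs.symm k (by rw [he]; exact h6)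
    rw [he, hs] at this
    exact this

lemma withU {a b c d x y : ℕ} (h1 : Tri a b) (h2 : Tri c d) (h3 : Tri x y)
    (e12 : ar a b = ar c d) (e23 : ar c d = ar x y) (n12 : (a, b) ≠ (c, d))
    (n23 : (c, d) ≠ (x, y)) (h6 : (ar x y).primeFactors.card ≤ 6)
    (m12 : a + 2 * b ≤ c + 2 * d) (hU : U x y) : Small (ar x y) := by
  have h6' : (ar c d).primeFactors.card ≤ 6 := by rw [e23]; exact h6
  unfold Small
  rcases Nat.lt_or_ge (a + 2 * b) (c + 2 * d) with p | p
  · rcases lt6 h1 h2 e12 p h6' with t | t | t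
    · omega
    · rcases aM h1 h2 e12 t h6' with r | r | r | r | r
      · omega
      · omega
      · omega
      · omega
      · rw [e23] at r
        exact (eu h3 hU r).elim
    · exact (uu_tri h2 h3 e23 n23 t hU).elim
  · rcases eqM' h1 h2 e12 n12 (by omega) h6' with r | ⟨-, r⟩
    · omega
    · rw [e23] at r
      exact (eu h3 hU r).elim

lemma ne_first {a b c d : ℕ} (n : (a, b) ≠ (c, d)) (hs : a + 2 * b = c + 2 * d) : a ≠ c := by
  intro h
  apply n
  have : b = d := by omega
  rw [h, this]

lemma sorted {a b c d x y : ℕ} (h1 : Tri a b) (h2 : Tri c d) (h3 : Tri x y)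
    (e12 : ar a b = ar c d) (e23 : ar c d = ar x y) (n12 : (a, b) ≠ (c, d))
    (n13 : (a, b) ≠ (x, y)) (n23 : (c, d) ≠ (x, y)) (h6 : (ar x y).primeFactors.card ≤ 6)
    (m12 : a + 2 * b ≤ c + 2 * d) (m23 : c + 2 * d ≤ x + 2 * y) : Small (ar x y) := by
  have e13 : ar a b = ar x y := e12.trans e23
  have a0 : (0 : ℤ) < a := by exact_mod_cast h1.ha
  have c0 : (0 : ℤ) < c := by exact_mod_cast h2.ha
  have x0 : (0 : ℤ) < x := by exact_mod_cast h3.ha
  rcases Nat.lt_or_ge (c + 2 * d) (x + 2 * y) with q | q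
  · rcases lt6 h2 h3 e23 q h6 with s | s | s
    · unfold Small
      omega
    · rcases lt6 h1 h3 e13 (by omega) h6 with r | r | r
      · unfold Small
        omega
      · exfalso
        have hM : a + 2 * b = c + 2 * d := by omega
        have f1 := eis h1 e12 hM (ne_first n12 hM)
        have f2 := eis2 h1 e13 r
        have f3 := eis2 h2 e23 s
        have hM' : (a : ℤ) + 2 * b = c + 2 * d := by exact_mod_cast hM
        obtain ⟨v, hv⟩ : ∃ v : ℤ, v = (x : ℤ) + 2 * y := ⟨_, rfl⟩
        have hv0 : 0 < v := by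
          have : (0 : ℤ) ≤ y := by positivity
          linarith
        rw [← hv] at f2 f3
        have hz : ((c : ℤ) + v) * (v - a - c) = 0 := by linear_combination f1 - f2
        rcases mul_eq_zero.mp hz with k | k
        · linarith
        · have o1 := h1.odd
          have o2 := h2.odd
          have o3 := h3.odd
          omega
      · exact withU h1 h2 h3 e12 e23 n12 n23 h6 m12 r
    · exact withU h1 h2 h3 e12 e23 n12 n23 h6 m12 s
  · have hM23 : c + 2 * d = x + 2 * y := by omega
    rcases Nat.lt_or_ge (a + 2 * b) (c + 2 * d) with p | p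
    · have w := two_le_last h1 h2 e12 p
      rcases eqM' h2 h3 e23 n23 hM23 h6 with r | ⟨r, -⟩
      · unfold Small
        omega
      · rw [hM23] at w
        omega
    · exfalso
      have hM12 : a + 2 * b = c + 2 * d := by omega
      have hM13 : a + 2 * b = x + 2 * y := by omega
      have f1 := eis h1 e12 hM12 (ne_first n12 hM12)
      have f2 := eis h1 e13 hM13 (ne_first n13 hM13)
      have hz : ((c : ℤ) - x) * (a + c + x) = 0 := by linear_combination f2 - f1
      rcases mul_eq_zero.mp hz with k | k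
      · apply ne_first n23 hM23
        have : (c : ℤ) = x := by linarith
        exact_mod_cast this
      · linarith

/-- three different triangles of the same area with at most six primes: a small area -/
theorem three {a b c d x y : ℕ} (h1 : Tri a b) (h2 : Tri c d) (h3 : Tri x y)
    (e12 : ar a b = ar c d) (e23 : ar c d = ar x y) (n12 : (a, b) ≠ (c, d))
    (n13 : (a, b) ≠ (x, y)) (n23 : (c, d) ≠ (x, y)) (h6 : (ar x y).primeFactors.card ≤ 6) :
    Small (ar x y) := by
  have e13 : ar a b = ar x y := e12.trans e23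
  have h6a : (ar a b).primeFactors.card ≤ 6 := by rw [e13]; exact h6
  have h6c : (ar c d).primeFactors.card ≤ 6 := by rw [e23]; exact h6
  rcases Nat.le_total (a + 2 * b) (c + 2 * d) with p | p
  · rcases Nat.le_total (c + 2 * d) (x + 2 * y) with q | q
    · exact sorted h1 h2 h3 e12 e23 n12 n13 n23 h6 p q
    · rcases Nat.le_total (a + 2 * b) (x + 2 * y) with r | r
      · rw [← e23]
        exact sorted h1 h3 h2 e13 e23.symm n13 n12 n23.symm h6c r q
      · rw [← e23]
        exact sorted h3 h1 h2 e13.symm e12 n13.symm n23.symm n12 h6c r p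
  · rcases Nat.le_total (a + 2 * b) (x + 2 * y) with q | q
    · exact sorted h2 h1 h3 e12.symm e13 n12.symm n23 n13 h6 p q
    · rcases Nat.le_total (c + 2 * d) (x + 2 * y) with r | r
      · rw [← e13]
        exact sorted h2 h3 h1 e23 e13.symm n23 n12.symm n13.symm h6a r q
      · rw [← e13]
        exact sorted h3 h2 h1 e23.symm e12.symm n23.symm n13.symm n12.symm h6a r p

end Pool.Agent.H83.PT
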